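import Pool.Agent.H514.GE.Stm

/-! # Case A: the counting inequality in `K = L(ω)` (project GE of helper514; proof by helper384) -/

set_option autoImplicit false

namespace Pool.Agent.H514.GE

open NumberField Pool.Agent.K1H79.GE
open scoped Classical nonZeroDivisors

namespace CAx

lemma absNorm_nat (L : Type) [Field L] [NumberField L] (p : ℕ) :
    Ideal.absNorm (Ideal.span {((p : ℕ) : 𝓞 L)}) = p ^ Module.finrank ℚ L := by
  rw [Ideal.absNorm_span_singleton]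
  have h1 : ((p : ℕ) : 𝓞 L) = algebraMap ℤ (𝓞 L) (p : ℤ) := by simp
  rw [h1, Algebra.norm_algebraMap_of_basis (RingOfIntegers.basis L), Int.natAbs_pow,
    Int.natAbs_natCast, ← Module.finrank_eq_card_basis (RingOfIntegers.basis L),
    RingOfIntegers.rank]

section one

variable {F L K : Type} [Field F] [NumberField F] [Field L] [NumberField L] [Field K]
  [NumberField K] [Algebra F L] [Algebra L K]

lemma nat_mem_ex {p : ℕ} {P : Ideal (𝓞 F)} (hp : ((p : ℕ) : 𝓞 F) ∈ P) :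
    ((p : ℕ) : 𝓞 L) ∈ ex F L P := by
  have h1 := Ideal.mem_map_of_mem (algebraMap (𝓞 F) (𝓞 L)) hp
  rwa [map_natCast] at h1

lemma nat_mem {p : ℕ} {P : Ideal (𝓞 F)} {I : Ideal (𝓞 K)} (hp : ((p : ℕ) : 𝓞 F) ∈ P)
    (hI : Ideal.relNorm (𝓞 L) I = ex F L P) : ((p : ℕ) : 𝓞 K) ∈ I := by
  have h1 : ((p : ℕ) : 𝓞 L) ∈ Ideal.relNorm (𝓞 L) I := by
    rw [hI]
    exact nat_mem_ex hp
  have h2 := Ideal.relNorm_le_comap (R := 𝓞 L) I h1
  rw [Ideal.mem_comap, map_natCast] at h2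
  exact h2

lemma ne_bot {p : ℕ} (hp0 : p ≠ 0) {P : Ideal (𝓞 F)} {I : Ideal (𝓞 K)}
    (hp : ((p : ℕ) : 𝓞 F) ∈ P) (hI : Ideal.relNorm (𝓞 L) I = ex F L P) : I ≠ ⊥ := by
  rintro rfl
  have h1 := nat_mem hp hI
  rw [Ideal.mem_bot] at h1
  exact hp0 (by exact_mod_cast h1)

lemma absNorm_le {p : ℕ} (hp0 : p ≠ 0) {P : Ideal (𝓞 F)} {I : Ideal (𝓞 K)}
    (hp : ((p : ℕ) : 𝓞 F) ∈ P) (hI : Ideal.relNorm (𝓞 L) I = ex F L P) :
    Ideal.absNorm I ≤ p ^ Module.finrank ℚ L := by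
  rw [← Ideal.absNorm_relNorm (𝓞 L) (𝓞 K) I, hI, ← absNorm_nat]
  apply Nat.le_of_dvd
  · rw [absNorm_nat]
    exact Nat.pos_of_ne_zero (pow_ne_zero _ hp0)
  · apply Ideal.absNorm_dvd_absNorm_of_le
    rw [Ideal.span_singleton_le_iff_mem]
    exact nat_mem_ex hp

end one

section prod

variable {K : Type} [Field K] [NumberField K]

/-- the product of the ideals belonging to the prime factors -/
noncomputable def J (I : ℕ → Ideal (𝓞 K)) (m : ℕ) : Ideal (𝓞 K) := ∏ p ∈ m.primeFactors, I p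

lemma J_ne {I : ℕ → Ideal (𝓞 K)} {m : ℕ} (h : ∀ p : ℕ, p.Prime → p ∣ m → I p ≠ ⊥) : J I m ≠ ⊥ := by
  unfold J
  rw [← Ideal.zero_eq_bot, Finset.prod_ne_zero_iff]
  intro p hp
  rw [Ideal.zero_eq_bot]
  exact h p (Nat.prime_of_mem_primeFactors hp) (Nat.dvd_of_mem_primeFactors hp)

lemma J_dvd {I : ℕ → Ideal (𝓞 K)} {m : ℕ} (hm : Squarefree m)
    (h : ∀ p : ℕ, p.Prime → p ∣ m → ((p : ℕ) : 𝓞 K) ∈ I p) :
    J I m ∣ Ideal.span {((m : ℕ) : 𝓞 K)} := by
  have h1 : Ideal.span {((m : ℕ) : 𝓞 K)} = ∏ p ∈ m.primeFactors, Ideal.span {((p : ℕ) : 𝓞 K)} := by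
    rw [Ideal.prod_span_singleton]
    congr 2
    conv_lhs => rw [← Nat.prod_primeFactors_of_squarefree hm]
    push_cast
    rfl
  rw [h1]
  unfold J
  apply Finset.prod_dvd_prod_of_dvd
  intro p hp
  rw [Ideal.dvd_span_singleton]
  exact h p (Nat.prime_of_mem_primeFactors hp) (Nat.dvd_of_mem_primeFactors hp)

lemma J_norm {I : ℕ → Ideal (𝓞 K)} {m n : ℕ} (hm : Squarefree m)
    (h : ∀ p : ℕ, p.Prime → p ∣ m → Ideal.absNorm (I p) ≤ p ^ n) :
    Ideal.absNorm (J I m) ≤ m ^ n := by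
  unfold J
  rw [map_prod]
  conv_rhs => rw [← Nat.prod_primeFactors_of_squarefree hm]
  rw [← Finset.prod_pow]
  exact Finset.prod_le_prod' fun p hp =>
    h p (Nat.prime_of_mem_primeFactors hp) (Nat.dvd_of_mem_primeFactors hp)

end prod

lemma hs_mono (L : Type) [Field L] [NumberField L] {H H' : ℝ} (h : H ≤ H') : Hs L H ≤ Hs L H' := by
  unfold Hs
  apply IntermediateField.adjoin.mono
  rintro x ⟨h1, h2⟩
  exact ⟨h1, fun w => (h2 w).trans h⟩

lemma w_nat {K : Type} [Field K] [NumberField K] (w : InfinitePlace K) (k : ℕ) : w (k : K) = k := by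
  rw [← InfinitePlace.norm_embedding_eq, map_natCast, Complex.norm_natCast]

lemma w_mul {K : Type} [Field K] [NumberField K] (w : InfinitePlace K) (a b : K) :
    w (a * b) = w a * w b := map_mul w a b

/-- the real inequality -/
lemma ineq {n : ℕ} (hn : 1 ≤ n) {X N N' B : ℝ} (hX : 1 ≤ X) (hB : 0 < B) (hN : 0 ≤ N)
    (hN2 : N ≤ X ^ n) (hN' : 1 ≤ N') :
    B * (N / N') ^ ((3 : ℝ) / ((2 * n : ℕ) : ℝ)) ≤ B * X ^ 3 := by
  have hn0 : (0 : ℝ) < n := by exact_mod_cast hn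
  have he : (0 : ℝ) ≤ (3 : ℝ) / ((2 * n : ℕ) : ℝ) := by positivity
  refine mul_le_mul_of_nonneg_left ?_ hB.le
  have h1 : N / N' ≤ X ^ n := (div_le_self hN hN').trans hN2
  have h2 : 0 ≤ N / N' := by positivity
  have hX0 : 0 ≤ X := by linarith
  calc (N / N') ^ ((3 : ℝ) / ((2 * n : ℕ) : ℝ)) ≤ (X ^ n) ^ ((3 : ℝ) / ((2 * n : ℕ) : ℝ)) :=
        Real.rpow_le_rpow h2 h1 he
    _ = X ^ ((3 : ℝ) / 2) := by
        rw [← Real.rpow_natCast, ← Real.rpow_mul hX0]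
        congr 1
        push_cast
        field_simp
    _ ≤ X ^ (3 : ℝ) := Real.rpow_le_rpow_of_exponent_le hX (by norm_num)
    _ = X ^ 3 := by
        rw [show (3 : ℝ) = ((3 : ℕ) : ℝ) by norm_num, Real.rpow_natCast]

end CAx

open CAx

theorem t_CAof : S_CAof := by
  intro hsep hsmk hcnt n ε hn hε
  obtain ⟨B, C0, hB, hC0, hcnt⟩ := hcnt (2 * n) ε (by omega) hε
  refine ⟨max (max C0 (6 * B)) 1, le_max_right _ _, ?_⟩
  intro L K _ _ _ _ _ hL hLK ω hω hNo F X hX hF P I M hM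
  set C := max (max C0 (6 * B)) 1 with hC
  have hC1 : C0 ≤ C := (le_max_left _ _).trans (le_max_left _ _)
  have hC2 : 6 * B ≤ C := (le_max_right _ _).trans (le_max_left _ _)
  have hfin : Module.finrank ℚ K = 2 * n := by
    rw [← Module.finrank_mul_finrank ℚ L K, hL, hLK, mul_comm]
  -- the ideals
  have hp0 : ∀ m ∈ M, ∀ p : ℕ, p.Prime → p ∣ m → I p ≠ ⊥ ∧ ((p : ℕ) : 𝓞 K) ∈ I p ∧
      Ideal.absNorm (I p) ≤ p ^ n := by
    intro m hm p hp hpm
    obtain ⟨-, -, h3⟩ := hM m hm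
    obtain ⟨-, h4, -, h5⟩ := h3 p hp hpm
    refine ⟨ne_bot hp.ne_zero h4 h5, nat_mem h4 h5, ?_⟩
    rw [← hL]
    exact absNorm_le hp.ne_zero h4 h5
  have key : ∀ m ∈ M, ∀ m' ∈ M, ∀ (b c : L), b ∈ F → c ∈ F → ∀ x y : 𝓞 K, x ≠ 0 → y ≠ 0 →
      (y : K) = (algebraMap L K b + algebraMap L K c * ω) * (x : K) →
      Ideal.span {x} * J I m ^ 3 = Ideal.span {y} * J I m' ^ 3 → m = m' := by
    intro m hm m' hm' b c hb hc x y hx hy hyx heq
    refine hsep F L K hLK ω hω hNo P I m m' (hM m hm).1 (hM m' hm').1 ?_ ⟨b, hb⟩ ⟨c, hc⟩ x y hx hy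
      hyx heq
    intro p hp hpm
    rcases hp.dvd_mul.1 hpm with h | h
    · exact (hM m hm).2.2 p hp h
    · exact (hM m' hm').2.2 p hp h
  have hinj : Set.InjOn (J I) (M : Set ℕ) := by
    intro m hm m' hm' h
    refine key m hm m' hm' 1 0 (one_mem _) (zero_mem _) 1 1 one_ne_zero one_ne_zero ?_ ?_
    · simp
    · rw [h]
  have hpos : ∀ m ∈ M, 1 ≤ Ideal.absNorm (J I m) := by
    intro m hm
    apply Nat.one_le_iff_ne_zero.2
    rw [Ne, Ideal.absNorm_eq_zero_iff]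
    exact J_ne fun p hp hpm => (hp0 m hm p hp hpm).1
  have h1 := hcnt K hfin (M.image (J I)) (by
    intro 𝔞 h𝔞
    obtain ⟨m, hm, rfl⟩ := Finset.mem_image.1 h𝔞
    exact J_ne fun p hp hpm => (hp0 m hm p hp hpm).1) (by
    intro 𝔞 h𝔞 𝔟 h𝔟 hrel
    obtain ⟨m, hm, rfl⟩ := Finset.mem_image.1 h𝔞
    obtain ⟨m', hm', rfl⟩ := Finset.mem_image.1 h𝔟
    obtain ⟨x, y, hx, hy, heq, hw⟩ := hrel
    have hxK : (x : K) ≠ 0 := by
      intro h
      exact hx (RingOfIntegers.ext h)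
    have hm'0 : m' ≠ 0 := (hM m' hm').1.ne_zero
    -- integrality
    have hdvd : x ∣ y * ((m' ^ 3 : ℕ) : 𝓞 K) := by
      rw [← Ideal.span_singleton_le_span_singleton, ← Ideal.dvd_iff_le]
      have h2 : J I m' ∣ Ideal.span {((m' : ℕ) : 𝓞 K)} :=
        J_dvd (hM m' hm').1 fun p hp hpm => (hp0 m' hm' p hp hpm).2.1
      have h3 := pow_dvd_pow_of_dvd h2 3
      rw [Ideal.span_singleton_pow] at h3
      have h4 : Ideal.span {y} * J I m' ^ 3 ∣ Ideal.span {y} * Ideal.span {((m' : ℕ) : 𝓞 K) ^ 3} :=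
        mul_dvd_mul_left _ h3
      rw [← heq, Ideal.span_singleton_mul_span_singleton] at h4
      have h5 := (Dvd.intro (J I m ^ 3) rfl : Ideal.span {x} ∣ Ideal.span {x} * J I m ^ 3).trans h4
      push_cast
      exact h5
    obtain ⟨t, ht⟩ := hdvd
    set α : K := (y : K) / (x : K) with hα
    have hαx : (y : K) = α * x := by
      rw [hα, div_mul_cancel₀ _ hxK]
    have hint : ((m' ^ 3 : ℕ) : K) * α = (t : K) := by
      have h2 : (y : K) * ((m' ^ 3 : ℕ) : K) = (x : K) * (t : K) := by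
        have h3 := congrArg (fun s : 𝓞 K => (s : K)) ht
        simpa using h3
      rw [hαx] at h2
      have h4 : (x : K) * (((m' ^ 3 : ℕ) : K) * α) = (x : K) * (t : K) := by
        rw [← h2]
        ring
      exact mul_left_cancel₀ hxK h4
    -- size
    have hmX : (m : ℝ) ≤ X := (hM m hm).2.1
    have hm'X : (m' : ℝ) ≤ X := (hM m' hm').2.1
    have hwα : ∀ w : InfinitePlace K, w α ≤ B * X ^ 3 := by
      intro w
      have h2 := hw w
      rw [hfin, hαx, w_mul] at h2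
      have hwx : 0 < w (x : K) := InfinitePlace.pos_iff.2 hxK
      have h3 := le_of_mul_le_mul_right h2 hwx
      refine h3.trans (ineq hn hX hB (Nat.cast_nonneg _) ?_ ?_)
      · have h4 : Ideal.absNorm (J I m) ≤ m ^ n :=
          J_norm (hM m hm).1 fun p hp hpm => (hp0 m hm p hp hpm).2.2
        calc (Ideal.absNorm (J I m) : ℝ) ≤ ((m ^ n : ℕ) : ℝ) := by exact_mod_cast h4
          _ = (m : ℝ) ^ n := by push_cast; rfl
          _ ≤ X ^ n := pow_le_pow_left₀ (Nat.cast_nonneg _) hmX n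
      · exact_mod_cast hpos m' hm'
    obtain ⟨b, c, hb, hc, hbc⟩ := hsmk L K hLK ω hω hNo α (m' ^ 3) (B * X ^ 6)
      (Nat.one_le_iff_ne_zero.2 (pow_ne_zero 3 hm'0)) (by
        rw [hint]
        exact RingOfIntegers.isIntegral_coe t) (by
        intro w
        rw [w_mul, w_nat]
        calc ((m' ^ 3 : ℕ) : ℝ) * w α ≤ X ^ 3 * (B * X ^ 3) := by
              refine mul_le_mul ?_ (hwα w) (apply_nonneg w α) (by positivity)
              push_cast
              exact pow_le_pow_left₀ (Nat.cast_nonneg _) hm'X 3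
          _ = B * X ^ 6 := by ring)
    have hsub : Hs L (6 * (B * X ^ 6)) ≤ F := by
      refine (hs_mono L ?_).trans hF
      calc 6 * (B * X ^ 6) = 6 * B * X ^ 6 := by ring
        _ ≤ C * X ^ 6 := mul_le_mul_of_nonneg_right hC2 (by positivity)
    have hmm : m = m' := by
      refine key m hm m' hm' b c (hsub hb) (hsub hc) x y hx hy ?_ heq
      rw [← hbc]
      exact hαx
    rw [hmm])
  rw [Finset.card_image_of_injOn hinj] at h1
  refine h1.trans ?_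
  refine mul_le_mul_of_nonneg_right hC1 ?_
  exact Real.rpow_nonneg (abs_nonneg _) _

end Pool.Agent.H514.GE
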