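import Pool.Agent.H514.GE.Stm

/-! # CB: case B, the counting inequality in `L` -/

set_option autoImplicit false

namespace Pool.Agent.H514.GE

open NumberField Pool.Agent.K1H79.GE
open scoped Classical nonZeroDivisors

namespace CBaux

/-- the product of the primes -/
noncomputable def J {L : Type} [Field L] [NumberField L] (Q : ℕ → Ideal (𝓞 L)) (m : ℕ) :
    Ideal (𝓞 L) := ∏ p ∈ m.primeFactors, Q p

theorem J_ne_bot {L : Type} [Field L] [NumberField L] (Q : ℕ → Ideal (𝓞 L)) (m : ℕ)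
    (h : ∀ p : ℕ, p.Prime → p ∣ m → Q p ≠ ⊥) : J Q m ≠ ⊥ := by
  unfold J
  rw [← Ideal.zero_eq_bot, Finset.prod_ne_zero_iff]
  intro p hp
  rw [Ideal.zero_eq_bot]
  exact h p (Nat.prime_of_mem_primeFactors hp) (Nat.dvd_of_mem_primeFactors hp)

theorem J_dvd {L : Type} [Field L] [NumberField L] (Q : ℕ → Ideal (𝓞 L)) (m : ℕ)
    (hm : Squarefree m)
    (h : ∀ p : ℕ, p.Prime → p ∣ m → Q p ∣ Ideal.span {((p : ℕ) : 𝓞 L)}) :
    J Q m ∣ Ideal.span {((m : ℕ) : 𝓞 L)} := by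
  have h1 : Ideal.span {((m : ℕ) : 𝓞 L)} = ∏ p ∈ m.primeFactors, Ideal.span {((p : ℕ) : 𝓞 L)} := by
    rw [Ideal.prod_span_singleton, ← Nat.cast_prod, Nat.prod_primeFactors_of_squarefree hm]
  rw [h1]
  unfold J
  apply Finset.prod_dvd_prod_of_dvd
  intro p hp
  exact h p (Nat.prime_of_mem_primeFactors hp) (Nat.dvd_of_mem_primeFactors hp)

theorem Q_dvd {F L : Type} [Field F] [NumberField F] [Field L] [NumberField L] [Algebra F L]
    (P : Ideal (𝓞 F)) (Q : Ideal (𝓞 L)) (p : ℕ) (hp : ((p : ℕ) : 𝓞 F) ∈ P) (h : Q ∣ ex F L P) :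
    Q ∣ Ideal.span {((p : ℕ) : 𝓞 L)} := by
  refine h.trans ?_
  rw [Ideal.dvd_iff_le, Ideal.span_singleton_le_iff_mem]
  have h1 := Ideal.mem_map_of_mem (algebraMap (𝓞 F) (𝓞 L)) hp
  rw [map_natCast] at h1
  exact h1

theorem norm_J_le {L : Type} [Field L] [NumberField L] {n : ℕ} (hn : Module.finrank ℚ L = n)
    (Q : ℕ → Ideal (𝓞 L)) (m : ℕ) (hm : m ≠ 0) (h : J Q m ∣ Ideal.span {((m : ℕ) : 𝓞 L)}) :
    Ideal.absNorm (J Q m) ≤ m ^ n := by
  have h1 : Ideal.absNorm (Ideal.span {((m : ℕ) : 𝓞 L)}) = m ^ n := by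
    rw [Ideal.absNorm_span_natCast, RingOfIntegers.rank, hn]
  rw [← h1]
  apply Nat.le_of_dvd
  · rw [h1]
    exact pow_pos (Nat.pos_of_ne_zero hm) n
  · exact Ideal.absNorm_dvd_absNorm_of_le (Ideal.le_of_dvd h)

end CBaux

open CBaux in
theorem t_CBof : S_CBof := by
  intro hSEP hCNT n ε hn hε
  obtain ⟨B, C0, hB, hC0, hC⟩ := hCNT n ε hn hε
  refine ⟨max (max C0 B) 1, le_max_right _ _, ?_⟩
  intro L _ _ hL F X hX hHs P Q M hM
  set C := max (max C0 B) 1 with hCdef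
  have hCB : B ≤ C := le_trans (le_max_right _ _) (le_max_left _ _)
  have hCC0 : C0 ≤ C := le_trans (le_max_left _ _) (le_max_left _ _)
  -- basic properties of `J`
  have hm0 : ∀ m ∈ M, m ≠ 0 := fun m hm => (hM m hm).1.ne_zero
  have hQd : ∀ m ∈ M, ∀ p : ℕ, p.Prime → p ∣ m → Q p ∣ Ideal.span {((p : ℕ) : 𝓞 L)} := by
    intro m hm p hp hpm
    obtain ⟨-, h2, h3⟩ := (hM m hm).2.2 p hp hpm
    exact Q_dvd (P p) (Q p) p h2 h3.2.2.1
  have hJ0 : ∀ m ∈ M, J Q m ≠ ⊥ := fun m hm =>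
    J_ne_bot Q m fun p hp hpm => ((hM m hm).2.2 p hp hpm).2.2.2.1
  have hJd : ∀ m ∈ M, J Q m ∣ Ideal.span {((m : ℕ) : 𝓞 L)} := fun m hm =>
    J_dvd Q m (hM m hm).1 (hQd m hm)
  have hJn : ∀ m ∈ M, ((Ideal.absNorm (J Q m) : ℕ) : ℝ) ≤ X ^ n := by
    intro m hm
    have h1 := norm_J_le hL Q m (hm0 m hm) (hJd m hm)
    have h2 : ((Ideal.absNorm (J Q m) : ℕ) : ℝ) ≤ (m : ℝ) ^ n := by exact_mod_cast h1
    exact h2.trans (pow_le_pow_left₀ (Nat.cast_nonneg _) (hM m hm).2.1 n)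
  have hJ1 : ∀ m ∈ M, (1 : ℝ) ≤ ((Ideal.absNorm (J Q m) : ℕ) : ℝ) := by
    intro m hm
    have h1 : Ideal.absNorm (J Q m) ≠ 0 := by
      rw [Ne, Ideal.absNorm_eq_zero_iff]
      exact hJ0 m hm
    exact_mod_cast Nat.one_le_iff_ne_zero.2 h1
  -- separation
  have hsep : ∀ m ∈ M, ∀ m' ∈ M, ∀ (α : F) (x y : 𝓞 L), x ≠ 0 → y ≠ 0 →
      (y : L) = algebraMap F L α * (x : L) →
      Ideal.span {x} * (J Q m) ^ 3 = Ideal.span {y} * (J Q m') ^ 3 → m = m' := by
    intro m hm m' hm' α x y hx hy hyx hJJ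
    refine hSEP F L P Q m m' (hM m hm).1 (hM m' hm').1 ?_ α x y hx hy hyx hJJ
    intro p hp hpm
    rcases (Nat.Prime.dvd_mul hp).1 hpm with h | h
    · exact (hM m hm).2.2 p hp h
    · exact (hM m' hm').2.2 p hp h
  have hinj : Set.InjOn (J Q) (M : Set ℕ) := by
    intro m hm m' hm' h
    refine hsep m hm m' hm' 1 1 1 one_ne_zero one_ne_zero ?_ ?_
    · rw [map_one, one_mul]
    · rw [h]
  have hcard : (M.image (J Q)).card = M.card := Finset.card_image_of_injOn hinj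
  have hX0 : 0 < X := lt_of_lt_of_le one_pos hX
  have key := hC L hL (M.image (J Q)) ?_ ?_
  · rw [hcard] at key
    refine key.trans ?_
    apply mul_le_mul_of_nonneg_right hCC0
    exact Real.rpow_nonneg (abs_nonneg _) _
  · intro 𝔞 h𝔞
    obtain ⟨m, hm, rfl⟩ := Finset.mem_image.1 h𝔞
    exact hJ0 m hm
  · intro 𝔞 h𝔞 𝔟 h𝔟 hRel
    obtain ⟨m, hm, rfl⟩ := Finset.mem_image.1 h𝔞
    obtain ⟨m', hm', rfl⟩ := Finset.mem_image.1 h𝔟
    obtain ⟨x, y, hx, hy, hxy, hw⟩ := hRel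
    have hxL : (x : L) ≠ 0 := by
      intro h
      exact hx (RingOfIntegers.coe_eq_zero_iff.1 h)
    -- the integer `t`
    have hdvd : x ∣ y * (m' : 𝓞 L) ^ 3 := by
      rw [← Ideal.span_singleton_le_span_singleton, ← Ideal.dvd_iff_le,
        ← Ideal.span_singleton_mul_span_singleton, ← Ideal.span_singleton_pow]
      have h1 : Ideal.span {x} ∣ Ideal.span {y} * (J Q m') ^ 3 := by
        rw [← hxy]
        exact Dvd.intro _ rfl
      exact h1.trans (mul_dvd_mul_left _ (pow_dvd_pow_of_dvd (hJd m' hm') 3))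
    obtain ⟨t, ht⟩ := hdvd
    have htL : (y : L) * (m' : L) ^ 3 = (x : L) * (t : L) := by
      have := congrArg (algebraMap (𝓞 L) L) ht
      simpa only [map_mul, map_pow, map_natCast] using this
    have hm'0 : (m' : L) ≠ 0 := Nat.cast_ne_zero.2 (hm0 m' hm')
    have hα : (y : L) / x = (t : L) / (m' : L) ^ 3 := by
      rw [div_eq_div_iff hxL (pow_ne_zero 3 hm'0), htL, mul_comm]
    -- the size of `t`
    have hratio : (((Ideal.absNorm (J Q m) : ℕ) : ℝ) / ((Ideal.absNorm (J Q m') : ℕ) : ℝ)) ^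
        ((3 : ℝ) / Module.finrank ℚ L) ≤ X ^ 3 := by
      have h1 : ((Ideal.absNorm (J Q m) : ℕ) : ℝ) / ((Ideal.absNorm (J Q m') : ℕ) : ℝ) ≤ X ^ n := by
        rw [div_le_iff₀ (lt_of_lt_of_le one_pos (hJ1 m' hm'))]
        calc ((Ideal.absNorm (J Q m) : ℕ) : ℝ) ≤ X ^ n := hJn m hm
          _ = X ^ n * 1 := (mul_one _).symm
          _ ≤ X ^ n * _ := mul_le_mul_of_nonneg_left (hJ1 m' hm') (by positivity)
      have h2 : (0 : ℝ) ≤ ((Ideal.absNorm (J Q m) : ℕ) : ℝ) / ((Ideal.absNorm (J Q m') : ℕ) : ℝ) := by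
        positivity
      have h3 := Real.rpow_le_rpow h2 h1 (z := (3 : ℝ) / Module.finrank ℚ L) (by positivity)
      refine h3.trans (le_of_eq ?_)
      have hn0 : (n : ℝ) ≠ 0 := by
        have : 0 < n := hn
        positivity
      rw [hL, ← Real.rpow_natCast X n, ← Real.rpow_mul hX0.le, mul_div_cancel₀ _ hn0]
      norm_cast
    have hwt : ∀ w : InfinitePlace L, w (t : L) ≤ C * X ^ 6 := by
      intro w
      have hwx : 0 < w (x : L) := w.pos_iff.2 hxL
      have h1 := hw w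
      have h2 : w (y : L) ≤ B * X ^ 3 * w (x : L) := by
        refine h1.trans ?_
        apply mul_le_mul_of_nonneg_right _ hwx.le
        exact mul_le_mul_of_nonneg_left hratio hB.le
      have h3 : w (y : L) * (w (m' : L)) ^ 3 = w (x : L) * w (t : L) := by
        rw [← map_pow, ← map_mul, htL, map_mul]
      have h4 : w (m' : L) = (m' : ℝ) := InfinitePlace.map_natCast w m'
      rw [h4] at h3
      have h5 : (m' : ℝ) ^ 3 ≤ X ^ 3 := pow_le_pow_left₀ (Nat.cast_nonneg _) (hM m' hm').2.1 3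
      have h6 : w (x : L) * w (t : L) ≤ w (x : L) * (C * X ^ 6) := by
        rw [← h3]
        calc w (y : L) * (m' : ℝ) ^ 3 ≤ (B * X ^ 3 * w (x : L)) * X ^ 3 :=
              mul_le_mul h2 h5 (by positivity) (by positivity)
          _ = w (x : L) * (B * X ^ 6) := by ring
          _ ≤ w (x : L) * (C * X ^ 6) := by
              apply mul_le_mul_of_nonneg_left _ hwx.le
              exact mul_le_mul_of_nonneg_right hCB (by positivity)
      exact le_of_mul_le_mul_left h6 hwx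
    have htF : (t : L) ∈ F := by
      apply hHs
      unfold Hs
      apply IntermediateField.subset_adjoin
      exact ⟨RingOfIntegers.isIntegral_coe t, hwt⟩
    have hαF : (y : L) / x ∈ F := by
      rw [hα]
      exact F.div_mem htF (pow_mem (natCast_mem F m') 3)
    have hmm : m = m' := by
      refine hsep m hm m' hm' ⟨(y : L) / x, hαF⟩ x y hx hy ?_ hxy
      have h1 : algebraMap F L ⟨(y : L) / x, hαF⟩ = (y : L) / x := rfl
      rw [h1, div_mul_cancel₀ _ hxL]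
    rw [hmm]

end Pool.Agent.H514.GE

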