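import Pool.Agent.H514.GE.Stm
import Pool.Graph.R_pool_sql_team_seeded_efc1946e.K1H61.Q3.Evt
import Pool.Graph.R_pool_sql_team_seeded_efc1946e.K1H33.RM.Task

/-! # The counting inequality with uniform constants (helper93 for helper514) -/

set_option autoImplicit false

namespace Pool.Agent.H514.GE

open NumberField Finset Pool.Agent.K1H79.GE
open scoped Classical nonZeroDivisors

open Pool.Agent.TH847.LS

namespace CNTL

theorem card_FI_le {C e : ℝ} (hC : 0 < C) (he : 0 ≤ e) {F : Type} [Field F] [NumberField F]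
    (h : ∀ k : ℕ, 1 ≤ k → (Nat.card {J : Ideal (𝓞 F) // Ideal.absNorm J = k} : ℝ) ≤ C * (k : ℝ) ^ e)
    (N : ℕ) : ((FI F N).card : ℝ) ≤ C * ((N : ℝ) * (N : ℝ) ^ e) := by
  have h2 : (FI F N).card = ∑ k ∈ Icc 1 N, ((FI F N).filter (fun J => Ideal.absNorm J = k)).card := by
    apply Finset.card_eq_sum_card_fiberwise
    intro J hJ
    rw [Finset.mem_coe, mem_FI] at hJ
    rw [Finset.mem_coe, Finset.mem_Icc]
    exact ⟨absNorm_pos hJ.2, hJ.1⟩
  rw [h2]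
  push_cast
  have h3 : ∀ k ∈ Icc 1 N, (((FI F N).filter (fun J => Ideal.absNorm J = k)).card : ℝ) ≤
      C * (N : ℝ) ^ e := by
    intro k hk
    obtain ⟨hk1, hkN⟩ := Finset.mem_Icc.1 hk
    have hfin : Finite {J : Ideal (𝓞 F) // Ideal.absNorm J = k} :=
      (Ideal.finite_setOfPred_absNorm_eq (S := 𝓞 F) k).to_subtype
    have h4 : ((FI F N).filter (fun J => Ideal.absNorm J = k)).card ≤
        Nat.card {J : Ideal (𝓞 F) // Ideal.absNorm J = k} := by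
      rw [← Fintype.card_coe, ← Nat.card_eq_fintype_card]
      exact Nat.card_le_card_of_injective
        (fun J : {x // x ∈ (FI F N).filter (fun J => Ideal.absNorm J = k)} =>
          (⟨J.1, (Finset.mem_filter.1 J.2).2⟩ : {J : Ideal (𝓞 F) // Ideal.absNorm J = k}))
        (fun a b hab => by
          apply Subtype.ext
          exact congrArg (fun J : {J : Ideal (𝓞 F) // Ideal.absNorm J = k} => J.1) hab)
    calc (((FI F N).filter (fun J => Ideal.absNorm J = k)).card : ℝ)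
        ≤ (Nat.card {J : Ideal (𝓞 F) // Ideal.absNorm J = k} : ℝ) := by exact_mod_cast h4
      _ ≤ C * (k : ℝ) ^ e := h k hk1
      _ ≤ C * (N : ℝ) ^ e := by
          apply mul_le_mul_of_nonneg_left _ hC.le
          exact Real.rpow_le_rpow (Nat.cast_nonneg _) (by exact_mod_cast hkN) he
  calc ∑ k ∈ Icc 1 N, (((FI F N).filter (fun J => Ideal.absNorm J = k)).card : ℝ)
      ≤ ∑ _k ∈ Icc 1 N, C * (N : ℝ) ^ e := Finset.sum_le_sum h3
    _ = C * ((N : ℝ) * (N : ℝ) ^ e) := by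
        rw [Finset.sum_const, Nat.card_Icc, nsmul_eq_mul, Nat.add_sub_cancel]
        ring

theorem one_add_log_pow_le (m : ℕ) (e : ℝ) (he : 0 < e) :
    ∃ C : ℝ, 0 < C ∧ ∀ x : ℝ, 1 ≤ x → (1 + Real.log x) ^ m ≤ C * x ^ e := by
  have hm : (0 : ℝ) < (m : ℝ) + 1 := by positivity
  refine ⟨(1 + (m + 1) / e) ^ m, by positivity, ?_⟩
  intro x hx
  have hx0 : 0 < x := by linarith
  have h1 : Real.log x ≤ (m + 1) / e * x ^ (e / (m + 1) : ℝ) := by
    have h2 := Real.log_le_rpow_div hx0.le (show (0 : ℝ) < e / (m + 1) by positivity)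
    calc Real.log x ≤ x ^ (e / (m + 1) : ℝ) / (e / (m + 1)) := h2
      _ = (m + 1) / e * x ^ (e / (m + 1) : ℝ) := by
          field_simp
  have h3 : (1 : ℝ) ≤ x ^ (e / (m + 1) : ℝ) := Real.one_le_rpow hx (by positivity)
  have h4 : 1 + Real.log x ≤ (1 + (m + 1) / e) * x ^ (e / (m + 1) : ℝ) := by
    linarith
  have h5 : 0 ≤ Real.log x := Real.log_nonneg hx
  calc (1 + Real.log x) ^ m ≤ ((1 + (m + 1) / e) * x ^ (e / (m + 1) : ℝ)) ^ m := by
        gcongr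
    _ = (1 + (m + 1) / e) ^ m * x ^ (e / (m + 1) * m : ℝ) := by
        rw [mul_pow, ← Real.rpow_natCast (x ^ (e / (m + 1) : ℝ)) m, ← Real.rpow_mul hx0.le]
    _ ≤ (1 + (m + 1) / e) ^ m * x ^ e := by
        apply mul_le_mul_of_nonneg_left _ (by positivity)
        apply Real.rpow_le_rpow_of_exponent_le hx
        rw [div_mul_eq_mul_div, div_le_iff₀ hm]
        nlinarith

end CNTL

open CNTL in
theorem t_CNT : S_CNT := by
  intro n ε hn hε
  obtain ⟨K0, hK0, hE⟩ := Pool.Agent.K1H61.Q3.t_EVT n hn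
  obtain ⟨C1, hC1, h1⟩ := Pool.Agent.K1H33.RM.t_RM n ε hε
  obtain ⟨C2, hC2, h2⟩ := one_add_log_pow_le n ε hε
  refine ⟨K0, C1 * C2 * ((2 : ℝ) ^ n + 2) ^ (1 + 2 * ε), hK0, by positivity, ?_⟩
  intro M _ _ hM S hS hR
  have hD1 : (1 : ℝ) ≤ |(discr M : ℝ)| := by
    have := Int.one_le_abs (discr_ne_zero M)
    exact_mod_cast this
  have hT : ∀ 𝔞 ∈ S, (S.filter fun 𝔟 => Pool.Agent.K1H79.Q3.Rel K0 M 𝔞 𝔟).card ≤ 1 := by
    intro 𝔞 ha
    rw [Finset.card_le_one]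
    intro b hb c hc
    rw [Finset.mem_filter] at hb hc
    rw [← hR 𝔞 ha b hb.1 hb.2, ← hR 𝔞 ha c hc.1 hc.2]
  have hE' := hE M hM S 1 hS hT
  obtain ⟨D, hD⟩ : ∃ D : ℝ, D = |(discr M : ℝ)| := ⟨_, rfl⟩
  rw [← hD] at hD1 hE' ⊢
  have hs1 : 1 ≤ √D := Real.one_le_sqrt.2 hD1
  obtain ⟨N, hN⟩ : ∃ N : ℕ, N = ⌊(2 : ℝ) ^ n * √D⌋₊ + 1 := ⟨_, rfl⟩
  have hN1 : 2 ^ n * √D < N := by
    rw [hN]
    push_cast
    exact Nat.lt_floor_add_one _
  have hN2 : (N : ℝ) ≤ (2 ^ n + 2) * √D := by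
    rw [hN]
    push_cast
    have := Nat.floor_le (show 0 ≤ (2 : ℝ) ^ n * √D by positivity)
    nlinarith
  have hN3 : (1 : ℝ) ≤ N := by
    rw [hN]
    push_cast
    have : (0 : ℝ) ≤ (⌊(2 : ℝ) ^ n * √D⌋₊ : ℝ) := Nat.cast_nonneg _
    linarith
  have hcl := hE' N hN1
  rw [Nat.cast_one, one_mul] at hcl
  have h4 : ∑ J ∈ FI M N, (1 + Real.log ((N : ℝ) / Ideal.absNorm J)) ^ n ≤
      ∑ _J ∈ FI M N, C2 * (N : ℝ) ^ ε := by
    apply Finset.sum_le_sum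
    intro J hJ
    rw [mem_FI] at hJ
    have hJ1 : (1 : ℝ) ≤ Ideal.absNorm J := by exact_mod_cast absNorm_pos hJ.2
    have hJ2 : (Ideal.absNorm J : ℝ) ≤ N := by exact_mod_cast hJ.1
    have h5 : (1 : ℝ) ≤ (N : ℝ) / Ideal.absNorm J := by
      rw [le_div_iff₀ (by linarith)]
      linarith
    have h6 : (N : ℝ) / Ideal.absNorm J ≤ N := div_le_self (by linarith) hJ1
    calc (1 + Real.log ((N : ℝ) / Ideal.absNorm J)) ^ n ≤ C2 * ((N : ℝ) / Ideal.absNorm J) ^ ε := h2 _ h5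
      _ ≤ C2 * (N : ℝ) ^ ε := by
          apply mul_le_mul_of_nonneg_left _ hC2.le
          exact Real.rpow_le_rpow (by linarith) h6 hε.le
  rw [Finset.sum_const, nsmul_eq_mul] at h4
  have h7 := card_FI_le hC1 hε.le (h1 M hM) N
  have h8 : (N : ℝ) * (N : ℝ) ^ ε * (N : ℝ) ^ ε = (N : ℝ) ^ (1 + 2 * ε) := by
    rw [show 1 + 2 * ε = 1 + ε + ε by ring, Real.rpow_add (by linarith), Real.rpow_add (by linarith),
      Real.rpow_one]
  have h10 : 0 ≤ C2 * (N : ℝ) ^ ε := by positivity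
  calc (S.card : ℝ) * (Nat.card {c : ClassGroup (𝓞 M) // c ^ 3 = 1} : ℝ)
      ≤ ((FI M N).card : ℝ) * (C2 * (N : ℝ) ^ ε) := hcl.trans h4
    _ ≤ (C1 * ((N : ℝ) * (N : ℝ) ^ ε)) * (C2 * (N : ℝ) ^ ε) :=
        mul_le_mul_of_nonneg_right h7 h10
    _ = C1 * C2 * ((N : ℝ) * (N : ℝ) ^ ε * (N : ℝ) ^ ε) := by ring
    _ = C1 * C2 * (N : ℝ) ^ (1 + 2 * ε) := by rw [h8]
    _ ≤ C1 * C2 * ((2 ^ n + 2) * √D) ^ (1 + 2 * ε) := by
        apply mul_le_mul_of_nonneg_left _ (by positivity)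
        exact Real.rpow_le_rpow (by linarith) hN2 (by linarith)
    _ = C1 * C2 * ((2 : ℝ) ^ n + 2) ^ (1 + 2 * ε) * D ^ (1 / 2 + ε) := by
        rw [Real.mul_rpow (by positivity) (by positivity), Real.sqrt_eq_rpow, ← Real.rpow_mul (by linarith)]
        rw [show 1 / 2 * (1 + 2 * ε) = 1 / 2 + ε by ring]
        ring

end Pool.Agent.H514.GE
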