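import Pool.Agent.H514.GE.Stm

/-! # DIC: the dichotomy for a prime of norm `2` modulo `3` in an extension of even degree (helper719) -/

set_option autoImplicit false

namespace Pool.Agent.H514.GE

open NumberField Pool.Agent.K1H79.GE
open scoped Classical nonZeroDivisors

theorem DIC_even (a n : ℕ) (ha : a % 3 = 2) (hn : Even n) : a ^ n % 3 = 1 := by
  obtain ⟨m, rfl⟩ := hn
  rw [← two_mul, pow_mul, Nat.pow_mod, Nat.pow_mod a 2 3, ha]
  norm_num

theorem DIC_odd (a e : ℕ) (he : ¬ Even e) (h : a ^ e % 3 = 1) : a % 3 = 1 := by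
  have h3 : a % 3 = 0 ∨ a % 3 = 1 ∨ a % 3 = 2 := by omega
  obtain ⟨m, rfl⟩ := Nat.not_even_iff_odd.1 he
  rcases h3 with h3 | h3 | h3
  · rw [Nat.pow_mod, h3, Nat.zero_pow (by omega)] at h
    omega
  · exact h3
  · have h4 := DIC_even a (2 * m) h3 (even_two_mul m)
    rw [pow_succ, Nat.mul_mod, h4, h3] at h
    omega

theorem t_DICof : S_DICof := by
  intro hSPL F L K _ _ _ _ _ _ _ _ hev hLK ω hω hno P hP hPn
  have hnorm : Ideal.absNorm (ex F L P) = Ideal.absNorm P ^ Module.finrank F L := by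
    rw [Ideal.absNorm_algebraMap, IsFractionRing.finrank_eq (𝓞 F) F (𝓞 L) L]
  have hn3 : Ideal.absNorm (ex F L P) % 3 = 1 := by
    rw [hnorm]
    exact DIC_even _ _ hPn hev
  have hp0 : ex F L P ≠ ⊥ := by
    intro h
    rw [h, Ideal.absNorm_bot] at hn3
    omega
  by_cases h2 : ∃ Q Q' : Ideal (𝓞 L), Q.IsPrime ∧ Q'.IsPrime ∧ Q ∣ ex F L P ∧ Q' ∣ ex F L P ∧ Q' ≠ Q
  · obtain ⟨Q, Q', hQ, hQ', hd, hd', hne⟩ := h2
    left
    refine ⟨Q, hQ, ?_, hd, Or.inl ⟨Q', hQ', hd', hne⟩⟩
    rintro rfl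
    exact hp0 (zero_dvd_iff.1 hd)
  · push Not at h2
    by_cases htop : ex F L P = ⊤
    · right
      refine ⟨⊤, ?_⟩
      rw [htop]
      exact Ideal.relNorm_top _
    · obtain ⟨Q, hQm, hQle⟩ := Ideal.exists_le_maximal _ htop
      have hQp : Q.IsPrime := hQm.isPrime
      have hQd : Q ∣ ex F L P := Ideal.dvd_iff_le.2 hQle
      have hQ0 : Q ≠ ⊥ := by
        rintro rfl
        exact hp0 (zero_dvd_iff.1 hQd)
      have hall : ∀ x ∈ UniqueFactorizationMonoid.normalizedFactors (ex F L P), x = Q := by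
        intro x hx
        rw [Ideal.mem_normalizedFactors_iff hp0] at hx
        exact h2 Q x hQp hx.1 hQd (Ideal.dvd_iff_le.2 hx.2)
      have hprod := Ideal.prod_normalizedFactors_eq_self hp0
      have hrep := Multiset.eq_replicate_card.2 hall
      set e := (UniqueFactorizationMonoid.normalizedFactors (ex F L P)).card with he
      have hpe : ex F L P = Q ^ e := by
        rw [← hprod, hrep, Multiset.prod_replicate]
      by_cases hee : Even e
      · left
        exact ⟨Q, hQp, hQ0, hQd, Or.inr ⟨e, hee, hpe⟩⟩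
      · right
        have h3 : Ideal.absNorm Q % 3 = 1 := by
          apply DIC_odd _ e hee
          rw [← map_pow, ← hpe]
          exact hn3
        obtain ⟨I, hI⟩ := hSPL L K hLK ω hω hno Q hQp h3
        refine ⟨I ^ e, ?_⟩
        rw [map_pow, hI, hpe]

end Pool.Agent.H514.GE
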