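import Pool.Agent.H514.GE.Stm

/-! # The chain of scales (project GE of helper514, task GE-GE, by helper344) -/

set_option autoImplicit false

namespace Pool.Agent.H514.GE

open NumberField Pool.Agent.K1H79.GE
open scoped Classical nonZeroDivisors

namespace GEaux

/-- the scales -/
noncomputable def sc (C a b H0 : ℝ) : ℕ → ℝ
  | 0 => H0
  | (j + 1) => C * (a * (sc C a b H0 j) ^ b) ^ 6

theorem step_le {C a b H : ℝ} (hC : 1 ≤ C) (ha : 1 ≤ a) (hb : 1 ≤ b) (hH : 1 ≤ H) :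
    H ≤ a * H ^ b ∧ a * H ^ b ≤ C * (a * H ^ b) ^ 6 := by
  have h1 : H ≤ H ^ b := by
    have := Real.rpow_le_rpow_of_exponent_le hH hb
    rwa [Real.rpow_one] at this
  have h2 : H ^ b ≤ a * H ^ b := le_mul_of_one_le_left (by linarith) ha
  have h3 : 1 ≤ a * H ^ b := by linarith
  have h4 : a * H ^ b ≤ (a * H ^ b) ^ 6 := le_self_pow₀ h3 (by norm_num)
  have h5 : (a * H ^ b) ^ 6 ≤ C * (a * H ^ b) ^ 6 := le_mul_of_one_le_left (by positivity) hC
  exact ⟨by linarith, by linarith⟩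

theorem sc_one_le {C a b H0 : ℝ} (hC : 1 ≤ C) (ha : 1 ≤ a) (hb : 1 ≤ b) (hH : 1 ≤ H0) (j : ℕ) :
    1 ≤ sc C a b H0 j := by
  induction j with
  | zero => exact hH
  | succ j ih =>
    obtain ⟨h1, h2⟩ := step_le hC ha hb ih
    have h3 : sc C a b H0 (j + 1) = C * (a * (sc C a b H0 j) ^ b) ^ 6 := rfl
    rw [h3]
    linarith

theorem sc_succ {C a b H0 : ℝ} (hC : 1 ≤ C) (ha : 1 ≤ a) (hb : 1 ≤ b) (hH : 1 ≤ H0) (j : ℕ) :
    sc C a b H0 j ≤ sc C a b H0 (j + 1) := by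
  obtain ⟨h1, h2⟩ := step_le hC ha hb (sc_one_le hC ha hb hH j)
  have h3 : sc C a b H0 (j + 1) = C * (a * (sc C a b H0 j) ^ b) ^ 6 := rfl
  rw [h3]
  linarith

theorem sc_mono {C a b H0 : ℝ} (hC : 1 ≤ C) (ha : 1 ≤ a) (hb : 1 ≤ b) (hH : 1 ≤ H0) :
    Monotone (sc C a b H0) := monotone_nat_of_le_succ (sc_succ hC ha hb hH)

theorem sc_le {C a b D κ : ℝ} (hC : 1 ≤ C) (ha : 1 ≤ a) (hb : 1 ≤ b) (hD : 1 ≤ D) (hκ : 0 ≤ κ)
    (j : ℕ) : sc C a b (D ^ κ) j ≤ sc C a b 1 j * D ^ (κ * (6 * b) ^ j) := by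
  have hD0 : 0 ≤ D := by linarith
  have h1D : 1 ≤ D ^ κ := Real.one_le_rpow hD hκ
  induction j with
  | zero =>
    have h1 : sc C a b (D ^ κ) 0 = D ^ κ := rfl
    have h2 : sc C a b 1 0 = 1 := rfl
    rw [h1, h2, pow_zero, mul_one, one_mul]
  | succ j ih =>
    have h1 : sc C a b (D ^ κ) (j + 1) = C * (a * (sc C a b (D ^ κ) j) ^ b) ^ 6 := rfl
    have h2 : sc C a b 1 (j + 1) = C * (a * (sc C a b 1 j) ^ b) ^ 6 := rfl
    have p1 : 0 ≤ sc C a b (D ^ κ) j := by linarith [sc_one_le hC ha hb h1D j]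
    have p2 : 0 ≤ sc C a b 1 j := by linarith [sc_one_le hC ha hb le_rfl (H0 := 1) j]
    rw [h1, h2]
    have h3 : (sc C a b (D ^ κ) j) ^ b ≤ (sc C a b 1 j) ^ b * D ^ (κ * (6 * b) ^ j * b) := by
      refine (Real.rpow_le_rpow p1 ih (by linarith)).trans_eq ?_
      rw [Real.mul_rpow p2 (Real.rpow_nonneg hD0 _), ← Real.rpow_mul hD0]
    have h4 : a * (sc C a b (D ^ κ) j) ^ b
        ≤ a * (sc C a b 1 j) ^ b * D ^ (κ * (6 * b) ^ j * b) := by
      rw [mul_assoc]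
      exact mul_le_mul_of_nonneg_left h3 (by linarith)
    have h5 : (a * (sc C a b (D ^ κ) j) ^ b) ^ 6
        ≤ (a * (sc C a b 1 j) ^ b) ^ 6 * D ^ (κ * (6 * b) ^ (j + 1)) := by
      refine (pow_le_pow_left₀ (mul_nonneg (by linarith) (Real.rpow_nonneg p1 _)) h4 6).trans_eq ?_
      rw [mul_pow]
      congr 1
      rw [← Real.rpow_natCast, ← Real.rpow_mul hD0]
      congr 1
      push_cast
      ring
    rw [mul_assoc C]
    exact mul_le_mul_of_nonneg_left h5 (by linarith)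

theorem chain {L : Type} [Field L] [NumberField L] (F : ℕ → IntermediateField ℚ L)
    (hF : ∀ j, F j ≤ F (j + 1)) {n : ℕ} (hn : Module.finrank ℚ L = n) :
    ∃ j < n, F (j + 1) ≤ F j := by
  by_contra hcon
  push Not at hcon
  have key : ∀ j, j ≤ n → j + 1 ≤ Module.finrank ℚ (F j) := by
    intro j
    induction j with
    | zero =>
      intro _
      exact Module.finrank_pos
    | succ j ih =>
      intro hj
      have h1 := ih (by omega)
      have h2 : Module.finrank ℚ (F j) < Module.finrank ℚ (F (j + 1)) := by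
        by_contra h
        rw [not_lt] at h
        have h3 := IntermediateField.eq_of_le_of_finrank_le (hF j) h
        exact hcon j (by omega) h3.ge
      omega
  have h1 := key n le_rfl
  have h2 : Module.finrank ℚ (F n) ≤ Module.finrank ℚ L :=
    Submodule.finrank_le (Subalgebra.toSubmodule (F n).toSubalgebra)
  omega

theorem Hs_mono (L : Type) [Field L] [NumberField L] {H H' : ℝ} (h : H ≤ H') :
    Hs L H ≤ Hs L H' := by
  unfold Hs
  refine IntermediateField.adjoin.mono ℚ _ _ ?_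
  rintro x ⟨h1, h2⟩
  exact ⟨h1, fun w => (h2 w).trans h⟩

theorem one_le_disc (L : Type) [Field L] [NumberField L] : 1 ≤ |(discr L : ℝ)| := by
  have h1 : 1 ≤ |discr L| := Int.one_le_abs (discr_ne_zero L)
  exact_mod_cast h1

end GEaux

open GEaux

theorem t_GEof : S_GEof := by
  intro hstep hsub htriv n hev h2 η hη
  obtain ⟨CS0, hCS0, hsubn⟩ := hsub n
  obtain ⟨c, E, hc, hE, hstepn⟩ := hstep n (by omega)
  obtain ⟨CV, hCV, htrivn⟩ := htriv n
  obtain ⟨CS, hCS1, hsubm⟩ : ∃ CS : ℝ, 1 ≤ CS ∧ ∀ (L : Type) [Field L] [NumberField L],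
      Module.finrank ℚ L = n → ∀ H : ℝ, 1 ≤ H → |(discr (Hs L H) : ℝ)| ≤ CS * H ^ CS := by
    refine ⟨max CS0 1, le_max_right _ _, ?_⟩
    intro L _ _ hL H hH
    refine (hsubn L hL H hH).trans ?_
    exact mul_le_mul (le_max_left _ _) (Real.rpow_le_rpow_of_exponent_le hH (le_max_left _ _))
      (Real.rpow_nonneg (by linarith) _) (le_trans (by norm_num) (le_max_right CS0 1))
  obtain ⟨b, hb⟩ : ∃ b : ℝ, b = CS * E := ⟨_, rfl⟩
  obtain ⟨a, ha⟩ : ∃ a : ℝ, a = E * CS ^ E := ⟨_, rfl⟩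
  have hb1 : 1 ≤ b := by
    rw [hb]
    exact one_le_mul_of_one_le_of_one_le hCS1 hE
  have ha1 : 1 ≤ a := by
    rw [ha]
    exact one_le_mul_of_one_le_of_one_le hE (Real.one_le_rpow hCS1 (by linarith))
  have hβ : 1 ≤ 6 * b := by linarith
  obtain ⟨κ, hκ⟩ : ∃ κ : ℝ, κ = η / (2 * CS * (6 * b) ^ n) := ⟨_, rfl⟩
  have hβn : 0 < (6 * b) ^ n := by positivity
  have hκ0 : 0 < κ := by
    rw [hκ]
    positivity
  have hκ2 : κ * (6 * b) ^ n * CS = η / 2 := by
    rw [hκ]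
    field_simp
  obtain ⟨C, hC1, hmain⟩ := hstepn (κ * c / 2) (by positivity)
  obtain ⟨A, hA⟩ : ∃ A : ℝ, A = sc C a b 1 n := ⟨_, rfl⟩
  have hA1 : 1 ≤ A := by
    rw [hA]
    exact sc_one_le hC1 ha1 hb1 le_rfl n
  obtain ⟨B, hB⟩ : ∃ B : ℝ, B = CS * A ^ CS := ⟨_, rfl⟩
  have hB1 : 1 ≤ B := by
    rw [hB]
    exact one_le_mul_of_one_le_of_one_le hCS1 (Real.one_le_rpow hA1 (by linarith))
  obtain ⟨D0, hD0⟩ : ∃ D0 : ℝ, D0 = B ^ (2 / η) := ⟨_, rfl⟩
  have hD01 : 1 ≤ D0 := by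
    rw [hD0]
    exact Real.one_le_rpow hB1 (by positivity)
  refine ⟨min (κ * c / 2) (1 / 4), max C (CV * D0), lt_min (by positivity) (by norm_num),
    lt_of_lt_of_le (by linarith) (le_max_left _ _), ?_⟩
  intro L _ _ hL hNo hF
  obtain ⟨D, hD⟩ : ∃ D : ℝ, D = |(discr L : ℝ)| := ⟨_, rfl⟩
  rw [← hD] at hF ⊢
  have hD1 : 1 ≤ D := by
    rw [hD]
    exact one_le_disc L
  have hDp : 0 < D := by linarith
  have hpos : (0 : ℝ) ≤ 1 / 2 - min (κ * c / 2) (1 / 4) := by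
    have := min_le_right (κ * c / 2) (1 / 4 : ℝ)
    linarith
  rcases le_or_gt D D0 with hsmall | hbig
  · -- small discriminants
    have h1 : (Nat.card {c : ClassGroup (𝓞 L) // c ^ 3 = 1} : ℝ) ≤ CV * D := by
      have := htrivn L hL
      rw [← hD] at this
      exact this
    have h2 : 1 ≤ D ^ (1 / 2 - min (κ * c / 2) (1 / 4) : ℝ) := Real.one_le_rpow hD1 hpos
    calc (Nat.card {c : ClassGroup (𝓞 L) // c ^ 3 = 1} : ℝ) ≤ CV * D := h1
      _ ≤ CV * D0 := mul_le_mul_of_nonneg_left hsmall hCV.le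
      _ ≤ max C (CV * D0) := le_max_right _ _
      _ ≤ max C (CV * D0) * D ^ (1 / 2 - min (κ * c / 2) (1 / 4) : ℝ) :=
        le_mul_of_one_le_right (le_trans (by positivity) (le_max_right C (CV * D0))) h2
  · -- the chain of scales
    have hH0 : 1 ≤ D ^ κ := Real.one_le_rpow hD1 hκ0.le
    obtain ⟨j, hjn, hj⟩ := chain (fun j => Hs L (sc C a b (D ^ κ) j))
      (fun j => Hs_mono L (sc_succ hC1 ha1 hb1 hH0 j)) hL
    obtain ⟨H, hH⟩ : ∃ H : ℝ, H = sc C a b (D ^ κ) j := ⟨_, rfl⟩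
    have hH1 : 1 ≤ H := by
      rw [hH]
      exact sc_one_le hC1 ha1 hb1 hH0 j
    have hHD : D ^ κ ≤ H := by
      rw [hH]
      exact sc_mono hC1 ha1 hb1 hH0 (Nat.zero_le j)
    have hle : Hs L (C * (a * H ^ b) ^ 6) ≤ Hs L H := by
      have e1 : C * (a * H ^ b) ^ 6 = sc C a b (D ^ κ) (j + 1) := by
        rw [hH]
        rfl
      rw [e1, hH]
      exact hj
    have hHup : H ≤ A * D ^ (κ * (6 * b) ^ n) := by
      rw [hH, hA]
      refine (sc_le hC1 ha1 hb1 hD1 hκ0.le j).trans ?_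
      refine mul_le_mul (sc_mono hC1 ha1 hb1 le_rfl hjn.le) ?_ (Real.rpow_nonneg hDp.le _)
        (by linarith [sc_one_le hC1 ha1 hb1 le_rfl (H0 := 1) n])
      refine Real.rpow_le_rpow_of_exponent_le hD1 ?_
      exact mul_le_mul_of_nonneg_left (pow_le_pow_right₀ hβ hjn.le) hκ0.le
    have hdisc : |(discr (Hs L H) : ℝ)| ≤ B * D ^ (η / 2) := by
      refine (hsubm L hL H hH1).trans ?_
      rw [hB, mul_assoc]
      refine mul_le_mul_of_nonneg_left ?_ (by linarith)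
      refine (Real.rpow_le_rpow (by linarith) hHup (by linarith)).trans_eq ?_
      rw [Real.mul_rpow (by linarith) (Real.rpow_nonneg hDp.le _), ← Real.rpow_mul hDp.le, hκ2]
    have hBD : B < D ^ (η / 2) := by
      have h1 : D0 ^ (η / 2) < D ^ (η / 2) :=
        Real.rpow_lt_rpow (by linarith) hbig (by positivity)
      have h2 : D0 ^ (η / 2) = B := by
        rw [hD0, ← Real.rpow_mul (by linarith)]
        have h3 : 2 / η * (η / 2) = 1 := by
          field_simp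
        rw [h3, Real.rpow_one]
      rwa [h2] at h1
    have hdisc2 : |(discr (Hs L H) : ℝ)| < D ^ η := by
      refine hdisc.trans_lt ?_
      have h1 : 0 < D ^ (η / 2) := Real.rpow_pos_of_pos hDp _
      have h2 : D ^ η = D ^ (η / 2) * D ^ (η / 2) := by
        rw [← Real.rpow_add hDp]
        congr 1
        ring
      rw [h2]
      exact mul_lt_mul_of_pos_right hBD h1
    have heven : Even (Module.finrank (Hs L H) L) := by
      by_contra h
      rw [Nat.not_even_iff_odd] at h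
      exact absurd (hF (Hs L H) h) (not_le.2 hdisc2)
    have hX : E * |(discr (Hs L H) : ℝ)| ^ E ≤ a * H ^ b := by
      rw [ha, hb, mul_assoc]
      refine mul_le_mul_of_nonneg_left ?_ (by linarith)
      refine (Real.rpow_le_rpow (abs_nonneg _) (hsubm L hL H hH1) (by linarith)).trans_eq ?_
      rw [Real.mul_rpow (by linarith) (Real.rpow_nonneg (by linarith) _), ← Real.rpow_mul
        (by linarith)]
    obtain ⟨s1, s2⟩ := step_le hC1 ha1 hb1 hH1
    have hX1 : 1 ≤ a * H ^ b := hH1.trans s1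
    have hfin := hmain L hL hNo H (a * H ^ b) hH1 hX1 hle heven hX
    rw [← hD] at hfin
    have hXc : (a * H ^ b) ^ (-c) ≤ D ^ (-(κ * c)) := by
      have h1 : D ^ κ ≤ a * H ^ b := hHD.trans s1
      have h2 : (a * H ^ b) ^ (-c) ≤ (D ^ κ) ^ (-c) :=
        Real.rpow_le_rpow_of_nonpos (by linarith) h1 (by linarith)
      rw [← Real.rpow_mul hDp.le] at h2
      have h3 : κ * -c = -(κ * c) := by ring
      rwa [h3] at h2
    calc (Nat.card {c : ClassGroup (𝓞 L) // c ^ 3 = 1} : ℝ)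
        ≤ C * D ^ (1 / 2 + κ * c / 2) * (a * H ^ b) ^ (-c) := hfin
      _ ≤ C * D ^ (1 / 2 + κ * c / 2) * D ^ (-(κ * c)) :=
        mul_le_mul_of_nonneg_left hXc (mul_nonneg (by linarith) (Real.rpow_nonneg hDp.le _))
      _ = C * D ^ (1 / 2 - κ * c / 2) := by
        rw [mul_assoc, ← Real.rpow_add hDp]
        congr 2
        ring
      _ ≤ max C (CV * D0) * D ^ (1 / 2 - min (κ * c / 2) (1 / 4) : ℝ) := by
        refine mul_le_mul (le_max_left _ _) ?_ (Real.rpow_nonneg hDp.le _)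
          (le_trans (by linarith) (le_max_left C (CV * D0)))
        refine Real.rpow_le_rpow_of_exponent_le hD1 ?_
        have := min_le_left (κ * c / 2) (1 / 4 : ℝ)
        linarith

end Pool.Agent.H514.GE
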