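import Pool.Agent.H514.GE.StmL
import Pool.Graph.R_pool_sql_team_seeded_efc1946e.K1H33.RM.Task

set_option autoImplicit false

namespace Pool.Agent.H514.GE

open NumberField Pool.Agent.K1H79.GE Pool.Agent.Q92.AR
open Pool.Agent.Y773 (LI)
open scoped Classical nonZeroDivisors

namespace LBL

/-! ### the norm of a totally positive element -/

theorem prod_pos {ι : Type} [Fintype ι] (f : ι → ℂ) (h : ∀ i, ∃ r : ℝ, 0 < r ∧ f i = (r : ℂ)) :
    ∃ r : ℝ, 0 < r ∧ ∏ i, f i = (r : ℂ) := by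
  choose r h1 h2 using h
  refine ⟨∏ i, r i, Finset.prod_pos fun i _ => h1 i, ?_⟩
  rw [Complex.ofReal_prod]
  exact Finset.prod_congr rfl fun i _ => h2 i

theorem fiber_pos {K : Type} [Field K] [NumberField K] {x : K} (hx0 : x ≠ 0) (hx : Pos x)
    (w : InfinitePlace K) : ∃ r : ℝ, 0 < r ∧
      ∏ φ ∈ Finset.univ.filter (fun φ : K →+* ℂ => InfinitePlace.mk φ = w), φ x = (r : ℂ) := by
  have h0 : ∀ φ : K →+* ℂ, InfinitePlace.mk φ = w ↔
      φ = w.embedding ∨ φ = ComplexEmbedding.conjugate w.embedding := by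
    intro φ
    conv_lhs => rw [← InfinitePlace.mk_embedding w]
    rw [InfinitePlace.mk_eq_iff, ComplexEmbedding.conjugate, ComplexEmbedding.conjugate,
      star_involutive.eq_iff]
  rcases w.isReal_or_isComplex with hw | hw
  · have h1 : Finset.univ.filter (fun φ : K →+* ℂ => InfinitePlace.mk φ = w) = {w.embedding} := by
      ext φ
      rw [Finset.mem_filter, h0, Finset.mem_singleton,
        InfinitePlace.conjugate_embedding_eq_of_isReal hw]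
      simp
    rw [h1, Finset.prod_singleton]
    exact ⟨InfinitePlace.embedding_of_isReal hw x, hx _,
      (InfinitePlace.embedding_of_isReal_apply hw x).symm⟩
  · have hne : w.embedding ≠ ComplexEmbedding.conjugate w.embedding := by
      intro h
      have h2 : ComplexEmbedding.IsReal w.embedding := ComplexEmbedding.isReal_iff.2 h.symm
      exact (InfinitePlace.not_isReal_iff_isComplex.2 hw) (InfinitePlace.isReal_iff.2 h2)
    have h1 : Finset.univ.filter (fun φ : K →+* ℂ => InfinitePlace.mk φ = w) =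
        {w.embedding, ComplexEmbedding.conjugate w.embedding} := by
      ext φ
      rw [Finset.mem_filter, h0, Finset.mem_insert, Finset.mem_singleton]
      simp
    rw [h1, Finset.prod_pair hne]
    refine ⟨Complex.normSq (w.embedding x), ?_, ?_⟩
    · rw [Complex.normSq_pos]
      exact (map_ne_zero _).2 hx0
    · rw [ComplexEmbedding.conjugate_coe_eq, Complex.mul_conj]

theorem norm_pos' {K : Type} [Field K] [NumberField K] {x : K} (hx0 : x ≠ 0) (hx : Pos x) :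
    0 < Algebra.norm ℚ x := by
  have h1 := Algebra.norm_eq_prod_embeddings ℚ ℂ x
  rw [← Fintype.prod_equiv (RingHom.equivRatAlgHom K ℂ) (fun f => f x)
      (fun φ => φ x) fun _ => by simp [RingHom.equivRatAlgHom_apply]] at h1
  rw [← Finset.prod_fiberwise Finset.univ InfinitePlace.mk (fun φ : K →+* ℂ => φ x)] at h1
  obtain ⟨r, hr, h2⟩ := prod_pos _ (fiber_pos hx0 hx)
  rw [h2, eq_ratCast] at h1
  have h3 : ((Algebra.norm ℚ x : ℚ) : ℝ) = r := by exact_mod_cast h1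
  have h4 : (0 : ℝ) < ((Algebra.norm ℚ x : ℚ) : ℝ) := by rw [h3]; exact hr
  exact_mod_cast h4

theorem norm_mod {K : Type} [Field K] [NumberField K] (y : 𝓞 K) :
    ((Algebra.norm ℤ (1 + 3 * y) : ℤ) : ZMod 3) = 1 := by
  rw [Algebra.norm_eq_matrix_det (RingOfIntegers.basis K)]
  have h1 := RingHom.map_det (Int.castRingHom (ZMod 3))
    (Algebra.leftMulMatrix (RingOfIntegers.basis K) (1 + 3 * y))
  change (((Algebra.leftMulMatrix (RingOfIntegers.basis K)) (1 + 3 * y)).det : ZMod 3) = _ at h1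
  rw [h1, map_add, map_one, map_mul, map_add, map_one, map_mul, map_ofNat, map_ofNat]
  have h3 : (3 : Matrix (Module.Free.ChooseBasisIndex ℤ (𝓞 K)) (Module.Free.ChooseBasisIndex ℤ (𝓞 K))
      (ZMod 3)) = 0 := by
    have : (3 : ZMod 3) = 0 := by decide
    ext i j
    rw [show (3 : Matrix (Module.Free.ChooseBasisIndex ℤ (𝓞 K)) (Module.Free.ChooseBasisIndex ℤ (𝓞 K))
      (ZMod 3)) = Matrix.diagonal fun _ => (3 : ZMod 3) from (Matrix.diagonal_ofNat' 3).symm]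
    rw [this]
    simp
  rw [h3, zero_mul, add_zero, Matrix.det_one]

theorem norm_ray {K : Type} [Field K] [NumberField K] {x : 𝓞 K} (hx0 : x ≠ 0)
    (hx1 : x - 1 ∈ Ideal.span {(3 : 𝓞 K)}) (hx : Pos (x : K)) :
    ((Ideal.absNorm (Ideal.span {x}) : ℕ) : ZMod 3) = 1 := by
  obtain ⟨y, hy⟩ := Ideal.mem_span_singleton.1 hx1
  have hxy : x = 1 + 3 * y := by linear_combination hy
  have h1 : 0 < Algebra.norm ℚ (x : K) := norm_pos' (by
    intro h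
    exact hx0 (by exact_mod_cast h)) hx
  rw [← Algebra.coe_norm_int] at h1
  have h2 : 0 < Algebra.norm ℤ x := by exact_mod_cast h1
  rw [Ideal.absNorm_span_singleton]
  have h3 : (((Algebra.norm ℤ x).natAbs : ℕ) : ℤ) = Algebra.norm ℤ x := Int.natAbs_of_nonneg h2.le
  have h4 : (((Algebra.norm ℤ x).natAbs : ℕ) : ZMod 3) = ((((Algebra.norm ℤ x).natAbs : ℕ) : ℤ) : ZMod 3) := by
    rw [Int.cast_natCast]
  rw [h4, h3, hxy]
  exact norm_mod y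

/-! ### the character modulo 3 -/

/-- the character of norms modulo 3 -/
noncomputable def ps (K : Type) [Field K] [NumberField K] : Ideal (𝓞 K) →*₀ ℤ where
  toFun 𝔞 := quadraticChar (ZMod 3) ((Ideal.absNorm 𝔞 : ℕ) : ZMod 3)
  map_zero' := by
    rw [map_zero, Nat.cast_zero]
    simp
  map_one' := by
    rw [map_one, Nat.cast_one, map_one]
  map_mul' 𝔞 𝔟 := by
    rw [map_mul, Nat.cast_mul, map_mul]

variable {K : Type} [Field K] [NumberField K]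

theorem ps_apply (𝔞 : Ideal (𝓞 K)) :
    ps K 𝔞 = quadraticChar (ZMod 3) ((Ideal.absNorm 𝔞 : ℕ) : ZMod 3) := rfl

theorem q0 : quadraticChar (ZMod 3) 0 = 0 := by decide
theorem q1 : quadraticChar (ZMod 3) 1 = 1 := by decide
theorem q2 : quadraticChar (ZMod 3) 2 = -1 := by decide

theorem ps_val (𝔞 : Ideal (𝓞 K)) : ps K 𝔞 = 0 ∨ ps K 𝔞 = 1 ∨ ps K 𝔞 = -1 := by
  rw [ps_apply]
  generalize ((Ideal.absNorm 𝔞 : ℕ) : ZMod 3) = z
  revert z
  decide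

theorem ps_zero_iff (𝔞 : Ideal (𝓞 K)) : ps K 𝔞 = 0 ↔ 3 ∣ Ideal.absNorm 𝔞 := by
  rw [ps_apply, ← ZMod.natCast_eq_zero_iff]
  generalize ((Ideal.absNorm 𝔞 : ℕ) : ZMod 3) = z
  revert z
  decide

theorem ps_one {𝔞 : Ideal (𝓞 K)} (h : Ideal.absNorm 𝔞 % 3 = 1) : ps K 𝔞 = 1 := by
  have h1 : ((Ideal.absNorm 𝔞 : ℕ) : ZMod 3) = 1 := by
    rw [← ZMod.natCast_mod, h, Nat.cast_one]
  rw [ps_apply, h1, q1]

theorem ps_two {𝔞 : Ideal (𝓞 K)} (h : Ideal.absNorm 𝔞 % 3 = 2) : ps K 𝔞 = -1 := by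
  have h1 : ((Ideal.absNorm 𝔞 : ℕ) : ZMod 3) = 2 := by
    rw [← ZMod.natCast_mod, h]
    rfl
  rw [ps_apply, h1, q2]

theorem absNorm_three : Ideal.absNorm (Ideal.span {(3 : 𝓞 K)}) = 3 ^ Module.finrank ℚ K := by
  have h1 := Pool.Agent.Y773.absNorm_span_nat (K := K) 3
  rwa [Nat.cast_ofNat] at h1

theorem three_ne_top : Ideal.span {(3 : 𝓞 K)} ≠ ⊤ := by
  intro h
  have h1 := absNorm_three (K := K)
  rw [h, Ideal.absNorm_top] at h1
  have h2 : 0 < Module.finrank ℚ K := Module.finrank_pos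
  have h3 : 1 < 3 ^ Module.finrank ℚ K := Nat.one_lt_pow h2.ne' (by norm_num)
  omega

theorem three_ne_bot : Ideal.span {(3 : 𝓞 K)} ≠ ⊥ := by
  rw [Ne, Ideal.span_singleton_eq_bot]
  norm_num

/-- coprime to 3 -/
theorem cop_iff (𝔞 : Ideal (𝓞 K)) :
    IsCoprime 𝔞 (Ideal.span {(3 : 𝓞 K)}) ↔ ¬ 3 ∣ Ideal.absNorm 𝔞 := by
  constructor
  · intro h hd
    have h0 : 𝔞 ≠ ⊥ ∨ 𝔞 = ⊥ := by tauto
    rcases h0 with h0 | h0
    · obtain ⟨a, ha, b, hb, hab⟩ := (Ideal.isCoprime_iff_exists).1 h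
      obtain ⟨c, hc⟩ := Ideal.mem_span_singleton.1 hb
      have hfin : Finite (𝓞 K ⧸ 𝔞) := Ideal.finiteQuotientOfFreeOfNeBot 𝔞 h0
      have h1 : 3 ∣ Nat.card (𝓞 K ⧸ 𝔞) := hd
      have : Fact (Nat.Prime 3) := ⟨Nat.prime_three⟩
      obtain ⟨q, hq⟩ := exists_prime_addOrderOf_dvd_card' 3 h1
      have h2 : (3 : ℕ) • q = 0 := by
        rw [← hq]; exact addOrderOf_nsmul_eq_zero q
      have h3 : q = 0 := by
        have h4 : (Ideal.Quotient.mk 𝔞 (3 * c)) = 1 := by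
          rw [← hc]
          have h5 : Ideal.Quotient.mk 𝔞 (a + b) = 1 := by rw [hab, map_one]
          rw [map_add, Ideal.Quotient.eq_zero_iff_mem.2 ha, zero_add] at h5
          exact h5
        have h5 : (3 : 𝓞 K ⧸ 𝔞) * q = 0 := by
          rw [nsmul_eq_mul] at h2
          exact_mod_cast h2
        calc q = (Ideal.Quotient.mk 𝔞 (3 * c)) * q := by rw [h4, one_mul]
          _ = Ideal.Quotient.mk 𝔞 c * ((3 : 𝓞 K ⧸ 𝔞) * q) := by
              rw [map_mul, map_ofNat]; ring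
          _ = 0 := by rw [h5, mul_zero]
      rw [h3, addOrderOf_zero] at hq
      norm_num at hq
    · rw [h0, Ideal.isCoprime_iff_sup_eq, bot_sup_eq] at h
      exact three_ne_top h
  · intro h
    have h1 : IsCoprime ((Ideal.absNorm 𝔞 : ℕ) : ℤ) (3 : ℤ) := by
      rw [show (3 : ℤ) = ((3 : ℕ) : ℤ) from rfl, Nat.isCoprime_iff_coprime]
      exact ((Nat.Prime.coprime_iff_not_dvd Nat.prime_three).2 h).symm
    obtain ⟨u, v, huv⟩ := h1
    rw [Ideal.isCoprime_iff_exists]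
    refine ⟨(u : 𝓞 K) * ((Ideal.absNorm 𝔞 : ℕ) : 𝓞 K), 𝔞.mul_mem_left _ (Ideal.absNorm_mem 𝔞),
      (v : 𝓞 K) * 3, Ideal.mul_mem_left _ _ (Ideal.mem_span_singleton_self _), ?_⟩
    have := congrArg (Int.cast : ℤ → 𝓞 K) huv
    push_cast at this
    exact this


/-! ### the bound in the half-plane of absolute convergence -/

theorem nr_bound (f : ℕ) : ∃ B : ℝ, 0 < B ∧ ∀ (K : Type) [Field K] [NumberField K],
    Module.finrank ℚ K = f → ∑' 𝔞 : Ideal (𝓞 K), Pool.Agent.Y772.DK.nr K (3 / 2) 𝔞 ≤ B := by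
  obtain ⟨C, hC, hRM⟩ := Pool.Agent.K1H33.RM.t_RM f (1 / 4) (by norm_num)
  have hs5 : Summable fun m : ℕ => (m : ℝ) ^ (-(5 / 4) : ℝ) :=
    Real.summable_nat_rpow.2 (by norm_num)
  have h50 : 0 ≤ ∑' m : ℕ, (m : ℝ) ^ (-(5 / 4) : ℝ) :=
    tsum_nonneg fun m => Real.rpow_nonneg (Nat.cast_nonneg m) _
  refine ⟨C * (∑' m : ℕ, (m : ℝ) ^ (-(5 / 4) : ℝ)) + 1, by positivity, ?_⟩
  intro K _ _ hf
  obtain ⟨g, hg⟩ : ∃ g : Ideal (𝓞 K) → ℝ, g = Pool.Agent.Y772.DK.nr K (3 / 2) := ⟨_, rfl⟩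
  have hsum : Summable g := by
    rw [hg]
    exact Pool.Agent.Y772.DK.nr_summable K (by norm_num)
  let E := Equiv.sigmaFiberEquiv (fun J : Ideal (𝓞 K) => Ideal.absNorm J)
  have hsE : Summable fun x => g (E x) := (E.summable_iff (f := g)).2 hsum
  have h1 : ∑' 𝔞 : Ideal (𝓞 K), g 𝔞 = ∑' x, g (E x) := (E.tsum_eq g).symm
  have hsg := hsE.sigma
  have hin : ∀ m : ℕ, ∑' c : {J : Ideal (𝓞 K) // Ideal.absNorm J = m}, g (E ⟨m, c⟩) =
      (Nat.card {J : Ideal (𝓞 K) // Ideal.absNorm J = m} : ℝ) * (m : ℝ) ^ (-(3 / 2) : ℝ) := by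
    intro m
    have h2 : ∀ c : {J : Ideal (𝓞 K) // Ideal.absNorm J = m}, g (E ⟨m, c⟩) =
        (m : ℝ) ^ (-(3 / 2) : ℝ) := by
      rintro ⟨J, hJ⟩
      rw [hg]
      change ((Ideal.absNorm J : ℕ) : ℝ) ^ (-(3 / 2) : ℝ) = _
      rw [hJ]
    rw [tsum_congr h2, tsum_const, nsmul_eq_mul]
  have hle : ∀ m : ℕ, ∑' c : {J : Ideal (𝓞 K) // Ideal.absNorm J = m}, g (E ⟨m, c⟩) ≤
      C * (m : ℝ) ^ (-(5 / 4) : ℝ) := by
    intro m
    rw [hin]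
    rcases Nat.eq_zero_or_pos m with rfl | hm
    · rw [Nat.cast_zero, Real.zero_rpow (by norm_num), Real.zero_rpow (by norm_num), mul_zero, mul_zero]
    · have h3 := hRM K hf m hm
      have hm0 : (0 : ℝ) < m := by exact_mod_cast hm
      calc _ ≤ C * (m : ℝ) ^ (1 / 4 : ℝ) * (m : ℝ) ^ (-(3 / 2) : ℝ) :=
            mul_le_mul_of_nonneg_right h3 (Real.rpow_nonneg hm0.le _)
        _ = C * (m : ℝ) ^ (-(5 / 4) : ℝ) := by
            rw [mul_assoc, ← Real.rpow_add hm0]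
            norm_num
  have h4 : ∑' x, g (E x) = ∑' m : ℕ, ∑' c : {J : Ideal (𝓞 K) // Ideal.absNorm J = m}, g (E ⟨m, c⟩) :=
    hsE.tsum_sigma
  rw [← hg, h1, h4]
  have h5 := hsg.tsum_le_tsum hle (hs5.mul_left C)
  rw [tsum_mul_left] at h5
  linarith

/-- the absolute bound for the L-function -/
theorem LI_le {ψ : Ideal (𝓞 K) →*₀ ℂ} (hψ : ∀ 𝔞, ‖ψ 𝔞‖ ≤ 1) {s : ℂ} (hs : 3 / 2 ≤ s.re) :
    ‖LI ψ s‖ ≤ ∑' 𝔞 : Ideal (𝓞 K), Pool.Agent.Y772.DK.nr K (3 / 2) 𝔞 :=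
  Pool.Agent.Y772.DK.LA_le (a := fun 𝔞 => ψ 𝔞) (map_zero ψ) hψ (by norm_num) hs

/-- the Euler factors at the primes above 3 -/
theorem Ef_le {ψ : Ideal (𝓞 K) →*₀ ℂ} (hψ : ∀ 𝔞, ‖ψ 𝔞‖ ≤ 1) {s : ℂ} (hs : 0 ≤ s.re) :
    ‖Pool.Agent.Y773.AB.Ef (Ideal.span {(3 : 𝓞 K)}) ψ s‖ ≤ 3 ^ Module.finrank ℚ K := by
  rw [Pool.Agent.Y773.AB.Ef_eq three_ne_bot, norm_prod]
  obtain ⟨S, hS⟩ : ∃ S : Finset {𝔭 : Ideal (𝓞 K) // Prime 𝔭}, S =
    (Pool.Agent.Y773.AB.fin_pr (three_ne_bot (K := K))).toFinset := ⟨_, rfl⟩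
  rw [← hS]
  have h1 : ∏ 𝔭 ∈ S, ‖1 - ψ 𝔭 * ((Ideal.absNorm (𝔭 : Ideal (𝓞 K)) : ℕ) : ℂ) ^ (-s)‖ ≤
      ∏ 𝔭 ∈ S, (Ideal.absNorm (𝔭 : Ideal (𝓞 K)) : ℝ) := by
    refine Finset.prod_le_prod (fun _ _ => norm_nonneg _) fun 𝔭 _ => ?_
    have h0 := Pool.Agent.Y773.AB.norm_prime_ge 𝔭.2
    have h2 : (2 : ℝ) ≤ (Ideal.absNorm (𝔭 : Ideal (𝓞 K)) : ℝ) := by exact_mod_cast h0
    refine le_trans ?_ h2
    refine (norm_sub_le _ _).trans ?_
    rw [norm_one, norm_mul]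
    have h3 : ‖((Ideal.absNorm (𝔭 : Ideal (𝓞 K)) : ℕ) : ℂ) ^ (-s)‖ ≤ 1 := by
      rw [Complex.norm_natCast_cpow_of_pos (by omega), Complex.neg_re]
      refine Real.rpow_le_one_of_one_le_of_nonpos ?_ (by linarith)
      linarith
    have := mul_le_one₀ (hψ 𝔭) (norm_nonneg _) h3
    linarith
  refine h1.trans ?_
  have h2 : (∏ 𝔭 ∈ S, (𝔭 : Ideal (𝓞 K))) ∣ Ideal.span {(3 : 𝓞 K)} := by
    have h3 : ∏ 𝔭 ∈ S, (𝔭 : Ideal (𝓞 K)) = ∏ P ∈ S.map ⟨Subtype.val, Subtype.val_injective⟩, P := by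
      rw [Finset.prod_map]
      rfl
    rw [h3]
    apply Finset.prod_primes_dvd
    · intro P hP
      rw [Finset.mem_map] at hP
      obtain ⟨𝔭, _, rfl⟩ := hP
      exact 𝔭.2
    · intro P hP
      rw [Finset.mem_map] at hP
      obtain ⟨𝔭, h𝔭, rfl⟩ := hP
      rw [hS, Set.Finite.mem_toFinset] at h𝔭
      exact h𝔭
  obtain ⟨J, hJ⟩ := h2
  have h3 := congrArg Ideal.absNorm hJ
  rw [map_mul, map_prod, absNorm_three] at h3
  have h4 : (∏ 𝔭 ∈ S, Ideal.absNorm (𝔭 : Ideal (𝓞 K))) ≤ 3 ^ Module.finrank ℚ K :=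
    Nat.le_of_dvd (by positivity) ⟨_, h3⟩
  have h5 : ((∏ 𝔭 ∈ S, Ideal.absNorm (𝔭 : Ideal (𝓞 K)) : ℕ) : ℝ) ≤ ((3 ^ Module.finrank ℚ K : ℕ) : ℝ) := by
    exact_mod_cast h4
  push_cast at h5
  exact h5

/-- the complex version of the character -/
noncomputable def psC (K : Type) [Field K] [NumberField K] : Ideal (𝓞 K) →*₀ ℂ :=
  (Int.castRingHom ℂ).toMonoidWithZeroHom.comp (ps K)

/-- the real version of the character -/
noncomputable def psR (K : Type) [Field K] [NumberField K] : Ideal (𝓞 K) →*₀ ℝ :=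
  (Int.castRingHom ℝ).toMonoidWithZeroHom.comp (ps K)

theorem psC_apply (𝔞 : Ideal (𝓞 K)) : psC K 𝔞 = ((ps K 𝔞 : ℤ) : ℂ) := rfl

theorem psR_apply (𝔞 : Ideal (𝓞 K)) : psR K 𝔞 = ((ps K 𝔞 : ℤ) : ℝ) := rfl

theorem psC_ne (𝔞 : Ideal (𝓞 K)) : psC K 𝔞 ≠ 0 ↔ IsCoprime 𝔞 (Ideal.span {(3 : 𝓞 K)}) := by
  rw [psC_apply, Ne, Int.cast_eq_zero, ps_zero_iff, cop_iff]

theorem psR_x3 : IsX3 K (psR K) := by
  refine ⟨fun 𝔞 => ?_, fun 𝔞 h => ?_, fun 𝔞 h => ?_⟩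
  · rcases ps_val 𝔞 with h | h | h <;> rw [psR_apply, h] <;> simp
  · rw [psR_apply, ps_one h, Int.cast_one]
  · rw [psR_apply, ps_two h, Int.cast_neg, Int.cast_one]

theorem psC_le (𝔞 : Ideal (𝓞 K)) : ‖psC K 𝔞‖ ≤ 1 := by
  rcases ps_val 𝔞 with h | h | h <;> rw [psC_apply, h] <;> simp

end LBL

open LBL in
theorem t_LBof : S_LBof := by
  intro hLBP hNT f
  obtain ⟨B, hB, hBK⟩ := nr_bound f
  refine ⟨B * 3 ^ f * 3 ^ f * 5 ^ f * 3 ^ f, 1, by positivity, one_pos, ?_⟩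
  intro F _ _ hf hom
  refine ⟨psR F, psR_x3, ?_⟩
  obtain ⟨𝔣, e, ψ', hdvd, hne', hele, hecx, hsupp, hsig, hprim, heq⟩ :=
      Pool.Agent.Q264.AR.prim F (Ideal.span {(3 : 𝓞 F)}) (psC F) three_ne_bot
        (fun 𝔞 _ => psC_ne 𝔞) (fun x h0 h1 hx => by
          rw [psC_apply, ps_apply, norm_ray h0 h1 hx, q1, Int.cast_one])
  have hnt : ¬ ∀ 𝔞 : Ideal (𝓞 F), 𝔞 ≠ ⊥ → ψ' 𝔞 = 1 := by
    intro ht
    obtain ⟨P, hP, hP2⟩ := hNT F hom
    have hP0 : P ≠ ⊥ := by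
      rintro rfl
      rw [Ideal.absNorm_bot] at hP2
      norm_num at hP2
    have h1 : IsCoprime P (Ideal.span {(3 : 𝓞 F)}) := by
      rw [cop_iff]
      omega
    have h2 := heq P h1
    rw [ht P hP0, psC_apply, ps_two hP2] at h2
    norm_num at h2
  obtain ⟨hnorm, hbd⟩ := hLBP F 𝔣 e ψ' hne' hele hecx hsupp hsig hprim hnt
  obtain ⟨g, hg, hgL, hgB⟩ := hbd B (fun s hs => (LI_le hnorm hs).trans (hBK F hf))
  have hres : psC F = Pool.Agent.Y773.AB.res (Ideal.span {(3 : 𝓞 F)}) three_ne_top ψ' := by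
    ext 𝔞
    by_cases hc : IsCoprime 𝔞 (Ideal.span {(3 : 𝓞 F)})
    · rw [Pool.Agent.Y773.AB.res_cop three_ne_top _ hc, heq 𝔞 hc]
    · rw [Pool.Agent.Y773.AB.res_not three_ne_top _ hc]
      by_contra h
      exact hc ((psC_ne 𝔞).1 h)
  refine ⟨fun s => g s * Pool.Agent.Y773.AB.Ef (Ideal.span {(3 : 𝓞 F)}) ψ' s,
    hg.mul (Pool.Agent.Y773.AB.Ef_diff three_ne_bot ψ'), fun s hs => ?_, fun s hs => ?_⟩
  · have h1 : Summable fun 𝔞 : Ideal (𝓞 F) => psC F 𝔞 * ((Ideal.absNorm 𝔞 : ℕ) : ℂ) ^ (-s) :=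
      (Pool.Agent.Y772.DK.term_summable (a := fun 𝔞 => psC F 𝔞) (map_zero _) psC_le hs).of_norm
    have h2 := h1.hasSum
    have h3 : ∑' 𝔞 : Ideal (𝓞 F), psC F 𝔞 * ((Ideal.absNorm 𝔞 : ℕ) : ℂ) ^ (-s) =
        g s * Pool.Agent.Y773.AB.Ef (Ideal.span {(3 : 𝓞 F)}) ψ' s := by
      rw [← hgL s hs, ← Pool.Agent.Y773.AB.LI_res three_ne_bot three_ne_top hnorm hs, ← hres]
      rfl
    rw [h3] at h2
    have h4 : (fun 𝔞 : Ideal (𝓞 F) => ((psR F 𝔞 : ℝ) : ℂ) * ((Ideal.absNorm 𝔞 : ℕ) : ℂ) ^ (-s)) =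
        fun 𝔞 : Ideal (𝓞 F) => psC F 𝔞 * ((Ideal.absNorm 𝔞 : ℕ) : ℂ) ^ (-s) := by
      funext 𝔞
      rw [psR_apply, psC_apply, Complex.ofReal_intCast]
    rw [h4]
    exact h2
  · have hre : 0 ≤ s.re := by
      have h1 := (Complex.abs_re_le_norm (s - 2)).trans hs
      rw [Complex.sub_re, Complex.re_ofNat, abs_le] at h1
      linarith [h1.1]
    have hsn : ‖s‖ ≤ 4 := by
      have h1 : ‖s‖ ≤ ‖s - 2‖ + ‖(2 : ℂ)‖ := by
        have := norm_add_le (s - 2) 2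
        rwa [sub_add_cancel] at this
      have h2 : ‖(2 : ℂ)‖ = 2 := by norm_num
      linarith
    have hN : (Ideal.absNorm 𝔣 : ℝ) ≤ 3 ^ f := by
      obtain ⟨J, hJ⟩ := hdvd
      have h1 := congrArg Ideal.absNorm hJ
      rw [map_mul, absNorm_three, hf] at h1
      have h2 : Ideal.absNorm 𝔣 ≤ 3 ^ f := Nat.le_of_dvd (by positivity) ⟨_, h1⟩
      exact_mod_cast h2
    have hD : (Ideal.absNorm (differentIdeal ℤ (𝓞 F)) : ℝ) = |(discr F : ℝ)| := by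
      rw [absNorm_differentIdeal F, Nat.cast_natAbs, Int.cast_abs]
    have h1 := hgB s (by linarith)
    rw [hf, hD] at h1
    have h2 := Ef_le hnorm hre
    rw [hf] at h2
    rw [norm_mul, Real.rpow_one]
    have h3 : B * ((Ideal.absNorm 𝔣 : ℝ) * |(discr F : ℝ)|) * 3 ^ f * (1 + ‖s‖) ^ f ≤
        B * (3 ^ f * |(discr F : ℝ)|) * 3 ^ f * 5 ^ f := by
      have h4 : 1 + ‖s‖ ≤ 5 := by linarith
      have h5 : 0 ≤ |(discr F : ℝ)| := abs_nonneg _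
      have h6 := norm_nonneg s
      gcongr
    calc ‖g s‖ * ‖Pool.Agent.Y773.AB.Ef (Ideal.span {(3 : 𝓞 F)}) ψ' s‖ ≤
          (B * (3 ^ f * |(discr F : ℝ)|) * 3 ^ f * 5 ^ f) * 3 ^ f :=
          mul_le_mul (h1.trans h3) h2 (norm_nonneg _) (by positivity)
      _ = _ := by ring

end Pool.Agent.H514.GE
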