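import Pool.Agent.H514.GE.StmL

/-! # Explicit growth of the L-functions of primitive ray class characters (helper93 for helper514)

After `poly_prim` of `Q284/SP/Grw.lean`, with the constants. -/

set_option autoImplicit false
set_option linter.unusedSectionVars false

namespace Pool.Agent.H514.GE

open NumberField IsDedekindDomain Filter Topology Complex Set
open Pool.Agent.K1H79.GE Pool.Agent.Q92.AR
open scoped nonZeroDivisors

namespace LBPL

open Pool.Agent.Y773 (LI GG TPos FEd)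
open Pool.Agent.Q284.SP

theorem bound_of_FEd {ι : Type} [Fintype ι] {R : ℝ} (hR : 1 ≤ R) {e : ι → ℕ} {F : ℂ → ℂ}
    (hF : FEd R e F) {B : ℝ} (hB : ∀ s : ℂ, 3 / 2 ≤ s.re → ‖F s‖ ≤ B) (s : ℂ) (hs : -1 / 2 ≤ s.re) :
    ‖F s‖ ≤ B * R * 3 ^ Fintype.card ι * (1 + ‖s‖) ^ Fintype.card ι := by
  have hB0 : 0 ≤ B := (norm_nonneg _).trans (hB (3 / 2) (by norm_num))
  have hF' : FEd (R * 1) e F := by rwa [mul_one]
  have h3 : ‖s + 3‖ ≤ 3 * (1 + ‖s‖) := by
    refine (norm_add_le _ _).trans ?_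
    have : ‖(3 : ℂ)‖ = 3 := by norm_num
    rw [this]
    linarith [norm_nonneg s]
  have h5 : 1 ≤ (1 + ‖s‖) ^ Fintype.card ι := one_le_pow₀ (by linarith [norm_nonneg s])
  have h6 : (1 : ℝ) ≤ 3 ^ Fintype.card ι := one_le_pow₀ (by norm_num)
  rcases le_or_gt s.re (3 / 2) with h | h
  · have h1 := Pool.Agent.Y772.FE.HH_bound hR le_rfl hF' hB s hs h
    unfold Pool.Agent.Y772.FE.HH at h1
    rw [norm_mul, norm_mul, ofReal_one, one_cpow, norm_one, mul_one, norm_inv, norm_pow] at h1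
    have h2 : 0 < ‖s + 3‖ := norm_pos_iff.2 (Pool.Agent.Y772.FE.sp3_ne (by linarith))
    rw [← div_eq_mul_inv, div_le_iff₀ (by positivity)] at h1
    calc ‖F s‖ ≤ B * R * ‖s + 3‖ ^ Fintype.card ι := h1
      _ ≤ B * R * (3 * (1 + ‖s‖)) ^ Fintype.card ι := by gcongr
      _ = _ := by rw [mul_pow]; ring
  · refine (hB s h.le).trans ?_
    calc B = B * 1 * 1 * 1 := by ring
      _ ≤ B * R * 3 ^ Fintype.card ι * (1 + ‖s‖) ^ Fintype.card ι := by gcongr

variable {K : Type} [Field K] [NumberField K]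

theorem card_emb {h : Fintype (K →+* ℂ)} : @Fintype.card (K →+* ℂ) h = Module.finrank ℚ K := by
  have h1 := NumberField.Embeddings.card K ℂ
  rw [← h1, Subsingleton.elim h (Embeddings.instFintypeRingHom K ℂ)]

open Pool.Agent.Y773 Pool.Agent.Q246

theorem main {𝔣 : Ideal (𝓞 K)} {e : InfinitePlace K → ℕ} {ψ : Ideal (𝓞 K) →*₀ ℂ}
    (ne_bot : 𝔣 ≠ ⊥) (e_le : ∀ w, e w ≤ 1) (e_complex : ∀ w : InfinitePlace K, w.IsComplex → e w = 0)
    (supp : ∀ 𝔞 : Ideal (𝓞 K), 𝔞 ≠ ⊥ → (ψ 𝔞 ≠ 0 ↔ IsCoprime 𝔞 𝔣))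
    (sig : ∀ x : 𝓞 K, x ≠ 0 → x - 1 ∈ 𝔣 → ψ (Ideal.span {x}) =
      ∏ w : InfinitePlace K, (((SignType.sign (w.embedding (x : K)).re : SignType) : ℤ) : ℂ) ^ e w)
    (prim : ∀ 𝔤 : Ideal (𝓞 K), 𝔤 ∣ 𝔣 → 𝔤 ≠ 𝔣 → ∃ x : 𝓞 K, x - 1 ∈ 𝔤 ∧ Pos (x : K) ∧
      IsCoprime (Ideal.span {x}) 𝔣 ∧ ψ (Ideal.span {x}) ≠ 1)
    (hnt : ¬ ∀ 𝔞 : Ideal (𝓞 K), 𝔞 ≠ ⊥ → ψ 𝔞 = 1) :
    (∀ 𝔞, ‖ψ 𝔞‖ ≤ 1) ∧ ∀ B : ℝ, (∀ s : ℂ, 3 / 2 ≤ s.re → ‖LI ψ s‖ ≤ B) →
      ∃ g : ℂ → ℂ, Differentiable ℂ g ∧ (∀ s : ℂ, 1 < s.re → LI ψ s = g s) ∧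
        ∀ s : ℂ, -1 / 2 ≤ s.re → ‖g s‖ ≤ B * ((Ideal.absNorm 𝔣 : ℝ) *
          (Ideal.absNorm (differentIdeal ℤ (𝓞 K)) : ℝ)) * 3 ^ (Module.finrank ℚ K) *
            (1 + ‖s‖) ^ (Module.finrank ℚ K) := by
  classical
  have hsg : ∀ x : K, G.sg e x =
      ∏ w : InfinitePlace K, (((SignType.sign (w.embedding x).re : SignType) : ℤ) : ℂ) ^ e w := by
    intro x
    unfold G.sg
    refine Finset.prod_congr rfl fun w _ => ?_
    rcases w.isReal_or_isComplex with hw | hw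
    · rw [G.rl_of_isReal hw]
    · rw [e_complex w hw, pow_zero, pow_zero]
  have hsig : ∀ x : 𝓞 K, x ≠ 0 → x - 1 ∈ 𝔣 → ψ (Ideal.span {x}) = G.sg e (x : K) := by
    intro x h0 h1
    rw [sig x h0 h1, hsg]
  have hray : ∀ x : 𝓞 K, x ≠ 0 → x - 1 ∈ 𝔣 → TPos K x → ψ (Ideal.span {x}) = 1 := by
    intro x h0 h1 h2
    rw [hsig x h0 h1, G.sg_TPos e h0 h2]
  have hp : G.IsPrimChar K 𝔣 ψ := ⟨ne_bot, supp, hray, prim⟩
  have hnorm := hp.norm_le_one Pool.Agent.Y772.G.t_sig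
  refine ⟨hnorm, ?_⟩
  intro B hB
  have hD : (1 : ℝ) ≤ ((Ideal.absNorm (differentIdeal ℤ (𝓞 K)) : ℕ) : ℝ) := by
    have : Ideal.absNorm (differentIdeal ℤ (𝓞 K)) ≠ 0 := by
      rw [Ne, Ideal.absNorm_eq_zero_iff]
      exact differentIdeal_ne_bot
    exact_mod_cast Nat.pos_of_ne_zero this
  by_cases htop : 𝔣 = ⊤
  · have hUC : Unr.UC e ψ := by
      refine ⟨e_le, e_complex, fun 𝔞 h0 => ?_, fun x h0 => hsig x h0 (by rw [htop]; trivial)⟩
      refine (supp 𝔞 h0).2 ?_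
      rw [htop]
      exact Ideal.isCoprime_iff_sup_eq.2 (by simp)
    obtain ⟨U, w, hU, hw, hUL, hfe, hbd⟩ := hUC.fe
    have ht : ¬ Unr.Triv ψ := hnt
    have hUL' : ∀ s : ℂ, 1 < s.re → U s =
        GG (Ideal.absNorm (differentIdeal ℤ (𝓞 K)) : ℝ) (G.ex e) s * LI ψ s := by
      intro s hs
      have h1 := hUL s hs
      rwa [if_neg ht, pow_zero, one_mul] at h1
    set R : ℝ := (Ideal.absNorm (differentIdeal ℤ (𝓞 K)) : ℝ) with hR
    have hR0 : 0 < R := by linarith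
    have hR0c : (R : ℂ) ≠ 0 := by exact_mod_cast hR0.ne'
    -- the inverse of the gamma factor
    set Gi : ℂ → ℂ := fun s => (R : ℂ) ^ (-(s / 2)) * ∏ i, (Gammaℝ (s + G.ex e i))⁻¹ with hGi
    have hGid : Differentiable ℂ Gi := by
      apply Differentiable.mul
      · intro s
        exact ((differentiableAt_id.div_const 2).neg).const_cpow (Or.inl hR0c)
      · refine Differentiable.fun_finsetProd fun i _ => ?_
        exact differentiable_Gammaℝ_inv.comp (differentiable_id.add_const _)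
    have hGG : ∀ s : ℂ, (∀ i, Gammaℝ (s + G.ex e i) ≠ 0) → GG R (G.ex e) s * Gi s = 1 := by
      intro s hs
      rw [hGi]
      unfold GG
      have h1 : (R : ℂ) ^ (s / 2) * (R : ℂ) ^ (-(s / 2)) = 1 := by
        rw [← Complex.cpow_add _ _ hR0c, add_neg_cancel, Complex.cpow_zero]
      have h2 : (∏ i, Gammaℝ (s + G.ex e i)) * ∏ i, (Gammaℝ (s + G.ex e i))⁻¹ = 1 := by
        rw [← Finset.prod_mul_distrib]
        exact Finset.prod_eq_one fun i _ => mul_inv_cancel₀ (hs i)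
      calc _ = ((R : ℂ) ^ (s / 2) * (R : ℂ) ^ (-(s / 2))) *
          ((∏ i, Gammaℝ (s + G.ex e i)) * ∏ i, (Gammaℝ (s + G.ex e i))⁻¹) := by ring
        _ = 1 := by rw [h1, h2, one_mul]
    have him : ∀ s : ℂ, s.im ≠ 0 → ∀ i, Gammaℝ (s + G.ex e i) ≠ 0 := by
      intro s hs i
      refine H370.DL.Gammaℝ_ne_zero_of_im ?_
      simpa using hs
    have hre : ∀ s : ℂ, 0 < s.re → ∀ i, Gammaℝ (s + G.ex e i) ≠ 0 := by
      intro s hs i
      refine Gammaℝ_ne_zero_of_re_pos ?_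
      rw [add_re, natCast_re]
      have : (0 : ℝ) ≤ G.ex e i := Nat.cast_nonneg _
      linarith
    have hUF : ∀ s : ℂ, (∀ i, Gammaℝ (s + G.ex e i) ≠ 0) → GG R (G.ex e) s * (U s * Gi s) = U s := by
      intro s hs
      have := hGG s hs
      linear_combination (U s) * this
    have hFL : ∀ s : ℂ, 1 < s.re → LI ψ s = U s * Gi s := by
      intro s hs
      have h2 := hGG s (hre s (by linarith))
      rw [hUL' s hs]
      linear_combination (-(LI ψ s)) * h2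
    have hFE : FEd R (G.ex e) (fun s => U s * Gi s) := by
      refine ⟨G.ex_le e_le, hU.mul hGid, ⟨w, hw, fun s hs => ?_⟩, fun a b => ?_⟩
      · have h1 : (1 - (starRingEnd ℂ) s).im ≠ 0 := by simpa using hs
        change GG R (G.ex e) s * (U s * Gi s) = w * (starRingEnd ℂ) (GG R (G.ex e) _ * (U _ * Gi _))
        rw [hUF s (him s hs), hUF _ (him _ h1)]
        exact hfe s
      · obtain ⟨C, hC⟩ := U_bounded hR0 hU hw hUL' hfe hbd hB a b
        refine ⟨C, fun s h1 h2 h3 => ?_⟩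
        have h4 : s.im ≠ 0 := by
          intro h
          rw [h, abs_zero] at h3
          linarith
        change ‖GG R (G.ex e) s * (U s * Gi s)‖ ≤ C
        rw [hUF s (him s h4)]
        exact hC s h1 h2
    refine ⟨fun s => U s * Gi s, hU.mul hGid, hFL, ?_⟩
    have hb := bound_of_FEd hD hFE (B := B) fun s hs => by
      have := hB s hs
      rwa [hFL s (by linarith)] at this
    intro s hs
    have h1 := hb s hs
    rw [card_emb] at h1
    have h2 : ((Ideal.absNorm 𝔣 : ℕ) : ℝ) = 1 := by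
      rw [htop, Ideal.absNorm_top, Nat.cast_one]
    rw [h2, one_mul]
    exact h1
  · have hM : G.IsModChar 𝔣 e ψ := by
      refine ⟨ne_bot, htop, e_le, e_complex, fun 𝔞 => ?_, hsig⟩
      by_cases h0 : 𝔞 = ⊥
      · subst h0
        have h1 : ψ (⊥ : Ideal (𝓞 K)) = 0 := map_zero ψ
        constructor
        · intro h2
          exact absurd h1 h2
        · intro h2
          exfalso
          rw [Ideal.isCoprime_iff_sup_eq, bot_sup_eq] at h2
          exact htop h2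
      · exact supp 𝔞 h0
    obtain ⟨g, hg, hg2⟩ := G.fe_prim hp hM
    have hb := bound_of_FEd ?_ hg (B := B) fun s hs => ?_
    · refine ⟨g, hg.diff, fun s hs => (hg2 s hs).symm, fun s hs => ?_⟩
      have h1 := hb s hs
      rw [card_emb, Nat.cast_mul] at h1
      exact h1
    · have h1 : Ideal.absNorm 𝔣 ≠ 0 := by
        rw [Ne, Ideal.absNorm_eq_zero_iff]
        exact ne_bot
      have h2 : Ideal.absNorm (differentIdeal ℤ (𝓞 K)) ≠ 0 := by
        rw [Ne, Ideal.absNorm_eq_zero_iff]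
        exact differentIdeal_ne_bot
      exact_mod_cast Nat.pos_of_ne_zero (mul_ne_zero h1 h2)
    · rw [hg2 s (by linarith)]
      exact hB s hs


end LBPL

theorem t_LBP : S_LBP := by
  intro K _ _ 𝔣 e ψ h1 h2 h3 h4 h5 h6 h7
  exact LBPL.main h1 h2 h3 h4 h5 h6 h7

end Pool.Agent.H514.GE
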