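import Pool.Agent.H514.GE.Stm
import Pool.Agent.H514.RF.Pri
import Pool.Graph.R_pool_sql_team_seeded_efc1946e.K1H76.RF2.T2
import Pool.Graph.R_pool_sql_team_seeded_efc1946e.K1H79.RF.FieldK

/-! # A number field without `ω` has a prime of norm `2` modulo `3` (helper784, project GE of helper514) -/

set_option autoImplicit false

namespace Pool.Agent.H514.GE

open NumberField IsDedekindDomain Ideal CohNT Pool.Agent.K1H79.GE Pool.Agent.K1H79.RF
open scoped Classical nonZeroDivisors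

theorem NT.card_eq {F : Type} [Field F] [NumberField F] (v : Pr F) :
    Nat.card (𝓞 F ⧸ v.asIdeal) = absNorm v.asIdeal := by
  rw [Ideal.absNorm_apply]
  rfl

theorem NT.fin {F : Type} [Field F] [NumberField F] (v : Pr F) : Finite (𝓞 F ⧸ v.asIdeal) := by
  apply Nat.finite_of_card_ne_zero
  rw [NT.card_eq]
  have := nv_pos v
  omega

theorem NT.three_mem {F : Type} [Field F] [NumberField F] (v : Pr F)
    (h : 3 ∣ absNorm v.asIdeal) : (3 : 𝓞 F) ∈ v.asIdeal := by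
  have hp : v.asIdeal.IsPrime := v.isPrime
  have hf := NT.fin v
  have h3 : Fact (Nat.Prime 3) := ⟨Nat.prime_three⟩
  rw [← NT.card_eq] at h
  obtain ⟨x, hx⟩ := exists_prime_addOrderOf_dvd_card' (G := 𝓞 F ⧸ v.asIdeal) 3 h
  have hx0 : x ≠ 0 := by
    rintro rfl
    rw [addOrderOf_zero] at hx
    omega
  have h1 : 3 • x = 0 := by
    rw [← hx]
    exact addOrderOf_nsmul_eq_zero x
  rw [nsmul_eq_mul] at h1
  have h2 : ((3 : ℕ) : 𝓞 F ⧸ v.asIdeal) = 0 := (mul_eq_zero.1 h1).resolve_right hx0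
  rw [← Ideal.Quotient.eq_zero_iff_mem]
  rw [← h2]
  rw [map_ofNat]
  rfl

theorem NT.root {F : Type} [Field F] [NumberField F] (v : Pr F)
    (h : absNorm v.asIdeal % 3 = 1) : ∃ U : 𝓞 F, U ^ 2 + U + 1 ∈ v.asIdeal := by
  have hm : v.asIdeal.IsMaximal := v.isMaximal
  have hf := NT.fin v
  have h3 : Fact (Nat.Prime 3) := ⟨Nat.prime_three⟩
  let _ : Field (𝓞 F ⧸ v.asIdeal) := Ideal.Quotient.field v.asIdeal
  have hc : 3 ∣ Nat.card (𝓞 F ⧸ v.asIdeal)ˣ := by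
    rw [Nat.card_units, NT.card_eq]
    omega
  obtain ⟨x, hx⟩ := exists_prime_orderOf_dvd_card' (G := (𝓞 F ⧸ v.asIdeal)ˣ) 3 hc
  have hx1 : x ≠ 1 := by
    rintro rfl
    rw [orderOf_one] at hx
    omega
  have h1 : x ^ 3 = 1 := by
    rw [← hx]
    exact pow_orderOf_eq_one x
  have h2 : (x : 𝓞 F ⧸ v.asIdeal) ^ 3 = 1 := by
    rw [← Units.val_pow_eq_pow_val, h1, Units.val_one]
  have h4 : (x : 𝓞 F ⧸ v.asIdeal) - 1 ≠ 0 := by
    intro h5
    apply hx1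
    apply Units.ext
    rw [Units.val_one]
    exact sub_eq_zero.1 h5
  have h5 : ((x : 𝓞 F ⧸ v.asIdeal) - 1) *
      ((x : 𝓞 F ⧸ v.asIdeal) ^ 2 + (x : 𝓞 F ⧸ v.asIdeal) + 1) = 0 := by
    linear_combination h2
  have h6 := (mul_eq_zero.1 h5).resolve_left h4
  obtain ⟨U, hU⟩ := Ideal.Quotient.mk_surjective (x : 𝓞 F ⧸ v.asIdeal)
  refine ⟨U, ?_⟩
  rw [← Ideal.Quotient.eq_zero_iff_mem, map_add, map_add, map_pow, hU, map_one]
  exact h6

/-- the conjugation of `F(ω)` -/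
theorem NT.conj {F K : Type} [Field F] [NumberField F] [Field K] [NumberField K] [Algebra F K]
    (hno : NoOm F) (h2 : Module.finrank F K = 2) {ω : K} (hω : ω ^ 2 + ω + 1 = 0) :
    ∃ σ : K ≃ₐ[F] K, σ ω = ω ^ 2 := by
  have hq : Algebra.IsQuadraticExtension F K := { finrank_eq_two' := h2 }
  have hg : IsGalois F K := inferInstance
  have h1 : ω ∉ Set.range (algebraMap F K) := by
    rintro ⟨z, rfl⟩
    apply hno z
    apply (algebraMap F K).injective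
    rw [map_add, map_add, map_pow, map_one, map_zero]
    exact hω
  rw [IsGalois.mem_range_algebraMap_iff_fixed] at h1
  push Not at h1
  obtain ⟨σ, hσ⟩ := h1
  refine ⟨σ, ?_⟩
  have h3 : (σ ω) ^ 2 + σ ω + 1 = 0 := by
    rw [← map_pow, ← map_add, ← map_one σ, ← map_add, hω, map_zero]
  have h4 : (σ ω - ω) * (σ ω + ω + 1) = 0 := by
    linear_combination h3 - hω
  have h5 := (mul_eq_zero.1 h4).resolve_left (sub_ne_zero.2 hσ)
  linear_combination h5 - hω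

/-- a prime of norm `1` modulo `3`, prime to `3`, splits -/
theorem NT.split {F K : Type} [Field F] [NumberField F] [Field K] [NumberField K] [Algebra F K]
    (hno : NoOm F) (h2 : Module.finrank F K = 2) {ω : K} (hω : ω ^ 2 + ω + 1 = 0) (v : Pr F)
    (hv : NSp K v) (h3 : (3 : 𝓞 F) ∉ v.asIdeal) (h1 : absNorm v.asIdeal % 3 = 1) : False := by
  obtain ⟨σ, hσ⟩ := NT.conj hno h2 hω
  obtain ⟨U, hU⟩ := NT.root v h1
  have hint : IsIntegral ℤ ω := by
    apply IsIntegral.of_pow (n := 3) (by norm_num)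
    have : ω ^ 3 = 1 := by linear_combination (ω - 1) * hω
    rw [this]
    exact isIntegral_one
  obtain ⟨Ω, hΩ⟩ : ∃ Ω : 𝓞 K, (Ω : K) = ω := ⟨⟨ω, hint⟩, rfl⟩
  have hΩ2 : Ω ^ 2 + Ω + 1 = 0 := by
    apply RingOfIntegers.ext
    have : ((Ω ^ 2 + Ω + 1 : 𝓞 K) : K) = (Ω : K) ^ 2 + (Ω : K) + 1 := rfl
    rw [this, hΩ, hω]
    rfl
  obtain ⟨w, hw, hw2⟩ := id hv
  have hw' : Ab v w := hw
  obtain ⟨V, hV⟩ : ∃ V : 𝓞 K, V = algebraMap (𝓞 F) (𝓞 K) U := ⟨_, rfl⟩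
  have hVm : V ^ 2 + V + 1 ∈ w.asIdeal := by
    have := (alg_mem hw' (U ^ 2 + U + 1)).2 hU
    rw [map_add, map_add, map_pow, map_one, ← hV] at this
    exact this
  have hVσ : σ (V : K) = (V : K) := by
    rw [hV, alg_coe, AlgEquiv.commutes]
  have hprod : (V - Ω) * (V - Ω ^ 2) ∈ w.asIdeal := by
    have e : (V - Ω) * (V - Ω ^ 2) = V ^ 2 + V + 1 := by
      linear_combination (-V + Ω - 1) * hΩ2
    rw [e]
    exact hVm
  have c1 : ((V - Ω : 𝓞 K) : K) = (V : K) - ω := by rw [← hΩ]; rfl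
  have c2 : ((V - Ω ^ 2 : 𝓞 K) : K) = (V : K) - ω ^ 2 := by rw [← hΩ]; rfl
  have s1 : ((V - Ω ^ 2 : 𝓞 K) : K) = σ ((V - Ω : 𝓞 K) : K) := by
    rw [c1, c2, map_sub, hVσ, hσ]
  have s2 : ((V - Ω : 𝓞 K) : K) = σ ((V - Ω ^ 2 : 𝓞 K) : K) := by
    rw [c1, c2, map_sub, hVσ, map_pow, hσ]
    linear_combination (ω ^ 2 - ω) * hω
  have hboth : V - Ω ∈ w.asIdeal ∧ V - Ω ^ 2 ∈ w.asIdeal := by
    rcases w.isPrime.mem_or_mem hprod with h | h
    · exact ⟨h, sig_mem' σ hv hw' h s1⟩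
    · exact ⟨sig_mem' σ hv hw' h s2, h⟩
  have hd : Ω ^ 2 - Ω ∈ w.asIdeal := by
    have e : Ω ^ 2 - Ω = (V - Ω) - (V - Ω ^ 2) := by ring
    rw [e]
    exact Ideal.sub_mem _ hboth.1 hboth.2
  have h4 : (3 : 𝓞 K) ∈ w.asIdeal := by
    have e : (3 : 𝓞 K) = (2 * Ω + 1) * (Ω ^ 2 - Ω) := by
      linear_combination (3 - 2 * Ω) * hΩ2
    rw [e]
    exact Ideal.mul_mem_left _ _ hd
  apply h3
  rw [← alg_mem hw', map_ofNat]
  exact h4

theorem t_NT : S_NT := by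
  intro F _ _ hno
  obtain ⟨K, _, _, _, h2, ω, hω⟩ := exists_K F hno
  by_contra hcon
  push Not at hcon
  obtain ⟨C, hC⟩ := Pool.Agent.K1H76.RF2.t_A4 Pool.Agent.H514.RF.t_A1 F K h2
  have key : ∀ v : Pr F, NSp K v → (3 : 𝓞 F) ∈ v.asIdeal := by
    intro v hv
    by_contra h3
    have h4 := hcon v.asIdeal v.isPrime
    have h5 : absNorm v.asIdeal % 3 ≠ 0 := by
      intro h6
      exact h3 (NT.three_mem v (Nat.dvd_of_mod_eq_zero h6))
    exact NT.split hno h2 hω v hv h3 (by omega)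
  obtain ⟨C', hC'⟩ := sm_fin (F := F) (P := fun v : Pr F => (3 : 𝓞 F) ∈ v.asIdeal) fin3
  refine no_bound (C := 2 * C' + C) (fun s hs hs2 => ?_)
  have h6 := hC s hs hs2
  have h7 := sm_mono (F := F) key hs
  have h8 := hC' s hs
  linarith

end Pool.Agent.H514.GE
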