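import Pool.Agent.H514.GE.Stm
import Pool.Graph.R_pool_sql_team_seeded_efc1946e.K1H38.GE.Par

/-! # SEPA: separation in case A (helper358) -/

set_option autoImplicit false

namespace Pool.Agent.H514.GE

open NumberField Pool.Agent.K1H79.GE
open Pool.Agent.K1H38.GE (vv vv_mul vv_pow vv_self vv_of_not even_vv)
open scoped Classical nonZeroDivisors

namespace SEPA

section conj

variable {L K : Type} [Field L] [NumberField L] [Field K] [NumberField K] [Algebra L K]

/-- the relative norm as a product (after `K1H79.RF.exists_conj`) -/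
theorem exists_conj (h2 : Module.finrank L K = 2) : ∃ τ : K ≃ₐ[L] K, ∀ x : K,
    algebraMap L K (Algebra.norm L x) = x * τ x := by
  have hq : Algebra.IsQuadraticExtension L K := ⟨h2⟩
  have hg : IsGalois L K := Algebra.IsQuadraticExtension.isGalois L K
  have hfd : FiniteDimensional L K := Module.finite_of_finrank_pos (by omega)
  have hc : Fintype.card (K ≃ₐ[L] K) = 2 := by
    rw [← Nat.card_eq_fintype_card, IsGalois.card_aut_eq_finrank, h2]
  obtain ⟨τ, hτ⟩ : ∃ τ : K ≃ₐ[L] K, τ ≠ 1 := by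
    have : Nontrivial (K ≃ₐ[L] K) := Fintype.one_lt_card_iff_nontrivial.1 (by omega)
    exact exists_ne 1
  have huniv : (Finset.univ : Finset (K ≃ₐ[L] K)) = {1, τ} := by
    symm
    apply Finset.eq_univ_of_card
    rw [Finset.card_pair hτ.symm, hc]
  refine ⟨τ, fun x => ?_⟩
  rw [Algebra.norm_eq_prod_automorphisms, huniv, Finset.prod_pair hτ.symm, AlgEquiv.one_apply]

/-- the norm form -/
theorem norm_om (h2 : Module.finrank L K = 2) {ω : K} (hω : ω ^ 2 + ω + 1 = 0) (hL : NoOm L)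
    (b c : L) : Algebra.norm L (algebraMap L K b + algebraMap L K c * ω) =
      b ^ 2 - b * c + c ^ 2 := by
  obtain ⟨τ, hτ⟩ := exists_conj h2
  have h3 : (τ ω) ^ 2 + τ ω + 1 = 0 := by
    rw [← map_pow, ← map_add, ← map_one τ, ← map_add, hω, map_zero]
  have h4 : (τ ω - ω) * (τ ω - ω ^ 2) = 0 := by
    linear_combination h3 - τ ω * hω + (ω - 1) * hω
  have h5 : τ ω = ω ^ 2 := by
    rcases mul_eq_zero.1 h4 with h6 | h6
    · exfalso
      have h7 := hτ ω
      rw [sub_eq_zero.1 h6] at h7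
      apply hL (Algebra.norm L ω)
      apply (algebraMap L K).injective
      rw [map_add, map_add, map_pow, map_one, map_zero, h7]
      linear_combination (ω ^ 2 - ω + 1) * hω
    · exact sub_eq_zero.1 h6
  apply (algebraMap L K).injective
  rw [hτ, map_add, map_mul, AlgEquiv.commutes, AlgEquiv.commutes, h5]
  simp only [map_add, map_sub, map_mul, map_pow]
  linear_combination (algebraMap L K b * algebraMap L K c + (ω - 1) * algebraMap L K c ^ 2) * hω

/-- the integral norm -/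
noncomputable def nm (K : Type) [Field K] [NumberField K] [Algebra L K] (x : 𝓞 K) : 𝓞 L :=
  Algebra.intNorm (𝓞 L) (𝓞 K) x

theorem nm_coe (x : 𝓞 K) : ((nm (L := L) K x : 𝓞 L) : L) = Algebra.norm L (x : K) :=
  Algebra.algebraMap_intNorm (A := 𝓞 L) (K := L) (B := 𝓞 K) (L := K) x

theorem rel_span (x : 𝓞 K) : Ideal.relNorm (𝓞 L) (Ideal.span {x}) = Ideal.span {nm K x} :=
  Ideal.relNorm_singleton (𝓞 L) x

theorem nm_ne {x : 𝓞 K} (hx : x ≠ 0) : nm (L := L) K x ≠ 0 := by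
  intro h
  have h1 := nm_coe (L := L) x
  rw [h] at h1
  have h2 : (x : K) = 0 := Algebra.norm_eq_zero_iff.1 h1.symm
  exact hx (RingOfIntegers.ext h2)

end conj

section prods

variable {F : Type} [Field F] [NumberField F]

omit [NumberField F] in
theorem not_le {P : ℕ → Ideal (𝓞 F)} {p q : ℕ} (hp : p.Prime) (hq : q.Prime) (hpq : q ≠ p)
    (hP : (P p).IsPrime) (hpP : ((p : ℕ) : 𝓞 F) ∈ P p) (hqP : ((q : ℕ) : 𝓞 F) ∈ P q) :
    ¬ P q ≤ P p := by
  intro h
  have h1 : ((q : ℕ) : 𝓞 F) ∈ P p := h hqP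
  have h2 : IsCoprime (q : ℤ) (p : ℤ) :=
    Nat.isCoprime_iff_coprime.2 ((Nat.coprime_primes hq hp).2 hpq)
  obtain ⟨u, v, huv⟩ := h2
  apply hP.ne_top
  rw [Ideal.eq_top_iff_one]
  have h3 : (1 : 𝓞 F) = (u : 𝓞 F) * ((q : ℕ) : 𝓞 F) + (v : 𝓞 F) * ((p : ℕ) : 𝓞 F) := by
    have h4 := congrArg (fun z : ℤ => (z : 𝓞 F)) huv
    push_cast at h4
    exact h4.symm
  rw [h3]
  exact (P p).add_mem ((P p).mul_mem_left _ h1) ((P p).mul_mem_left _ hpP)

theorem vv_prod (P : ℕ → Ideal (𝓞 F)) (s : Finset ℕ)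
    (hs : ∀ q ∈ s, q.Prime ∧ (P q).IsPrime ∧ ((q : ℕ) : 𝓞 F) ∈ P q ∧ P q ≠ ⊥) (p : ℕ)
    (hp : p.Prime) (hP : (P p).IsPrime) (hpP : ((p : ℕ) : 𝓞 F) ∈ P p) (h0 : P p ≠ ⊥) :
    vv (P p) (∏ q ∈ s, P q) = if p ∈ s then 1 else 0 := by
  induction s using Finset.induction_on with
  | empty =>
    rw [Finset.prod_empty, if_neg (Finset.notMem_empty p)]
    apply vv_of_not
    intro h
    exact hP.ne_top (top_le_iff.1 (by rwa [Ideal.one_eq_top] at h))
  | insert a s ha ih =>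
    have ih' := ih fun q hq => hs q (Finset.mem_insert_of_mem hq)
    have hsa := hs a (Finset.mem_insert_self a s)
    have hne : (∏ q ∈ s, P q) ≠ 0 :=
      Finset.prod_ne_zero_iff.2 fun q hq => (hs q (Finset.mem_insert_of_mem hq)).2.2.2
    rw [Finset.prod_insert ha, vv_mul _ hsa.2.2.2 hne, ih']
    by_cases hap : a = p
    · subst hap
      rw [vv_self hP h0, if_neg ha, if_pos (Finset.mem_insert_self a s)]
    · rw [vv_of_not (not_le hp hsa.1 hap hP hpP hsa.2.2.1), zero_add]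
      by_cases hps : p ∈ s
      · rw [if_pos hps, if_pos (Finset.mem_insert_of_mem hps)]
      · rw [if_neg hps, if_neg]
        rw [Finset.mem_insert, not_or]
        exact ⟨fun h => hap h.symm, hps⟩

theorem ex_prod {L : Type} [Field L] [NumberField L] [Algebra F L] (P : ℕ → Ideal (𝓞 F))
    (s : Finset ℕ) : ex F L (∏ q ∈ s, P q) = ∏ q ∈ s, ex F L (P q) := by
  induction s using Finset.induction_on with
  | empty =>
    rw [Finset.prod_empty, Finset.prod_empty]
    show Ideal.map (algebraMap (𝓞 F) (𝓞 L)) 1 = 1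
    rw [Ideal.one_eq_top, Ideal.map_top, Ideal.one_eq_top]
  | insert a s ha ih =>
    rw [Finset.prod_insert ha, Finset.prod_insert ha, ← ih]
    show Ideal.map (algebraMap (𝓞 F) (𝓞 L)) (P a * ∏ q ∈ s, P q) = _
    rw [Ideal.map_mul]

theorem vv_ex {L : Type} [Field L] [NumberField L] [Algebra F L] {A B : Ideal (𝓞 F)}
    (h : ex F L A = ex F L B) (P : Ideal (𝓞 F)) : vv P A = vv P B := by
  have h1 : A ^ Module.finrank (𝓞 F) (𝓞 L) = B ^ Module.finrank (𝓞 F) (𝓞 L) := by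
    rw [← Ideal.relNorm_algebraMap (𝓞 L) A, ← Ideal.relNorm_algebraMap (𝓞 L) B]
    exact congrArg (Ideal.relNorm (𝓞 F)) h
  have h2 : 0 < Module.finrank (𝓞 F) (𝓞 L) := by
    rw [← IsFractionRing.finrank_eq (𝓞 F) F (𝓞 L) L]
    exact Module.finrank_pos
  have h3 := congrArg (vv P) h1
  rw [vv_pow, vv_pow] at h3
  exact Nat.eq_of_mul_eq_mul_left h2 h3

end prods

end SEPA

open SEPA in
theorem t_SEPA : S_SEPA := by
  intro F L K _ _ _ _ _ _ _ _ h2 ω hω hL P I m m' hm hm' hP b c x y hx hy hxy hI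
  obtain ⟨b1, d1, hd1, rfl⟩ := IsFractionRing.div_surjective (A := 𝓞 F) b
  obtain ⟨c1, d2, hd2, rfl⟩ := IsFractionRing.div_surjective (A := 𝓞 F) c
  have hd10 : d1 ≠ 0 := nonZeroDivisors.ne_zero hd1
  have hd20 : d2 ≠ 0 := nonZeroDivisors.ne_zero hd2
  obtain ⟨b', hb'⟩ : ∃ b' : 𝓞 F, b' = b1 * d2 := ⟨_, rfl⟩
  obtain ⟨c', hc'⟩ : ∃ c' : 𝓞 F, c' = c1 * d1 := ⟨_, rfl⟩
  obtain ⟨d, hd⟩ : ∃ d : 𝓞 F, d = d1 * d2 := ⟨_, rfl⟩
  have hd0 : d ≠ 0 := by
    rw [hd]
    exact mul_ne_zero hd10 hd20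
  obtain ⟨ν, hν⟩ : ∃ ν : 𝓞 F, ν = b' ^ 2 - b' * c' + c' ^ 2 := ⟨_, rfl⟩
  set N1 : 𝓞 L := nm K x with hN1
  set N2 : 𝓞 L := nm K y with hN2
  have hN10 : N1 ≠ 0 := nm_ne hx
  have hN20 : N2 ≠ 0 := nm_ne hy
  set e : 𝓞 F →+* 𝓞 L := algebraMap (𝓞 F) (𝓞 L) with he
  have hecoe : ∀ z : 𝓞 F, ((e z : 𝓞 L) : L) = algebraMap F L (z : F) := fun z => rfl
  have hcm : ∀ u v : 𝓞 L, ((u * v : 𝓞 L) : L) = (u : L) * (v : L) := fun u v => rfl
  have hcp : ∀ u : 𝓞 L, ((u ^ 2 : 𝓞 L) : L) = (u : L) ^ 2 := fun u => rfl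
  -- the equation of the norms
  have heq : e d ^ 2 * N2 = e ν * N1 := by
    apply RingOfIntegers.ext
    have h3 : algebraMap L K (algebraMap F L (d : F)) * (y : K) =
        (algebraMap L K (algebraMap F L (b' : F)) + algebraMap L K (algebraMap F L (c' : F)) * ω) *
          (x : K) := by
      have f1 : algebraMap L K (algebraMap F L (d1 : F)) ≠ 0 := by
        rw [Ne, map_eq_zero, map_eq_zero]
        exact fun h => hd10 (RingOfIntegers.ext h)
      have f2 : algebraMap L K (algebraMap F L (d2 : F)) ≠ 0 := by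
        rw [Ne, map_eq_zero, map_eq_zero]
        exact fun h => hd20 (RingOfIntegers.ext h)
      have g1 : ((algebraMap (𝓞 F) F) d1) = (d1 : F) := rfl
      rw [hxy, hb', hc', hd]
      simp only [map_div₀, map_mul]
      field_simp
    have h4 := congrArg (Algebra.norm L) h3
    rw [map_mul, map_mul, Algebra.norm_algebraMap, h2, norm_om h2 hω hL, ← nm_coe, ← nm_coe,
      ← hN1, ← hN2] at h4
    have h5 : ((e d ^ 2 * N2 : 𝓞 L) : L) = algebraMap F L (d : F) ^ 2 * (N2 : L) := by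
      rw [hcm, hcp, hecoe]
    have h6 : ((e ν * N1 : 𝓞 L) : L) = (algebraMap F L (b' : F) ^ 2 -
        algebraMap F L (b' : F) * algebraMap F L (c' : F) + algebraMap F L (c' : F) ^ 2) *
          (N1 : L) := by
      have h7 : (ν : F) = (b' : F) ^ 2 - (b' : F) * (c' : F) + (c' : F) ^ 2 := by
        rw [hν]
        rfl
      rw [hcm, hecoe, h7]
      simp only [map_add, map_sub, map_mul, map_pow]
    rw [h5, h6, h4]
  have heinj : Function.Injective e := by
    intro u v huv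
    apply RingOfIntegers.ext
    apply (algebraMap F L).injective
    rw [← hecoe, ← hecoe, huv]
  have hν0 : ν ≠ 0 := by
    intro h
    rw [h, map_zero, zero_mul] at heq
    rcases mul_eq_zero.1 heq with h3 | h3
    · have h4 : e d = 0 := by
        rcases pow_eq_zero_iff (two_ne_zero) |>.1 h3 with h4
        exact h4
      rw [← map_zero e] at h4
      exact hd0 (heinj h4)
    · exact hN20 h3
  -- the equation of the ideals
  set A : Ideal (𝓞 F) := ∏ p ∈ m.primeFactors, P p with hA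
  set B : Ideal (𝓞 F) := ∏ p ∈ m'.primeFactors, P p with hB
  have hmm : ∀ p ∈ m.primeFactors, p.Prime ∧ p ∣ m * m' := fun p hp =>
    ⟨Nat.prime_of_mem_primeFactors hp, (Nat.dvd_of_mem_primeFactors hp).mul_right _⟩
  have hmm' : ∀ p ∈ m'.primeFactors, p.Prime ∧ p ∣ m * m' := fun p hp =>
    ⟨Nat.prime_of_mem_primeFactors hp, (Nat.dvd_of_mem_primeFactors hp).mul_left _⟩
  have hrel : Ideal.span {N1} * ex F L A ^ 3 = Ideal.span {N2} * ex F L B ^ 3 := by
    have h3 := congrArg (Ideal.relNorm (𝓞 L)) hI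
    rw [map_mul, map_mul, map_pow, map_pow, map_prod, map_prod, rel_span, rel_span,
      Finset.prod_congr rfl fun p hp => (hP p (hmm p hp).1 (hmm p hp).2).2.2.2,
      Finset.prod_congr rfl fun p hp => (hP p (hmm' p hp).1 (hmm' p hp).2).2.2.2,
      ← ex_prod, ← ex_prod] at h3
    exact h3
  have hex : ex F L (Ideal.span {d} ^ 2 * A ^ 3) = ex F L (Ideal.span {ν} * B ^ 3) := by
    have h3 : ex F L (Ideal.span {d} ^ 2 * A ^ 3) = Ideal.span {e d} ^ 2 * ex F L A ^ 3 := by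
      unfold ex
      rw [Ideal.map_mul, Ideal.map_pow, Ideal.map_pow, Ideal.map_span, Set.image_singleton]
    have h4 : ex F L (Ideal.span {ν} * B ^ 3) = Ideal.span {e ν} * ex F L B ^ 3 := by
      unfold ex
      rw [Ideal.map_mul, Ideal.map_pow, Ideal.map_span, Set.image_singleton]
    have h5 : Ideal.span {N1} ≠ 0 := by
      rw [Ne, Ideal.zero_eq_bot, Ideal.span_singleton_eq_bot]
      exact hN10
    apply mul_right_cancel₀ h5
    have h6 : Ideal.span {e d} ^ 2 * Ideal.span {N2} = Ideal.span {e ν} * Ideal.span {N1} := by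
      rw [Ideal.span_singleton_pow, Ideal.span_singleton_mul_span_singleton,
        Ideal.span_singleton_mul_span_singleton, heq]
    rw [h3, h4]
    calc Ideal.span {e d} ^ 2 * ex F L A ^ 3 * Ideal.span {N1}
        = Ideal.span {e d} ^ 2 * (Ideal.span {N1} * ex F L A ^ 3) := by ring
      _ = (Ideal.span {e d} ^ 2 * Ideal.span {N2}) * ex F L B ^ 3 := by rw [hrel]; ring
      _ = Ideal.span {e ν} * ex F L B ^ 3 * Ideal.span {N1} := by rw [h6]; ring
  -- multiplicities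
  have hPne : ∀ p : ℕ, p.Prime → p ∣ m * m' → P p ≠ ⊥ := by
    intro p hp hpm h
    have h3 := (hP p hp hpm).2.2.1
    rw [h, Ideal.absNorm_bot] at h3
    omega
  have hA0 : A ≠ 0 := Finset.prod_ne_zero_iff.2 fun p hp => hPne p (hmm p hp).1 (hmm p hp).2
  have hB0 : B ≠ 0 := Finset.prod_ne_zero_iff.2 fun p hp => hPne p (hmm' p hp).1 (hmm' p hp).2
  have hsd : Ideal.span {d} ≠ 0 := by
    rw [Ne, Ideal.zero_eq_bot, Ideal.span_singleton_eq_bot]
    exact hd0
  have hsν : Ideal.span {ν} ≠ 0 := by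
    rw [Ne, Ideal.zero_eq_bot, Ideal.span_singleton_eq_bot]
    exact hν0
  rw [Nat.Squarefree.ext_iff hm hm']
  intro p hp
  by_cases hpm : p ∣ m * m'
  · obtain ⟨q1, q2, q3, -⟩ := hP p hp hpm
    have q4 := hPne p hp hpm
    have h3 := vv_ex hex (P p)
    rw [vv_mul _ (pow_ne_zero _ hsd) (pow_ne_zero _ hA0), vv_mul _ hsν (pow_ne_zero _ hB0),
      vv_pow, vv_pow, vv_pow, hA, hB,
      vv_prod P _ (fun q hq => ⟨(hmm q hq).1, (hP q (hmm q hq).1 (hmm q hq).2).1,
        (hP q (hmm q hq).1 (hmm q hq).2).2.1, hPne q (hmm q hq).1 (hmm q hq).2⟩) p hp q1 q2 q4,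
      vv_prod P _ (fun q hq => ⟨(hmm' q hq).1, (hP q (hmm' q hq).1 (hmm' q hq).2).1,
        (hP q (hmm' q hq).1 (hmm' q hq).2).2.1, hPne q (hmm' q hq).1 (hmm' q hq).2⟩) p hp q1 q2
        q4] at h3
    obtain ⟨t, ht⟩ : Even (vv (P p) (Ideal.span {ν})) := by
      rw [hν] at hν0 ⊢
      exact even_vv q1 q3 hν0
    rw [ht] at h3
    have g1 : p ∈ m.primeFactors ↔ p ∣ m := by
      rw [Nat.mem_primeFactors]
      exact ⟨fun h => h.2.1, fun h => ⟨hp, h, hm.ne_zero⟩⟩
    have g2 : p ∈ m'.primeFactors ↔ p ∣ m' := by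
      rw [Nat.mem_primeFactors]
      exact ⟨fun h => h.2.1, fun h => ⟨hp, h, hm'.ne_zero⟩⟩
    rw [← g1, ← g2]
    by_cases k1 : p ∈ m.primeFactors <;> by_cases k2 : p ∈ m'.primeFactors
    · exact ⟨fun _ => k2, fun _ => k1⟩
    · rw [if_pos k1, if_neg k2] at h3
      omega
    · rw [if_neg k1, if_pos k2] at h3
      omega
    · exact ⟨fun h => absurd h k1, fun h => absurd h k2⟩
  · exact ⟨fun h => absurd (h.mul_right _) hpm, fun h => absurd (h.mul_left _) hpm⟩

end Pool.Agent.H514.GE
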