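import Pool.Agent.H514.GE.Stm

/-! # Separation in case B (helper353): valuations of extended ideals -/

set_option autoImplicit false
set_option linter.unusedSectionVars false

namespace Pool.Agent.H514.GE

open NumberField UniqueFactorizationMonoid
open scoped Classical nonZeroDivisors

namespace SEPBH

section val

variable {F : Type} [Field F] [NumberField F]

/-- the multiplicity of `P` in `I` -/
noncomputable def vv (P I : Ideal (𝓞 F)) : ℕ := (normalizedFactors I).count P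

theorem vv_mul (P : Ideal (𝓞 F)) {I J : Ideal (𝓞 F)} (hI : I ≠ 0) (hJ : J ≠ 0) :
    vv P (I * J) = vv P I + vv P J := by
  unfold vv
  rw [normalizedFactors_mul hI hJ, Multiset.count_add]

theorem vv_pow (P I : Ideal (𝓞 F)) (k : ℕ) : vv P (I ^ k) = k * vv P I := by
  unfold vv
  rw [normalizedFactors_pow, Multiset.count_nsmul]

theorem vv_self {P : Ideal (𝓞 F)} (hP : P.IsPrime) (h0 : P ≠ ⊥) : vv P P = 1 := by
  unfold vv
  have h := (Ideal.prime_of_isPrime h0 hP).irreducible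
  rw [normalizedFactors_irreducible h, normalize_eq, Multiset.count_singleton_self]

theorem vv_of_not {P I : Ideal (𝓞 F)} (h : ¬ I ≤ P) : vv P I = 0 := by
  unfold vv
  rw [Multiset.count_eq_zero]
  intro hm
  exact h (Ideal.dvd_iff_le.1 (dvd_of_mem_normalizedFactors hm))

theorem vv_pos {P I : Ideal (𝓞 F)} (hP : P.IsPrime) (h0 : P ≠ ⊥) (hI : I ≠ 0) (h : P ∣ I) :
    1 ≤ vv P I := by
  unfold vv
  rw [Multiset.one_le_count_iff_mem, mem_normalizedFactors_iff' hI]
  exact ⟨(Ideal.prime_of_isPrime h0 hP).irreducible, normalize_eq P, h⟩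

theorem vv_prod (P : Ideal (𝓞 F)) (s : Finset ℕ) (Q : ℕ → Ideal (𝓞 F)) (h : ∀ q ∈ s, Q q ≠ 0) :
    (∏ q ∈ s, Q q) ≠ 0 ∧ vv P (∏ q ∈ s, Q q) = ∑ q ∈ s, vv P (Q q) := by
  induction s using Finset.induction_on with
  | empty =>
    refine ⟨by simp, ?_⟩
    rw [Finset.prod_empty, Finset.sum_empty]
    unfold vv
    rw [normalizedFactors_one]
    simp
  | insert a s ha ih =>
    obtain ⟨h1, h2⟩ := ih fun q hq => h q (Finset.mem_insert_of_mem hq)
    have h3 := h a (Finset.mem_insert_self a s)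
    rw [Finset.prod_insert ha, Finset.sum_insert ha]
    exact ⟨mul_ne_zero h3 h1, by rw [vv_mul P h3 h1, h2]⟩

end val

variable {F L : Type} [Field F] [NumberField F] [Field L] [NumberField L] [Algebra F L]

theorem ex_ne {I : Ideal (𝓞 F)} (hI : I ≠ 0) : ex F L I ≠ 0 := by
  rw [Ideal.zero_eq_bot] at hI ⊢
  intro h
  exact hI ((Ideal.map_eq_bot_iff_of_injective
    (FaithfulSMul.algebraMap_injective (𝓞 F) (𝓞 L))).1 h)

/-- the multiplicities of an extended ideal at the primes above `P` -/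
theorem ex_val {P I : Ideal (𝓞 F)} (hP : P.IsPrime) (hP0 : P ≠ ⊥) (hI : I ≠ 0) :
    ∃ k : ℕ, ∀ Q : Ideal (𝓞 L), Q.IsPrime → Q ∣ ex F L P →
      vv Q (ex F L I) = k * vv Q (ex F L P) := by
  have hPp := Ideal.prime_of_isPrime hP0 hP
  have hfin : FiniteMultiplicity P I := FiniteMultiplicity.of_prime_left hPp hI
  obtain ⟨I', hI', hnd⟩ := hfin.exists_eq_pow_mul_and_not_dvd
  refine ⟨multiplicity P I, fun Q hQ hQP => ?_⟩
  have hI'0 : I' ≠ 0 := by
    rintro rfl
    exact hnd (dvd_zero P)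
  have e1 : ex F L I = ex F L P ^ multiplicity P I * ex F L I' := by
    conv_lhs => rw [hI']
    unfold ex
    rw [Ideal.map_mul, Ideal.map_pow]
  have hmax : P.IsMaximal := hP.isMaximal hP0
  have hcom : P = Q.comap (algebraMap (𝓞 F) (𝓞 L)) := by
    refine hmax.eq_of_le (Ideal.comap_ne_top _ hQ.ne_top) ?_
    exact Ideal.map_le_iff_le_comap.1 (Ideal.dvd_iff_le.1 hQP)
  have e2 : vv Q (ex F L I') = 0 := by
    refine vv_of_not fun h => hnd ?_
    rw [Ideal.dvd_iff_le, hcom]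
    exact Ideal.map_le_iff_le_comap.1 h
  rw [e1, vv_mul Q (pow_ne_zero _ (ex_ne (by rwa [Ne, Ideal.zero_eq_bot]))) (ex_ne hI'0), vv_pow,
    e2, add_zero]

/-- one direction of the separation -/
theorem sub {P : ℕ → Ideal (𝓞 F)} {Q : ℕ → Ideal (𝓞 L)} {m m' : ℕ}
    (h : ∀ p : ℕ, p.Prime → p ∣ m * m' →
      (P p).IsPrime ∧ ((p : ℕ) : 𝓞 F) ∈ P p ∧ TB F L (P p) (Q p))
    {A B : Ideal (𝓞 F)} (hA : A ≠ 0) (hB : B ≠ 0)
    (he : ex F L B * (∏ p ∈ m.primeFactors, Q p) ^ 3 =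
      ex F L A * (∏ p ∈ m'.primeFactors, Q p) ^ 3) :
    m.primeFactors ⊆ m'.primeFactors := by
  intro p hp
  by_contra hp'
  have hpp := Nat.prime_of_mem_primeFactors hp
  have hpm := Nat.dvd_of_mem_primeFactors hp
  obtain ⟨hP, hpP, hQ, hQ0, hQd, htb⟩ := h p hpp (hpm.mul_right m')
  have hP0 : P p ≠ ⊥ := by
    intro h0
    rw [h0, Ideal.mem_bot] at hpP
    exact hpp.ne_zero (by exact_mod_cast hpP)
  have hP0' : P p ≠ 0 := by rwa [Ne, Ideal.zero_eq_bot]
  have hE0 : ex F L (P p) ≠ 0 := ex_ne hP0'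
  -- the factors of the products
  have hQm : ∀ q ∈ m.primeFactors, Q q ≠ 0 := by
    intro q hq
    have := (h q (Nat.prime_of_mem_primeFactors hq)
      ((Nat.dvd_of_mem_primeFactors hq).mul_right m')).2.2.2.1
    rwa [Ne, Ideal.zero_eq_bot]
  have hQm' : ∀ q ∈ m'.primeFactors, Q q ≠ 0 := by
    intro q hq
    have := (h q (Nat.prime_of_mem_primeFactors hq)
      ((Nat.dvd_of_mem_primeFactors hq).mul_left m)).2.2.2.1
    rwa [Ne, Ideal.zero_eq_bot]
  have hmem : ∀ R : Ideal (𝓞 L), R ∣ ex F L (P p) → ((p : ℕ) : 𝓞 L) ∈ R := by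
    intro R hR
    have h1 := Ideal.dvd_iff_le.1 hR (Ideal.mem_map_of_mem (algebraMap (𝓞 F) (𝓞 L)) hpP)
    rwa [map_natCast] at h1
  have hother : ∀ R : Ideal (𝓞 L), R.IsPrime → R ∣ ex F L (P p) → ∀ q : ℕ, q.Prime →
      q ∣ m * m' → q ≠ p → vv R (Q q) = 0 := by
    intro R hR hRd q hq hqm hqp
    refine vv_of_not fun hle => ?_
    obtain ⟨-, hqP, -, -, hQqd, -⟩ := h q hq hqm
    have h1 : ((q : ℕ) : 𝓞 L) ∈ R := by
      have h2 := hle (Ideal.dvd_iff_le.1 hQqd
        (Ideal.mem_map_of_mem (algebraMap (𝓞 F) (𝓞 L)) hqP))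
      rwa [map_natCast] at h2
    have h2 := hmem R hRd
    have hco : IsCoprime (q : ℤ) (p : ℤ) :=
      Nat.isCoprime_iff_coprime.2 ((Nat.coprime_primes hq hpp).2 hqp)
    obtain ⟨a, b, hab⟩ := hco
    apply hR.ne_top
    rw [Ideal.eq_top_iff_one]
    have h3 : (1 : 𝓞 L) = (a : 𝓞 L) * (q : 𝓞 L) + (b : 𝓞 L) * (p : 𝓞 L) := by
      have := congrArg (fun z : ℤ => (z : 𝓞 L)) hab
      push_cast at this
      exact this.symm
    rw [h3]
    exact R.add_mem (R.mul_mem_left _ h1) (R.mul_mem_left _ h2)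
  have hQ0' : Q p ≠ 0 := by rwa [Ne, Ideal.zero_eq_bot]
  -- the multiplicities of the products
  have hJm : ∀ R : Ideal (𝓞 L), R.IsPrime → R ∣ ex F L (P p) →
      vv R (∏ q ∈ m.primeFactors, Q q) = vv R (Q p) := by
    intro R hR hRd
    rw [(vv_prod R _ Q hQm).2]
    refine Finset.sum_eq_single_of_mem p hp fun q hq hqp => ?_
    exact hother R hR hRd q (Nat.prime_of_mem_primeFactors hq)
      ((Nat.dvd_of_mem_primeFactors hq).mul_right m') hqp
  have hJm' : ∀ R : Ideal (𝓞 L), R.IsPrime → R ∣ ex F L (P p) →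
      vv R (∏ q ∈ m'.primeFactors, Q q) = 0 := by
    intro R hR hRd
    rw [(vv_prod R _ Q hQm').2]
    refine Finset.sum_eq_zero fun q hq => ?_
    exact hother R hR hRd q (Nat.prime_of_mem_primeFactors hq)
      ((Nat.dvd_of_mem_primeFactors hq).mul_left m) fun hqp => hp' (hqp ▸ hq)
  obtain ⟨kA, hkA⟩ := ex_val (L := L) hP hP0 hA
  obtain ⟨kB, hkB⟩ := ex_val (L := L) hP hP0 hB
  have key : ∀ R : Ideal (𝓞 L), R.IsPrime → R ∣ ex F L (P p) →
      kB * vv R (ex F L (P p)) + 3 * vv R (Q p) = kA * vv R (ex F L (P p)) := by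
    intro R hR hRd
    have h1 := congrArg (vv R) he
    rw [vv_mul R (ex_ne hB) (pow_ne_zero _ (vv_prod R _ Q hQm).1),
      vv_mul R (ex_ne hA) (pow_ne_zero _ (vv_prod R _ Q hQm').1), vv_pow, vv_pow,
      hJm R hR hRd, hJm' R hR hRd, hkA R hR hRd, hkB R hR hRd, mul_zero, add_zero] at h1
    exact h1
  have k1 := key (Q p) hQ hQd
  rw [vv_self hQ hQ0, mul_one] at k1
  rcases htb with ⟨R, hR, hRd, hRne⟩ | ⟨e, he2, hee⟩
  · have hR0 : R ≠ ⊥ := by
      rintro rfl
      apply hE0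
      rw [Ideal.zero_eq_bot]
      exact le_bot_iff.1 (Ideal.dvd_iff_le.1 hRd)
    have k2 := key R hR hRd
    have h1 : vv R (Q p) = 0 := by
      refine vv_of_not fun hle => hRne ?_
      exact ((hQ.isMaximal hQ0).eq_of_le hR.ne_top hle).symm
    rw [h1, mul_zero, add_zero] at k2
    have h2 := vv_pos hR hR0 hE0 hRd
    have h3 : kB = kA := Nat.eq_of_mul_eq_mul_right (by omega) k2
    rw [h3] at k1
    omega
  · rw [hee, vv_pow, vv_self hQ hQ0, mul_one] at k1
    obtain ⟨r, hr⟩ := he2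
    rw [hr] at k1
    have h1 : (3 : ℤ) = 2 * ((kA : ℤ) * r - kB * r) := by
      have h2 : ((kB * (r + r) + 3 : ℕ) : ℤ) = ((kA * (r + r) : ℕ) : ℤ) := by exact_mod_cast k1
      push_cast at h2
      linarith
    omega

end SEPBH

open SEPBH in
/-- SEPB -/
theorem t_SEPB : S_SEPB := by
  intro F L _ _ _ _ _ P Q m m' hm hm' h α x y hx hy hxy he
  obtain ⟨a, b, hb, hab⟩ := IsFractionRing.div_surjective (A := 𝓞 F) α
  have hb0 : b ≠ 0 := nonZeroDivisors.ne_zero hb
  have hbF : algebraMap (𝓞 F) F b ≠ 0 := by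
    rw [Ne, FaithfulSMul.algebraMap_eq_zero_iff]
    exact hb0
  have hyL : (y : L) ≠ 0 := by
    intro h0
    exact hy (RingOfIntegers.ext h0)
  have ha0 : a ≠ 0 := by
    rintro rfl
    apply hyL
    rw [hxy, ← hab, map_zero, zero_div, map_zero, zero_mul]
  have e1 : algebraMap (𝓞 F) (𝓞 L) b * y = algebraMap (𝓞 F) (𝓞 L) a * x := by
    apply FaithfulSMul.algebraMap_injective (𝓞 L) L
    rw [map_mul, map_mul]
    have e2 : ∀ c : 𝓞 F, algebraMap (𝓞 L) L (algebraMap (𝓞 F) (𝓞 L) c) =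
        algebraMap F L (algebraMap (𝓞 F) F c) := by
      intro c
      rw [← IsScalarTower.algebraMap_apply, ← IsScalarTower.algebraMap_apply]
    rw [e2, e2]
    have e3 : algebraMap (𝓞 L) L y = algebraMap F L α * algebraMap (𝓞 L) L x := hxy
    rw [e3, ← hab, map_div₀]
    have e4 : algebraMap F L (algebraMap (𝓞 F) F b) ≠ 0 := by
      rw [Ne, map_eq_zero]
      exact hbF
    field_simp
  have hspx : Ideal.span {x} ≠ (0 : Ideal (𝓞 L)) := by
    rw [Ne, Ideal.zero_eq_bot, Ideal.span_singleton_eq_bot]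
    exact hx
  have exsp : ∀ c : 𝓞 F, ex F L (Ideal.span {c}) = Ideal.span {algebraMap (𝓞 F) (𝓞 L) c} := by
    intro c
    unfold ex
    rw [Ideal.map_span, Set.image_singleton]
  have hsp : ∀ c : 𝓞 F, c ≠ 0 → Ideal.span {c} ≠ (0 : Ideal (𝓞 F)) := by
    intro c hc
    rw [Ne, Ideal.zero_eq_bot, Ideal.span_singleton_eq_bot]
    exact hc
  have e5 : ex F L (Ideal.span {b}) * (∏ p ∈ m.primeFactors, Q p) ^ 3 =
      ex F L (Ideal.span {a}) * (∏ p ∈ m'.primeFactors, Q p) ^ 3 := by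
    apply mul_left_cancel₀ hspx
    calc Ideal.span {x} * (ex F L (Ideal.span {b}) * (∏ p ∈ m.primeFactors, Q p) ^ 3)
        = ex F L (Ideal.span {b}) * (Ideal.span {x} * (∏ p ∈ m.primeFactors, Q p) ^ 3) := by
          ring
      _ = ex F L (Ideal.span {b}) * (Ideal.span {y} * (∏ p ∈ m'.primeFactors, Q p) ^ 3) := by
          rw [he]
      _ = (Ideal.span {algebraMap (𝓞 F) (𝓞 L) b} * Ideal.span {y}) *
            (∏ p ∈ m'.primeFactors, Q p) ^ 3 := by
          rw [exsp]; ring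
      _ = (Ideal.span {algebraMap (𝓞 F) (𝓞 L) a} * Ideal.span {x}) *
            (∏ p ∈ m'.primeFactors, Q p) ^ 3 := by
          rw [Ideal.span_singleton_mul_span_singleton, Ideal.span_singleton_mul_span_singleton, e1]
      _ = Ideal.span {x} * (ex F L (Ideal.span {a}) * (∏ p ∈ m'.primeFactors, Q p) ^ 3) := by
          rw [exsp]; ring
  have s1 := sub h (hsp a ha0) (hsp b hb0) e5
  have s2 := sub (m := m') (m' := m) (fun p hp hpd => h p hp (by rwa [mul_comm])) (hsp b hb0)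
    (hsp a ha0) e5.symm
  have hfac : m.primeFactors = m'.primeFactors := Finset.Subset.antisymm s1 s2
  rw [← Nat.prod_primeFactors_of_squarefree hm, ← Nat.prod_primeFactors_of_squarefree hm', hfac]

end Pool.Agent.H514.GE
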