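import Pool.Agent.H514.GE.Stm
import Pool.Graph.R_pool_sql_team_seeded_efc1946e.K1H39.GE.Sub

/-! # All sextic fields -/

set_option autoImplicit false

namespace Pool.Agent.H514.GE

open NumberField Pool.Agent.K1H79.GE
open scoped Classical nonZeroDivisors

namespace SIXN

theorem one_le_disc (L : Type) [Field L] [NumberField L] : (1 : ℝ) ≤ |(discr L : ℝ)| := by
  have h : (1 : ℤ) ≤ |discr L| := Int.one_le_abs (discr_ne_zero L)
  exact_mod_cast h

theorem deg_two {L : Type} [Field L] [NumberField L] {z : L} (hz : z ^ 2 + z + 1 = 0) :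
    Module.finrank ℚ (IntermediateField.adjoin ℚ {z}) = 2 := by
  have hint : IsIntegral ℚ z := Algebra.IsIntegral.isIntegral z
  rw [IntermediateField.adjoin.finrank hint]
  have h1 : (minpoly ℚ z).natDegree ≤ 2 := by
    have hd : minpoly ℚ z ∣ (Polynomial.X ^ 2 + Polynomial.X + 1 : Polynomial ℚ) := by
      apply minpoly.dvd
      simp [hz]
    have hdeg : (Polynomial.X ^ 2 + Polynomial.X + 1 : Polynomial ℚ).natDegree = 2 := by
      compute_degree!
    have hne : (Polynomial.X ^ 2 + Polynomial.X + 1 : Polynomial ℚ) ≠ 0 := by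
      intro h
      rw [h, Polynomial.natDegree_zero] at hdeg
      omega
    exact hdeg ▸ Polynomial.natDegree_le_of_dvd hd hne
  have h2 : 0 < (minpoly ℚ z).natDegree := minpoly.natDegree_pos hint
  have h3 : (minpoly ℚ z).natDegree ≠ 1 := by
    intro h
    rw [minpoly.natDegree_eq_one_iff] at h
    obtain ⟨q, rfl⟩ := h
    have h4 : algebraMap ℚ L (q ^ 2 + q + 1) = 0 := by
      rw [map_add, map_add, map_pow, map_one]
      exact hz
    rw [map_eq_zero] at h4
    nlinarith [sq_nonneg (2 * q + 1)]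
  omega

theorem disc_gen {F : Type} [Field F] [NumberField F] {θ : F} (hθ0 : θ ^ 2 + θ + 1 = 0)
    (h2 : Module.finrank ℚ F = 2) : |(discr F : ℝ)| ≤ 4 := by
  have hθ3 : θ ^ 3 = 1 := by
    have : θ ^ 3 - 1 = (θ - 1) * (θ ^ 2 + θ + 1) := by ring
    rw [hθ0, mul_zero] at this
    exact sub_eq_zero.1 this
  have htop : IntermediateField.adjoin ℚ {θ} = ⊤ := by
    refine IntermediateField.eq_of_le_of_finrank_eq le_top ?_
    rw [deg_two hθ0, IntermediateField.finrank_top', h2]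
  have hint : IsIntegral ℤ θ := by
    refine IsIntegral.of_pow (n := 3) (by norm_num) ?_
    rw [hθ3]
    exact isIntegral_one
  have h3 := Pool.Agent.K1H39.GE.disc_of_gen θ htop (B := 1) (by
    intro w
    have h4 : w θ ^ 3 = 1 := by
      rw [← map_pow, hθ3, map_one]
    have h5 : w θ = 1 := (pow_eq_one_iff_of_nonneg (apply_nonneg w θ) (by norm_num)).1 h4
    exact h5.le) hint
  rw [h2] at h3
  norm_num at h3
  exact h3

theorem disc_le {L : Type} [Field L] [NumberField L] {z : L} (hz : z ^ 2 + z + 1 = 0) :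
    |(discr (IntermediateField.adjoin ℚ {z}) : ℝ)| ≤ 4 := by
  obtain ⟨θ, hθ⟩ : ∃ θ : IntermediateField.adjoin ℚ {z},
      θ = IntermediateField.AdjoinSimple.gen ℚ z := ⟨_, rfl⟩
  have hθz : (θ : L) = z := by
    rw [hθ]
    exact IntermediateField.AdjoinSimple.coe_gen ℚ z
  have hθ0 : θ ^ 2 + θ + 1 = 0 := by
    apply Subtype.ext
    change (θ : L) ^ 2 + (θ : L) + 1 = 0
    rw [hθz, hz]
  exact disc_gen hθ0 (deg_two hz)

end SIXN

open SIXN

theorem t_SIXof : S_SIXof := by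
  intro hTH hGER hQW
  obtain ⟨δ₁, C₁, hδ₁, hC₁, h1⟩ := hTH 1 le_rfl
  obtain ⟨δQ, CQ, hδQ, hCQ, h2⟩ := hQW
  obtain ⟨δ', hδ'⟩ : ∃ δ' : ℝ, δ' = min δQ (1 / 4) := ⟨_, rfl⟩
  have hδ'0 : 0 < δ' := by
    rw [hδ']
    exact lt_min hδQ (by norm_num)
  have hδ'1 : δ' ≤ 1 / 4 := by
    rw [hδ']
    exact min_le_right _ _
  have hδ'2 : δ' ≤ δQ := by
    rw [hδ']
    exact min_le_left _ _
  obtain ⟨CG, hCG, h3⟩ := hGER 2 (δ' / 2) (by positivity)
  obtain ⟨K, hK⟩ : ∃ K : ℝ, K = CG * 4 ^ CG := ⟨_, rfl⟩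
  have hK0 : 0 < K := by
    rw [hK]
    positivity
  obtain ⟨δ, hδ⟩ : ∃ δ : ℝ, δ = min δ₁ (δ' / 2) := ⟨_, rfl⟩
  have hδ0 : 0 < δ := by
    rw [hδ]
    exact lt_min hδ₁ (by positivity)
  have hδa : δ ≤ δ₁ := by
    rw [hδ]
    exact min_le_left _ _
  have hδb : δ ≤ δ' / 2 := by
    rw [hδ]
    exact min_le_right _ _
  refine ⟨δ, C₁ + K + K * (CQ * K ^ (1 / 2 - δ')), hδ0, by positivity, ?_⟩
  intro L _ _ hL
  obtain ⟨D, hD⟩ : ∃ D : ℝ, D = |(discr L : ℝ)| := ⟨_, rfl⟩
  have hD1 : 1 ≤ D := by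
    rw [hD]
    exact one_le_disc L
  have hD0 : 0 < D := by linarith
  have hDp : 0 ≤ D ^ (1 / 2 - δ : ℝ) := by positivity
  have hKp : 0 ≤ K * (CQ * K ^ (1 / 2 - δ' : ℝ)) := by positivity
  by_cases hom : NoOm L
  · refine (h1 L (by rw [hL]; norm_num) hom).trans ?_
    rw [← hD]
    have e1 : D ^ (1 / 2 - δ₁ : ℝ) ≤ D ^ (1 / 2 - δ : ℝ) :=
      Real.rpow_le_rpow_of_exponent_le hD1 (by linarith)
    have e2 : C₁ * D ^ (1 / 2 - δ₁ : ℝ) ≤ C₁ * D ^ (1 / 2 - δ : ℝ) :=
      mul_le_mul_of_nonneg_left e1 hC₁.le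
    refine e2.trans (mul_le_mul_of_nonneg_right ?_ hDp)
    linarith
  · unfold NoOm at hom
    push Not at hom
    obtain ⟨z, hz⟩ := hom
    have hF2 := deg_two hz
    have hF3 : Module.finrank (IntermediateField.adjoin ℚ {z}) L = 3 := by
      have := Module.finrank_mul_finrank ℚ (IntermediateField.adjoin ℚ {z}) L
      rw [hF2, hL] at this
      omega
    have hdF := disc_le hz
    have hdF1 := one_le_disc (IntermediateField.adjoin ℚ {z})
    have hdFp : |(discr (IntermediateField.adjoin ℚ {z}) : ℝ)| ^ CG ≤ 4 ^ CG :=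
      Real.rpow_le_rpow (by linarith) hdF hCG.le
    have hpow : D ^ (δ' / 2) ≤ D ^ (1 / 2 - δ : ℝ) :=
      Real.rpow_le_rpow_of_exponent_le hD1 (by linarith)
    rcases h3 (IntermediateField.adjoin ℚ {z}) L hF2 hF3 with h4 | h4
    · have h5 : (Nat.card {c : ClassGroup (𝓞 L) // c ^ 3 = 1} : ℝ) ≤
          CG * D ^ (δ' / 2) * |(discr (IntermediateField.adjoin ℚ {z}) : ℝ)| ^ CG := by
        rw [hD]
        exact h4
      rw [← hD]
      have h6 : CG * D ^ (δ' / 2) * |(discr (IntermediateField.adjoin ℚ {z}) : ℝ)| ^ CG ≤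
          CG * D ^ (δ' / 2) * 4 ^ CG := mul_le_mul_of_nonneg_left hdFp (by positivity)
      have h7 : CG * D ^ (δ' / 2) * 4 ^ CG = K * D ^ (δ' / 2) := by
        rw [hK]
        ring
      have h8 : K * D ^ (δ' / 2) ≤ K * D ^ (1 / 2 - δ : ℝ) := mul_le_mul_of_nonneg_left hpow hK0.le
      refine h5.trans (h6.trans (h7.le.trans (h8.trans (mul_le_mul_of_nonneg_right ?_ hDp))))
      linarith
    · obtain ⟨F', _, _, _, hF'2, hF'd, hF'h⟩ := h4
      have hF'4 : Module.finrank ℚ F' = 4 := by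
        have := Module.finrank_mul_finrank ℚ (IntermediateField.adjoin ℚ {z}) F'
        rw [hF2, hF'2] at this
        omega
      have hF'z : ∃ y : F', y ^ 2 + y + 1 = 0 := by
        refine ⟨algebraMap (IntermediateField.adjoin ℚ {z}) F'
          (IntermediateField.AdjoinSimple.gen ℚ z), ?_⟩
        have h9 : (IntermediateField.AdjoinSimple.gen ℚ z) ^ 2 +
            IntermediateField.AdjoinSimple.gen ℚ z + 1 = 0 := by
          apply Subtype.ext
          change (IntermediateField.AdjoinSimple.gen ℚ z : L) ^ 2 +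
            (IntermediateField.AdjoinSimple.gen ℚ z : L) + 1 = 0
          rw [IntermediateField.AdjoinSimple.coe_gen, hz]
        rw [← map_pow, ← map_add, ← map_one (algebraMap (IntermediateField.adjoin ℚ {z}) F'),
          ← map_add, h9, map_zero]
      have h5 := h2 F' hF'4 hF'z
      have hF'1 := one_le_disc F'
      have h6 : |(discr F' : ℝ)| ≤ K * D := by
        refine hF'd.trans ?_
        rw [← hD, hK]
        exact mul_le_mul_of_nonneg_right (mul_le_mul_of_nonneg_left hdFp hCG.le) hD0.le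
      have h7 : |(discr F' : ℝ)| ^ (1 / 2 - δQ : ℝ) ≤ K ^ (1 / 2 - δ' : ℝ) * D ^ (1 / 2 - δ' : ℝ) := by
        rw [← Real.mul_rpow hK0.le hD0.le]
        refine (Real.rpow_le_rpow_of_exponent_le hF'1 (y := 1 / 2 - δQ) (z := 1 / 2 - δ')
          (by linarith)).trans ?_
        exact Real.rpow_le_rpow (by linarith) h6 (by linarith)
      have h8 : (Pool.Agent.K1H79.SX.h3 F' : ℝ) ≤
          CQ * (K ^ (1 / 2 - δ' : ℝ) * D ^ (1 / 2 - δ' : ℝ)) :=
        h5.trans (mul_le_mul_of_nonneg_left h7 hCQ.le)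
      have h9 : (Nat.card {c : ClassGroup (𝓞 L) // c ^ 3 = 1} : ℝ) ≤
          CG * D ^ (δ' / 2) * |(discr (IntermediateField.adjoin ℚ {z}) : ℝ)| ^ CG *
            Pool.Agent.K1H79.SX.h3 F' := by
        rw [hD]
        exact hF'h
      have h10 : CG * D ^ (δ' / 2) * |(discr (IntermediateField.adjoin ℚ {z}) : ℝ)| ^ CG *
            Pool.Agent.K1H79.SX.h3 F' ≤ CG * D ^ (δ' / 2) * 4 ^ CG *
              (CQ * (K ^ (1 / 2 - δ' : ℝ) * D ^ (1 / 2 - δ' : ℝ))) := by
        refine mul_le_mul (mul_le_mul_of_nonneg_left hdFp (by positivity)) h8 (Nat.cast_nonneg _)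
          (by positivity)
      have h11 : CG * D ^ (δ' / 2) * 4 ^ CG *
              (CQ * (K ^ (1 / 2 - δ' : ℝ) * D ^ (1 / 2 - δ' : ℝ))) =
          K * (CQ * K ^ (1 / 2 - δ' : ℝ)) * (D ^ (δ' / 2) * D ^ (1 / 2 - δ' : ℝ)) := by
        rw [hK]
        ring
      have h12 : D ^ (δ' / 2) * D ^ (1 / 2 - δ' : ℝ) ≤ D ^ (1 / 2 - δ : ℝ) := by
        rw [← Real.rpow_add hD0]
        exact Real.rpow_le_rpow_of_exponent_le hD1 (by linarith)
      rw [← hD]
      refine h9.trans (h10.trans (h11.le.trans ((mul_le_mul_of_nonneg_left h12 hKp).trans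
        (mul_le_mul_of_nonneg_right ?_ hDp))))
      linarith

end Pool.Agent.H514.GE
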