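import Pool.Agent.H514.GE.Stm

/-! # Small elements of `K = L(ω)` have small coordinates -/

set_option autoImplicit false

namespace Pool.Agent.H514.GE

open NumberField Pool.Agent.K1H79.GE
open scoped Classical nonZeroDivisors

namespace SMK

variable {L K : Type} [Field L] [NumberField L] [Field K] [NumberField K] [Algebra L K]

/-- the conjugation (copied from the library, `K1H79.RF.exists_tau`) -/
theorem exists_tau (h2 : Module.finrank L K = 2) {ω : K} (hω : ω ^ 2 + ω + 1 = 0)
    (hL : ∀ z : L, z ^ 2 + z + 1 ≠ 0) : ∃ τ : K ≃ₐ[L] K, τ ω = ω ^ 2 := by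
  have hq : Algebra.IsQuadraticExtension L K := ⟨h2⟩
  have hg : IsGalois L K := Algebra.IsQuadraticExtension.isGalois L K
  have hfd : FiniteDimensional L K := Module.finite_of_finrank_pos (by omega)
  by_contra hcon
  push Not at hcon
  have hfix : ∀ τ : K ≃ₐ[L] K, τ ω = ω := by
    intro τ
    have h1 : (τ ω) ^ 2 + τ ω + 1 = 0 := by
      rw [← map_pow, ← map_add, ← map_one τ, ← map_add, hω, map_zero]
    have h3 : (τ ω - ω) * (τ ω - ω ^ 2) = 0 := by
      linear_combination h1 - τ ω * hω + (ω - 1) * hω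
    rcases mul_eq_zero.1 h3 with h4 | h4
    · exact sub_eq_zero.1 h4
    · exact absurd (sub_eq_zero.1 h4) (hcon τ)
  obtain ⟨z, hz⟩ := (IsGalois.mem_bot_iff_fixed ω).2 (fun τ => hfix τ)
  apply hL z
  apply (algebraMap L K).injective
  rw [map_add, map_add, map_pow, map_one, map_zero]
  have hz' : algebraMap L K z = ω := hz
  rw [hz', hω]

/-- coordinates -/
theorem coords (h2 : Module.finrank L K = 2) {ω : K} (hω : ω ^ 2 + ω + 1 = 0)
    (hL : ∀ z : L, z ^ 2 + z + 1 ≠ 0) (z : K) :
    ∃ b c : L, z = algebraMap L K b + algebraMap L K c * ω := by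
  have hfd : FiniteDimensional L K := Module.finite_of_finrank_pos (by omega)
  have hli : LinearIndependent L ![(1 : K), ω] := by
    rw [LinearIndependent.pair_iff]
    intro s t hst
    rw [Algebra.smul_def, Algebra.smul_def, mul_one] at hst
    by_cases ht : t = 0
    · rw [ht, map_zero, zero_mul, add_zero] at hst
      exact ⟨(algebraMap L K).injective (by rw [hst, map_zero]), ht⟩
    · exfalso
      apply hL (-s / t)
      apply (algebraMap L K).injective
      have ht' : algebraMap L K t ≠ 0 := fun h => ht ((algebraMap L K).injective (by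
        rw [h, map_zero]))
      have h3 : algebraMap L K (-s / t) = ω := by
        rw [map_div₀, map_neg, div_eq_iff ht']
        linear_combination -hst
      rw [map_add, map_add, map_pow, map_one, map_zero, h3, hω]
  have hc : Fintype.card (Fin 2) = Module.finrank L K := by rw [h2, Fintype.card_fin]
  obtain ⟨B, hB⟩ : ∃ B : Module.Basis (Fin 2) L K, (B : Fin 2 → K) = ![(1 : K), ω] :=
    ⟨basisOfLinearIndependentOfCardEqFinrank hli hc,
      coe_basisOfLinearIndependentOfCardEqFinrank hli hc⟩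
  refine ⟨B.repr z 0, B.repr z 1, ?_⟩
  have h3 := B.sum_repr z
  rw [Fin.sum_univ_two, hB] at h3
  have h4 : (![(1 : K), ω] : Fin 2 → K) 0 = 1 := rfl
  have h5 : (![(1 : K), ω] : Fin 2 → K) 1 = ω := rfl
  rw [h4, h5, Algebra.smul_def, Algebra.smul_def, mul_one] at h3
  exact h3.symm

/-- an element with a small integral multiple -/
theorem mem_of (k : ℕ) (hk : 1 ≤ k) (H : ℝ) (c : L) (x : K)
    (hx : algebraMap L K (3 * (k : L) * c) = x) (hi : IsIntegral ℤ x)
    (hb : ∀ w : InfinitePlace K, w x ≤ H) : c ∈ Hs L H := by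
  have h1 : (3 * (k : L) * c) ∈ Hs L H := by
    refine IntermediateField.subset_adjoin ℚ _ ⟨?_, fun v => ?_⟩
    · exact (isIntegral_algebraMap_iff (algebraMap L K).injective).1 (hx ▸ hi)
    · obtain ⟨w, hw⟩ := InfinitePlace.comap_surjective (K := K) v
      rw [← hw, InfinitePlace.comap_apply, hx]
      exact hb w
  have hk0 : (3 * (k : L)) ≠ 0 := by
    have : (k : L) ≠ 0 := by exact_mod_cast (by omega : k ≠ 0)
    exact mul_ne_zero (by norm_num) this
  have h2 : (3 * (k : L)) ∈ Hs L H := by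
    have h3 : ((3 * k : ℕ) : L) ∈ Hs L H := natCast_mem _ _
    push_cast at h3
    exact h3
  have h4 : c = (3 * (k : L) * c) / (3 * (k : L)) := (mul_div_cancel_left₀ c hk0).symm
  rw [h4]
  exact div_mem h1 h2

end SMK

open SMK

theorem t_SMK : S_SMK := by
  intro L K _ _ _ _ _ h2 ω hω hL z k H hk hi hH
  obtain ⟨τ, hτ⟩ := exists_tau h2 hω hL
  obtain ⟨b, c, hbc⟩ := coords h2 hω hL z
  obtain ⟨Z, hZ⟩ : ∃ Z : K, Z = (k : K) * z := ⟨_, rfl⟩
  rw [← hZ] at hi hH
  have h3 : ω ^ 3 = 1 := by linear_combination (ω - 1) * hω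
  have hωi : IsIntegral ℤ ω := by
    refine ⟨Polynomial.X ^ 2 + Polynomial.X + 1, by monicity!, ?_⟩
    simp [hω]
  have hτi : IsIntegral ℤ (τ Z) := hi.map (τ.restrictScalars ℤ)
  have hτZ : τ Z = (k : K) * (algebraMap L K b + algebraMap L K c * ω ^ 2) := by
    rw [hZ, hbc, map_mul, map_natCast, map_add, map_mul, AlgEquiv.commutes, AlgEquiv.commutes, hτ]
  -- bounds
  have hw1 : ∀ w : InfinitePlace K, w ω = 1 := by
    intro w
    have h4 : (w ω) ^ 3 = 1 := by rw [← map_pow, h3, map_one]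
    exact (pow_eq_one_iff_of_nonneg (apply_nonneg w ω) (by norm_num)).1 h4
  have hwτ : ∀ w : InfinitePlace K, w (τ Z) ≤ H := by
    intro w
    exact hH (w.comap (τ : K →+* K))
  have hsub : ∀ (w : InfinitePlace K) (x y : K), w (x - y) ≤ w x + w y := by
    intro w x y
    rw [← InfinitePlace.norm_embedding_eq w (x - y), ← InfinitePlace.norm_embedding_eq w x,
      ← InfinitePlace.norm_embedding_eq w y, map_sub]
    exact norm_sub_le _ _
  have hneg : ∀ (w : InfinitePlace K) (x : K), w (-x) = w x := by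
    intro w x
    rw [← InfinitePlace.norm_embedding_eq w (-x), ← InfinitePlace.norm_embedding_eq w x, map_neg,
      norm_neg]
  have hww : ∀ w : InfinitePlace K, w (ω - ω ^ 2) ≤ 2 := by
    intro w
    have h5 := hsub w ω (ω ^ 2)
    rw [map_pow, hw1] at h5
    linarith
  have hww' : ∀ w : InfinitePlace K, w (ω ^ 2 - ω) ≤ 2 := by
    intro w
    have h5 := hsub w (ω ^ 2) ω
    rw [map_pow, hw1] at h5
    linarith
  have hH0 : ∀ w : InfinitePlace K, 0 ≤ H := fun w => (apply_nonneg w Z).trans (hH w)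
  refine ⟨b, c, ?_, ?_, hbc⟩
  · refine mem_of k hk (6 * H) b (-((ω ^ 2 * Z - ω * τ Z) * (ω ^ 2 - ω))) ?_ ?_ ?_
    · rw [hτZ, hZ, hbc, map_mul, map_mul, map_natCast, map_ofNat]
      linear_combination ((k : K) * algebraMap L K b * (ω ^ 2 - 3 * ω + 3)) * hω
    · exact (((hωi.pow 2).mul hi).sub (hωi.mul hτi)).mul ((hωi.pow 2).sub hωi) |>.neg
    · intro w
      rw [hneg, map_mul]
      have h5 := hsub w (ω ^ 2 * Z) (ω * τ Z)
      rw [map_mul, map_mul, map_pow, hw1, one_pow, one_mul, one_mul] at h5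
      have h6 : w (ω ^ 2 * Z - ω * τ Z) ≤ 2 * H := by linarith [hH w, hwτ w]
      have h7 := mul_le_mul h6 (hww' w) (apply_nonneg w _) (by linarith [hH0 w])
      linarith [hH0 w]
  · refine mem_of k hk (6 * H) c (-((Z - τ Z) * (ω - ω ^ 2))) ?_ ?_ ?_
    · rw [hτZ, hZ, hbc, map_mul, map_mul, map_natCast, map_ofNat]
      linear_combination ((k : K) * algebraMap L K c * (ω ^ 2 - 3 * ω + 3)) * hω
    · exact ((hi.sub hτi).mul (hωi.sub (hωi.pow 2))).neg
    · intro w
      rw [hneg, map_mul]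
      have h5 := hsub w Z (τ Z)
      have h6 : w (Z - τ Z) ≤ 2 * H := by linarith [hH w, hwτ w]
      have h7 := mul_le_mul h6 (hww w) (apply_nonneg w _) (by linarith [hH0 w])
      linarith [hH0 w]

end Pool.Agent.H514.GE
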