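import Pool.Agent.H514.GE.Stm

/-! # GE-SPL: a prime of norm `1` modulo `3` splits in `L(ω)` (helper118) -/

set_option autoImplicit false
set_option linter.unusedSectionVars false

namespace Pool.Agent.H514.GE

open NumberField Pool.Agent.K1H79.GE

namespace SPLx

section quad

variable {L K : Type} [Field L] [NumberField L] [Field K] [NumberField K] [Algebra L K]

theorem exists_tau (h2 : Module.finrank L K = 2) {ω : K} (hω : ω ^ 2 + ω + 1 = 0)
    (hL : ∀ z : L, z ^ 2 + z + 1 ≠ 0) : ∃ τ : K ≃ₐ[L] K, τ ω = ω ^ 2 := by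
  have hq : Algebra.IsQuadraticExtension L K := ⟨h2⟩
  have hg : IsGalois L K := Algebra.IsQuadraticExtension.isGalois L K
  have hfd : FiniteDimensional L K := Module.finite_of_finrank_pos (by omega)
  by_contra hcon
  push Not at hcon
  have hfix : ∀ τ : K ≃ₐ[L] K, τ ω = ω := by
    intro τ
    have h1 : (τ ω) ^ 2 + τ ω + 1 = 0 := by
      rw [← map_pow, ← map_add, ← map_one τ, ← map_add, hω, map_zero]
    have h3 : (τ ω - ω) * (τ ω - ω ^ 2) = 0 := by
      linear_combination h1 - τ ω * hω + (ω - 1) * hω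
    rcases mul_eq_zero.1 h3 with h4 | h4
    · exact sub_eq_zero.1 h4
    · exact absurd (sub_eq_zero.1 h4) (hcon τ)
  obtain ⟨z, hz⟩ := (IsGalois.mem_bot_iff_fixed ω).2 (fun τ => hfix τ)
  apply hL z
  apply (algebraMap L K).injective
  rw [map_add, map_add, map_pow, map_one, map_zero]
  have hz' : algebraMap L K z = ω := hz
  rw [hz', hω]

theorem exists_x {ω : K} (hω : ω ^ 2 + ω + 1 = 0) : ∃ x : 𝓞 K, (x : K) = ω ∧ x ^ 2 + x + 1 = 0 := by
  have hI : IsIntegral ℤ ω := by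
    refine ⟨Polynomial.X ^ 2 + Polynomial.X + 1, by monicity!, ?_⟩
    simpa using hω
  obtain ⟨x, hx⟩ : ∃ x : 𝓞 K, (x : K) = ω := ⟨⟨ω, hI⟩, rfl⟩
  refine ⟨x, hx, ?_⟩
  refine RingOfIntegers.ext ?_
  rw [RingOfIntegers.coe_eq_algebraMap, RingOfIntegers.coe_eq_algebraMap, map_add, map_add, map_pow, map_one,
    map_zero, ← RingOfIntegers.coe_eq_algebraMap, hx]
  exact hω

/-- the automorphism of the ring of integers -/
noncomputable def tO (τ : K ≃ₐ[L] K) : 𝓞 K →+* 𝓞 K :=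
  RingOfIntegers.mapRingHom (τ : K →+* K)

theorem tO_coe (τ : K ≃ₐ[L] K) (y : 𝓞 K) : ((tO τ y : 𝓞 K) : K) = τ (y : K) := rfl

theorem tO_alg (τ : K ≃ₐ[L] K) (y : 𝓞 L) :
    tO τ (algebraMap (𝓞 L) (𝓞 K) y) = algebraMap (𝓞 L) (𝓞 K) y := by
  refine RingOfIntegers.ext ?_
  rw [tO_coe]
  exact τ.commutes (y : L)

end quad

/-- the residue field -/
theorem res {R : Type} [CommRing R] (Q : Ideal R) (hQ : Q.IsMaximal) [Finite (R ⧸ Q)]
    (h : Nat.card (R ⧸ Q) % 3 = 1) : (3 : R) ∉ Q ∧ ∃ u : R, u ^ 2 + u + 1 ∈ Q := by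
  let _ : Field (R ⧸ Q) := Ideal.Quotient.field Q
  let _ : Fintype (R ⧸ Q) := Fintype.ofFinite _
  rw [Nat.card_eq_fintype_card] at h
  constructor
  · intro h3
    have h4 : (3 : R ⧸ Q) = 0 := by
      have h5 := Ideal.Quotient.eq_zero_iff_mem.2 h3
      rw [map_ofNat] at h5
      exact h5
    have h5 : addOrderOf (1 : R ⧸ Q) = 3 := by
      have hp : Fact (Nat.Prime 3) := ⟨Nat.prime_three⟩
      refine addOrderOf_eq_prime ?_ one_ne_zero
      rw [nsmul_eq_mul, mul_one]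
      exact_mod_cast h4
    have h6 : 3 ∣ Fintype.card (R ⧸ Q) := by
      rw [← h5]
      exact addOrderOf_dvd_card
    omega
  · let _ : Fintype (R ⧸ Q)ˣ := Fintype.ofFinite _
    have hcard : Fintype.card (R ⧸ Q)ˣ = Fintype.card (R ⧸ Q) - 1 := by
      rw [← Nat.card_eq_fintype_card, ← Nat.card_eq_fintype_card]
      exact Nat.card_units _
    have h1 : 3 ∣ Fintype.card (R ⧸ Q)ˣ := by
      rw [hcard]
      omega
    have hp : Fact (Nat.Prime 3) := ⟨Nat.prime_three⟩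
    obtain ⟨a, ha⟩ := exists_prime_orderOf_dvd_card 3 h1
    have ha3 : ((a : R ⧸ Q)) ^ 3 = 1 := by
      have h2 := pow_orderOf_eq_one a
      rw [ha] at h2
      rw [← Units.val_pow_eq_pow_val, h2, Units.val_one]
    have ha1 : (a : R ⧸ Q) ≠ 1 := by
      intro h2
      have h3 : a = 1 := Units.ext h2
      rw [h3, orderOf_one] at ha
      omega
    have h2 : (a : R ⧸ Q) ^ 2 + a + 1 = 0 := by
      have h3 : ((a : R ⧸ Q) - 1) * ((a : R ⧸ Q) ^ 2 + a + 1) = 0 := by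
        linear_combination ha3
      exact (mul_eq_zero.1 h3).resolve_left (sub_ne_zero.2 ha1)
    obtain ⟨u, hu⟩ := Ideal.Quotient.mk_surjective (a : R ⧸ Q)
    refine ⟨u, Ideal.Quotient.eq_zero_iff_mem.1 ?_⟩
    rw [map_add, map_add, map_pow, map_one, hu, h2]

end SPLx

open SPLx in
theorem t_SPL : S_SPL := by
  intro L K _ _ _ _ _ h2 ω hω hL Q hQ hQ3
  have hQ0 : Q ≠ ⊥ := by
    rintro rfl
    rw [Ideal.absNorm_bot] at hQ3
    omega
  have hQm : Q.IsMaximal := hQ.isMaximal hQ0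
  have hfin : Finite (𝓞 L ⧸ Q) := Ideal.finiteQuotientOfFreeOfNeBot Q hQ0
  have hfd : FiniteDimensional L K := Module.finite_of_finrank_pos (by omega)
  obtain ⟨h3, u, hu⟩ := res Q hQm hQ3
  obtain ⟨τ, hτ⟩ := exists_tau h2 hω hL
  obtain ⟨x, hxω, hx⟩ := exists_x hω
  have hτx : tO τ x = -1 - x := by
    refine RingOfIntegers.ext ?_
    rw [tO_coe, hxω, hτ]
    have h4 : ((-1 - x : 𝓞 K) : K) = -1 - ω := by
      rw [← hxω]
      rfl
    rw [h4]
    linear_combination hω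
  obtain ⟨J, hJ⟩ : ∃ J, J = Q.map (algebraMap (𝓞 L) (𝓞 K)) := ⟨_, rfl⟩
  have hJτ : ∀ y ∈ J, tO τ y ∈ J := by
    intro y hy
    have h4 : J.map (tO τ) = J := by
      rw [hJ, Ideal.map_map]
      congr 1
      exact RingHom.ext fun y => tO_alg τ y
    rw [← h4]
    exact Ideal.mem_map_of_mem _ hy
  -- a prime above `Q`
  obtain ⟨I, hIm, hIQ⟩ := Ideal.exists_ideal_over_maximal_of_isIntegral (S := 𝓞 K) Q
    (by rw [(RingHom.injective_iff_ker_eq_bot _).1
      (FaithfulSMul.algebraMap_injective (𝓞 L) (𝓞 K))]; exact bot_le)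
  have hJI : J ≤ I := by
    rw [hJ, Ideal.map_le_iff_le_comap, hIQ]
  -- `J` is not prime
  have hnp : ¬ J.IsPrime := by
    intro hp
    have hc : J.comap (algebraMap (𝓞 L) (𝓞 K)) = Q := by
      refine (hQm.eq_of_le ?_ ?_).symm
      · rw [Ne, Ideal.comap_eq_top_iff]
        exact hp.ne_top
      · rw [← Ideal.map_le_iff_le_comap, hJ]
    obtain ⟨U, hU⟩ : ∃ U, U = algebraMap (𝓞 L) (𝓞 K) u := ⟨_, rfl⟩
    have h4 : (U - x) * (U + 1 + x) ∈ J := by
      have h5 : (U - x) * (U + 1 + x) = algebraMap (𝓞 L) (𝓞 K) (u ^ 2 + u + 1) := by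
        rw [map_add, map_add, map_pow, map_one, ← hU]
        linear_combination (-1 : 𝓞 K) * hx
      rw [h5, hJ]
      exact Ideal.mem_map_of_mem _ hu
    have hτU : tO τ U = U := by rw [hU, tO_alg]
    have h5 : U - x ∈ J ∧ U + 1 + x ∈ J := by
      rcases hp.mem_or_mem h4 with h6 | h6
      · refine ⟨h6, ?_⟩
        have h7 := hJτ _ h6
        rw [map_sub, hτU, hτx] at h7
        have h8 : U - (-1 - x) = U + 1 + x := by ring
        rwa [h8] at h7
      · refine ⟨?_, h6⟩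
        have h7 := hJτ _ h6
        rw [map_add, map_add, map_one, hτU, hτx] at h7
        have h8 : U + 1 + (-1 - x) = U - x := by ring
        rwa [h8] at h7
    have h6 : 2 * x + 1 ∈ J := by
      have h7 := J.sub_mem h5.2 h5.1
      have h8 : U + 1 + x - (U - x) = 2 * x + 1 := by ring
      rwa [h8] at h7
    have h7 : (3 : 𝓞 K) ∈ J := by
      have h8 := J.mul_mem_left (-(2 * x + 1)) h6
      have h9 : -(2 * x + 1) * (2 * x + 1) = 3 := by
        linear_combination (-4 : 𝓞 K) * hx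
      rwa [h9] at h8
    apply h3
    rw [← hc, Ideal.mem_comap, map_ofNat]
    exact h7
  -- norms
  have hfr : Module.finrank (𝓞 L) (𝓞 K) = 2 := by
    rw [← h2]
    exact (IsFractionRing.finrank_eq (𝓞 L) L (𝓞 K) K).symm
  have hNJ : Ideal.relNorm (𝓞 L) J = Q ^ 2 := by
    rw [hJ, Ideal.relNorm_algebraMap, hfr]
  have hone : ∀ M : Ideal (𝓞 K), Ideal.relNorm (𝓞 L) M = 1 → M = ⊤ := by
    intro M hM
    have h4 : Ideal.absNorm (Ideal.relNorm (𝓞 L) M) = Ideal.absNorm M := Ideal.absNorm_relNorm (𝓞 L) (𝓞 K) M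
    rw [hM, map_one] at h4
    exact Ideal.absNorm_eq_one_iff.1 h4.symm
  obtain ⟨I', hI'⟩ := Ideal.dvd_iff_le.2 hJI
  have hprod : Ideal.relNorm (𝓞 L) I * Ideal.relNorm (𝓞 L) I' = Q ^ 2 := by
    rw [← map_mul, ← hI', hNJ]
  have hQp : Prime Q := Ideal.prime_of_isPrime hQ0 hQ
  obtain ⟨i, hi, hi'⟩ := (dvd_prime_pow hQp 2).1 ⟨_, hprod.symm⟩
  rw [associated_iff_eq] at hi'
  have hcases : i = 0 ∨ i = 1 ∨ i = 2 := by omega
  rcases hcases with h4 | h4 | h4
  · exfalso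
    rw [h4, pow_zero] at hi'
    exact hIm.ne_top (hone I hi')
  · exact ⟨I, by rw [hi', h4, pow_one]⟩
  · exfalso
    rw [h4] at hi'
    rw [hi'] at hprod
    have h5 : Ideal.relNorm (𝓞 L) I' = 1 := by
      have h6 : Q ^ 2 * Ideal.relNorm (𝓞 L) I' = Q ^ 2 * 1 := by rw [hprod, mul_one]
      exact mul_left_cancel₀ (pow_ne_zero 2 hQ0) h6
    rw [hone I' h5, Ideal.mul_top] at hI'
    apply hnp
    rw [hI']
    exact hIm.isPrime

end Pool.Agent.H514.GE
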