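import Pool.Agent.H514.GE.Stm

/-! # GE-STEP: one scale, assembly of the two cases (helper231 for helper514) -/

set_option autoImplicit false

namespace Pool.Agent.H514.GE

open NumberField Pool.Agent.K1H79.GE
open scoped Classical nonZeroDivisors

namespace STEP

theorem one_le_disc (F : Type) [Field F] [NumberField F] : (1 : ℝ) ≤ |(discr F : ℝ)| := by
  have h : (1 : ℤ) ≤ |discr F| := Int.one_le_abs (discr_ne_zero F)
  have h2 : ((1 : ℤ) : ℝ) ≤ ((|discr F| : ℤ) : ℝ) := Int.cast_le.2 h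
  rwa [Int.cast_one, Int.cast_abs] at h2

/-- uniform constants for all degrees at most `n` -/
theorem prim (hP : S_PRIM) (n : ℕ) : ∃ c C : ℝ, 0 < c ∧ 1 ≤ C ∧
    ∀ (F : Type) [Field F] [NumberField F], Module.finrank ℚ F ≤ n → NoOm F →
      ∀ X : ℝ, 1 ≤ X → C * |(discr F : ℝ)| ^ C ≤ X →
        ∃ M : Finset ℕ, (∀ m ∈ M, Squarefree m ∧ (m : ℝ) ≤ X ∧
          ∀ p : ℕ, p.Prime → p ∣ m → Gp F p) ∧ X ^ c ≤ (M.card : ℝ) := by
  induction n with
  | zero =>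
    refine ⟨1, 1, one_pos, le_rfl, fun F _ _ hF => ?_⟩
    have h := Module.finrank_pos (R := ℚ) (M := F)
    omega
  | succ n ih =>
    obtain ⟨c1, C1, hc1, hC1, h1⟩ := ih
    obtain ⟨c2, C2, hc2, hC2, h2⟩ := hP (n + 1) (by omega)
    refine ⟨min c1 c2, max C1 C2, lt_min hc1 hc2, hC1.trans (le_max_left _ _), ?_⟩
    intro F _ _ hF hOm X hX hX2
    have hd := one_le_disc F
    have hm : ∀ C' : ℝ, 0 < C' → C' ≤ max C1 C2 →
        C' * |(discr F : ℝ)| ^ C' ≤ X := by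
      intro C' h0 h
      refine le_trans ?_ hX2
      exact mul_le_mul h (Real.rpow_le_rpow_of_exponent_le hd h)
        (Real.rpow_nonneg (abs_nonneg _) _) (h0.le.trans h)
    by_cases hFn : Module.finrank ℚ F ≤ n
    · obtain ⟨M, hM, hc⟩ := h1 F hFn hOm X hX (hm C1 (by linarith) (le_max_left _ _))
      exact ⟨M, hM, (Real.rpow_le_rpow_of_exponent_le hX (min_le_left _ _)).trans hc⟩
    · obtain ⟨M, hM, hc⟩ := h2 F (by omega) hOm X (hm C2 hC2 (le_max_right _ _))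
      exact ⟨M, hM, (Real.rpow_le_rpow_of_exponent_le hX (min_le_right _ _)).trans hc⟩

theorem hs_mono (L : Type) [Field L] [NumberField L] {H H' : ℝ} (h : H ≤ H') : Hs L H ≤ Hs L H' := by
  unfold Hs
  exact IntermediateField.adjoin.mono _ _ _ fun x hx => ⟨hx.1, fun w => (hx.2 w).trans h⟩

/-- the part of `m` in a set of primes -/
noncomputable def part (S : ℕ → Prop) (m : ℕ) : ℕ := ∏ p ∈ m.primeFactors.filter S, p

theorem part_dvd (S : ℕ → Prop) {m : ℕ} (hm : Squarefree m) : part S m ∣ m := by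
  have h := Nat.prod_primeFactors_of_squarefree hm
  have h2 : part S m ∣ ∏ p ∈ m.primeFactors, p :=
    Finset.prod_dvd_prod_of_subset (m.primeFactors.filter S) m.primeFactors (fun p => p)
      (Finset.filter_subset S _)
  rwa [h] at h2

theorem part_prime (S : ℕ → Prop) {m p : ℕ} (hp : p.Prime) (h : p ∣ part S m) : S p ∧ p ∣ m := by
  unfold part at h
  obtain ⟨q, hq, hpq⟩ := (Prime.dvd_finsetProd_iff hp.prime _).1 h
  rw [Finset.mem_filter, Nat.mem_primeFactors] at hq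
  have h1 := (Nat.prime_dvd_prime_iff_eq hp hq.1.1).1 hpq
  rw [h1]
  exact ⟨hq.2, hq.1.2.1⟩

theorem part_mul (S : ℕ → Prop) {m : ℕ} (hm : Squarefree m) :
    part S m * part (fun p => ¬ S p) m = m := by
  unfold part
  rw [Finset.prod_filter_mul_prod_filter_not]
  exact Nat.prod_primeFactors_of_squarefree hm

theorem card_split (S : ℕ → Prop) (M : Finset ℕ) (hM : ∀ m ∈ M, Squarefree m) :
    M.card ≤ (M.image (part S)).card * (M.image (part fun p => ¬ S p)).card := by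
  rw [← Finset.card_product]
  refine Finset.card_le_card_of_injOn (fun m => (part S m, part (fun p => ¬ S p) m)) ?_ ?_
  · intro m hm
    rw [Finset.mem_coe, Finset.mem_product]
    exact ⟨Finset.mem_image_of_mem _ hm, Finset.mem_image_of_mem _ hm⟩
  · intro m hm m' hm' h
    rw [Prod.mk.injEq] at h
    rw [← part_mul S (hM m hm), ← part_mul S (hM m' hm'), h.1, h.2]

/-- the final computation -/
theorem fin_calc {ε c0 CA CB CR D X a b hL hK dK : ℝ} (hε : 0 < ε) (hc0 : 0 < c0) (hCA : 1 ≤ CA)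
    (hCB : 1 ≤ CB) (hCR : 0 < CR) (hD : 1 ≤ D) (hX : 1 ≤ X) (ha : 0 ≤ a) (hb : 0 ≤ b)
    (hL0 : 0 ≤ hL) (hK0 : 0 ≤ hK) (hdK0 : 0 ≤ dK) (hab : X ^ c0 ≤ a * b)
    (hB : b * hL ≤ CB * D ^ (1 / 2 + ε)) (hA : a * hK ≤ CA * dK ^ (1 / 2 + ε))
    (hdK : dK ≤ CR * D ^ 2) (hLK : hL ^ 2 ≤ CR * hK) :
    hL ≤ (CA + CB + (CR * CA * CR ^ (1 / 2 + ε) + 1)) * D ^ (1 / 2 + ε) * X ^ (-(c0 / 4)) := by
  have hX0 : 0 < X := by linarith
  have hD0 : 0 < D := by linarith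
  have hR : 0 ≤ CR * CA * CR ^ (1 / 2 + ε) := by positivity
  have hDp : 0 < D ^ (1 / 2 + ε) := Real.rpow_pos_of_pos hD0 _
  have hXp : 0 < X ^ (-(c0 / 4)) := Real.rpow_pos_of_pos hX0 _
  have hX4 : X ^ (-(c0 / 2)) ≤ X ^ (-(c0 / 4)) :=
    Real.rpow_le_rpow_of_exponent_le hX (by linarith)
  have hX2 : 0 < X ^ (c0 / 2) := Real.rpow_pos_of_pos hX0 _
  have hXX : X ^ (c0 / 2) * X ^ (c0 / 2) = X ^ c0 := by
    rw [← Real.rpow_add hX0]
    congr 1
    ring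
  have hinv : X ^ (-(c0 / 2)) * X ^ (c0 / 2) = 1 := by
    rw [← Real.rpow_add hX0, neg_add_cancel, Real.rpow_zero]
  by_cases hb2 : X ^ (c0 / 2) ≤ b
  · have h1 : X ^ (c0 / 2) * hL ≤ CB * D ^ (1 / 2 + ε) :=
      (mul_le_mul_of_nonneg_right hb2 hL0).trans hB
    have h2 : hL ≤ CB * D ^ (1 / 2 + ε) * X ^ (-(c0 / 2)) := by
      calc hL = X ^ (-(c0 / 2)) * (X ^ (c0 / 2) * hL) := by rw [← mul_assoc, hinv, one_mul]
        _ ≤ X ^ (-(c0 / 2)) * (CB * D ^ (1 / 2 + ε)) :=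
            mul_le_mul_of_nonneg_left h1 (Real.rpow_nonneg hX0.le _)
        _ = _ := by ring
    refine h2.trans ?_
    refine mul_le_mul ?_ hX4 (Real.rpow_nonneg hX0.le _) (by positivity)
    exact mul_le_mul_of_nonneg_right (by linarith) hDp.le
  · push Not at hb2
    have ha2 : X ^ (c0 / 2) ≤ a := by
      by_contra hcon
      push Not at hcon
      have h1 : a * b < X ^ (c0 / 2) * X ^ (c0 / 2) :=
        mul_lt_mul'' hcon hb2 ha hb
      rw [hXX] at h1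
      linarith
    have h1 : X ^ (c0 / 2) * hK ≤ CA * dK ^ (1 / 2 + ε) :=
      (mul_le_mul_of_nonneg_right ha2 hK0).trans hA
    have h2 : dK ^ (1 / 2 + ε) ≤ CR ^ (1 / 2 + ε) * (D ^ (1 / 2 + ε)) ^ 2 := by
      have h3 : dK ^ (1 / 2 + ε) ≤ (CR * D ^ 2) ^ (1 / 2 + ε) :=
        Real.rpow_le_rpow hdK0 hdK (by positivity)
      rw [Real.mul_rpow hCR.le (by positivity)] at h3
      have h4 : (D ^ 2) ^ (1 / 2 + ε) = (D ^ (1 / 2 + ε)) ^ 2 := by
        rw [← Real.rpow_natCast, ← Real.rpow_natCast, ← Real.rpow_mul hD0.le,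
          ← Real.rpow_mul hD0.le, mul_comm]
      rw [h4] at h3
      exact h3
    have h5 : hK ≤ X ^ (-(c0 / 2)) * (CA * (CR ^ (1 / 2 + ε) * (D ^ (1 / 2 + ε)) ^ 2)) := by
      calc hK = X ^ (-(c0 / 2)) * (X ^ (c0 / 2) * hK) := by rw [← mul_assoc, hinv, one_mul]
        _ ≤ X ^ (-(c0 / 2)) * (CA * dK ^ (1 / 2 + ε)) :=
            mul_le_mul_of_nonneg_left h1 (Real.rpow_nonneg hX0.le _)
        _ ≤ _ := mul_le_mul_of_nonneg_left (mul_le_mul_of_nonneg_left h2 (by linarith))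
            (Real.rpow_nonneg hX0.le _)
    have h6 : X ^ (-(c0 / 2)) = (X ^ (-(c0 / 4))) ^ 2 := by
      rw [← Real.rpow_natCast, ← Real.rpow_mul hX0.le]
      congr 1
      push_cast
      ring
    have h7 : hL ^ 2 ≤ ((CR * CA * CR ^ (1 / 2 + ε) + 1) * D ^ (1 / 2 + ε) * X ^ (-(c0 / 4))) ^ 2 := by
      calc hL ^ 2 ≤ CR * hK := hLK
        _ ≤ CR * (X ^ (-(c0 / 2)) * (CA * (CR ^ (1 / 2 + ε) * (D ^ (1 / 2 + ε)) ^ 2))) :=
            mul_le_mul_of_nonneg_left h5 hCR.le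
        _ = (CR * CA * CR ^ (1 / 2 + ε)) * (D ^ (1 / 2 + ε) * X ^ (-(c0 / 4))) ^ 2 := by
            rw [h6]
            ring
        _ ≤ (CR * CA * CR ^ (1 / 2 + ε) + 1) ^ 2 * (D ^ (1 / 2 + ε) * X ^ (-(c0 / 4))) ^ 2 := by
            refine mul_le_mul_of_nonneg_right ?_ (sq_nonneg _)
            nlinarith
        _ = _ := by ring
    have h8 : hL ≤ (CR * CA * CR ^ (1 / 2 + ε) + 1) * D ^ (1 / 2 + ε) * X ^ (-(c0 / 4)) :=
      le_of_sq_le_sq h7 (by positivity)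
    refine h8.trans ?_
    refine mul_le_mul_of_nonneg_right ?_ hXp.le
    exact mul_le_mul_of_nonneg_right (by linarith) hDp.le

end STEP

open STEP

theorem t_STEPof : S_STEPof := by
  intro hPRIM hDIC hCA hCB hREF n hn
  obtain ⟨c0, Cp, hc0, hCp, hP⟩ := prim hPRIM n
  refine ⟨c0 / 4, Cp, by positivity, hCp, fun ε hε => ?_⟩
  obtain ⟨CA, hCA1, hA⟩ := hCA n ε hn hε
  obtain ⟨CB, hCB1, hB⟩ := hCB n ε hn hε
  obtain ⟨CR, hCR, hR⟩ := hREF n
  have hR0 : 0 ≤ CR * CA * CR ^ (1 / 2 + ε) := by positivity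
  refine ⟨CA + CB + (CR * CA * CR ^ (1 / 2 + ε) + 1), by linarith, ?_⟩
  intro L _ _ hL hOm H X hH hX hle hev hdisc
  have hX6 : 0 < X ^ 6 := by positivity
  have hleA : Hs L (CA * X ^ 6) ≤ Hs L H :=
    (hs_mono L (mul_le_mul_of_nonneg_right (by linarith) hX6.le)).trans hle
  have hleB : Hs L (CB * X ^ 6) ≤ Hs L H :=
    (hs_mono L (mul_le_mul_of_nonneg_right (by linarith) hX6.le)).trans hle
  -- the field of the small integers
  have hfn : Module.finrank ℚ (Hs L H) ≤ n := by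
    have h1 := Module.finrank_mul_finrank ℚ (Hs L H) L
    rw [hL] at h1
    have h2 := Module.finrank_pos (R := Hs L H) (M := L)
    nlinarith [Nat.zero_le (Module.finrank ℚ (Hs L H))]
  have hOmF : NoOm (Hs L H) := by
    intro z hz
    apply hOm (algebraMap (Hs L H) L z)
    have h1 := congrArg (algebraMap (Hs L H) L) hz
    rw [map_add, map_add, map_pow, map_one, map_zero] at h1
    exact h1
  obtain ⟨M, hM, hMc⟩ := hP (Hs L H) hfn hOmF X hX hdisc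
  obtain ⟨K, _, _, _, hK2, ⟨ω, hω⟩, hKd, hKh⟩ := hR L hL hOm
  -- the primes
  let P : ℕ → Ideal (𝓞 (Hs L H)) := fun p => if h : Gp (Hs L H) p then h.2.choose else ⊥
  have hPs : ∀ p, Gp (Hs L H) p → (P p).IsPrime ∧ ((p : ℕ) : 𝓞 (Hs L H)) ∈ P p ∧
      Ideal.absNorm (P p) % 3 = 2 := by
    intro p hp
    have h1 : P p = hp.2.choose := dif_pos hp
    rw [h1]
    exact hp.2.choose_spec
  -- the types
  let S : ℕ → Prop := fun p => ∃ Q : Ideal (𝓞 L), TB (Hs L H) L (P p) Q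
  let Q : ℕ → Ideal (𝓞 L) := fun p => if h : S p then h.choose else ⊥
  have hQs : ∀ p, S p → TB (Hs L H) L (P p) (Q p) := by
    intro p hp
    have h1 : Q p = hp.choose := dif_pos hp
    rw [h1]
    exact hp.choose_spec
  let I : ℕ → Ideal (𝓞 K) := fun p =>
    if h : ∃ I : Ideal (𝓞 K), Ideal.relNorm (𝓞 L) I = ex (Hs L H) L (P p) then h.choose else ⊥
  have hIs : ∀ p, Gp (Hs L H) p → ¬ S p →
      Ideal.relNorm (𝓞 L) (I p) = ex (Hs L H) L (P p) := by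
    intro p hp hS
    obtain ⟨h1, h2, h3⟩ := hPs p hp
    have h4 : ∃ I : Ideal (𝓞 K), Ideal.relNorm (𝓞 L) I = ex (Hs L H) L (P p) :=
      (hDIC (Hs L H) L K hev hK2 ω hω hOm (P p) h1 h3).resolve_left hS
    have h5 : I p = h4.choose := dif_pos h4
    rw [h5]
    exact h4.choose_spec
  have hMs : ∀ m ∈ M, Squarefree m := fun m hm => (hM m hm).1
  have hsplit := card_split S M hMs
  have hle' : ∀ (S' : ℕ → Prop), ∀ m ∈ M, Squarefree (part S' m) ∧ ((part S' m : ℕ) : ℝ) ≤ X := by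
    intro S' m hm
    have h1 := part_dvd S' (hMs m hm)
    refine ⟨(hMs m hm).squarefree_of_dvd h1, le_trans ?_ (hM m hm).2.1⟩
    exact Nat.cast_le.2 (Nat.le_of_dvd (Nat.pos_of_ne_zero (hMs m hm).ne_zero) h1)
  have hBr := hB L hL (Hs L H) X hX hleB P Q (M.image (part S)) (by
    intro m hm
    obtain ⟨m', hm', rfl⟩ := Finset.mem_image.1 hm
    obtain ⟨h1, h2⟩ := hle' S m' hm'
    refine ⟨h1, h2, fun p hp hpm => ?_⟩
    obtain ⟨h3, h4⟩ := part_prime S hp hpm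
    obtain ⟨h5, h6, -⟩ := hPs p ((hM m' hm').2.2 p hp h4)
    exact ⟨h5, h6, hQs p h3⟩)
  have hAr := hA L K hL hK2 ω hω hOm (Hs L H) X hX hleA P I (M.image (part fun p => ¬ S p)) (by
    intro m hm
    obtain ⟨m', hm', rfl⟩ := Finset.mem_image.1 hm
    obtain ⟨h1, h2⟩ := hle' (fun p => ¬ S p) m' hm'
    refine ⟨h1, h2, fun p hp hpm => ?_⟩
    obtain ⟨h3, h4⟩ := part_prime (fun p => ¬ S p) hp hpm
    have h7 := (hM m' hm').2.2 p hp h4
    obtain ⟨h5, h6, h8⟩ := hPs p h7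
    exact ⟨h5, h6, h8, hIs p h7 h3⟩)
  refine fin_calc hε hc0 hCA1 hCB1 hCR (one_le_disc L) hX (Nat.cast_nonneg _) (Nat.cast_nonneg _)
    (Nat.cast_nonneg _) (Nat.cast_nonneg _) (abs_nonneg _) ?_ hBr hAr hKd hKh
  refine hMc.trans ?_
  rw [mul_comm, ← Nat.cast_mul]
  exact Nat.cast_le.2 hsplit

end Pool.Agent.H514.GE
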