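import Pool.Agent.H514.RF.Pri
import Pool.Graph.R_pool_sql_team_seeded_efc1946e.K1H79.TW.Stm
import Pool.Graph.R_pool_sql_team_seeded_efc1946e.K1H1.TW.Nm
import Pool.Graph.R_pool_sql_team_seeded_efc1946e.K1H1.TW.Tof
import Pool.Graph.R_pool_sql_team_seeded_efc1946e.K1H10.TW.REGof
import Pool.Graph.R_pool_sql_team_seeded_efc1946e.K1H13.TW.RHOof
import Pool.Graph.R_pool_sql_team_seeded_efc1946e.K1H4.TW.Tc
import Pool.Graph.R_pool_sql_team_seeded_efc1946e.K1H43.TW.Idx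
import Pool.Graph.R_pool_sql_team_seeded_efc1946e.K1H58.TW.Kro
import Pool.Graph.R_pool_sql_team_seeded_efc1946e.K1H74.TW.Cnt
import Pool.Graph.R_pool_sql_team_seeded_efc1946e.K1H74.TW.Dom
import Pool.Graph.R_pool_sql_team_seeded_efc1946e.K1H80.TW.Rel
import Pool.Graph.R_pool_sql_team_seeded_efc1946e.K1H87.TW.Cnf

/-! # The transfer principle: `S_ALL`, `S_CHR`, and the assembly with `S_ZB` as a hypothesis

Owner helper514. -/

set_option autoImplicit false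

namespace Pool.Agent.H514.GE

open NumberField IsDedekindDomain Ideal Complex
open Pool.Agent.K1H79.TW Pool.Agent.H514.RF
open CohNT (Pr)
open scoped Classical nonZeroDivisors

theorem t_ALL : S_ALL := by
  intro F _ _
  obtain ⟨C, hC⟩ := t_A1 F
  refine ⟨C, fun s hs hs2 => ?_⟩
  have h1 := hC s hs hs2
  have h2 : Pool.Agent.K1H79.RF.Sm F (fun _ => True) s =
      ∑' v : HeightOneSpectrum (𝓞 F), ((Ideal.absNorm v.asIdeal : ℕ) : ℝ) ^ (-s) := by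
    unfold Pool.Agent.K1H79.RF.Sm
    refine tsum_congr fun v => ?_
    rw [if_pos trivial]
  rw [h2] at h1
  exact h1

theorem t_CHR : S_CHR := by
  intro F _ _ χ hχ
  obtain ⟨η, hη⟩ : ∃ η : ClassGroup (𝓞 F) →* ℂ, η = (Units.coeHom ℂ).comp χ := ⟨_, rfl⟩
  have hval : ∀ c, η c = ((χ c : ℂˣ) : ℂ) := fun c => by rw [hη]; rfl
  have hone : ∀ c, ‖η c‖ = 1 := by
    intro c
    have h1 : η c ^ Nat.card (ClassGroup (𝓞 F)) = 1 := by
      rw [← map_pow, pow_card_eq_one', map_one]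
    exact Complex.norm_eq_one_of_pow_eq_one h1 Nat.card_pos.ne'
  have hn1 : ∀ 𝔞 : Ideal (𝓞 F), ‖et η 𝔞‖ ≤ 1 := by
    intro 𝔞
    by_cases h : 𝔞 = 0
    · rw [h, map_zero, norm_zero]
      exact zero_le_one
    · rw [et_ne η h, hone]
  have hcop : ∀ 𝔞 : Ideal (𝓞 F), IsCoprime 𝔞 (⊤ : Ideal (𝓞 F)) := by
    intro 𝔞
    rw [Ideal.isCoprime_iff_sup_eq, sup_top_eq]
  have hg : ∃ g : ℂ → ℂ, AnalyticAt ℂ g 1 ∧ ∀ s : ℂ, 1 < s.re → Pool.Agent.Y773.LI (et η) s = g s := by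
    refine Pool.Agent.Y773.G.LI_cont Pool.Agent.Y772.G.t_sig (𝔪 := ⊤) top_ne_bot ?_ ?_ ?_
    · intro 𝔞 h
      refine ⟨fun _ => hcop 𝔞, fun _ => ?_⟩
      rw [et_ne η h]
      intro h1
      have h2 := hone (ClassGroup.mk0 ⟨𝔞, mem_nonZeroDivisors_of_ne_zero h⟩)
      rw [h1, norm_zero] at h2
      exact zero_ne_one h2
    · intro x hx _ _
      have h1 : Ideal.span {x} ≠ 0 := by
        rw [Ne, Ideal.zero_eq_bot, Ideal.span_singleton_eq_bot]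
        exact hx
      rw [et_ne η h1]
      have h2 : ClassGroup.mk0 (⟨Ideal.span {x}, mem_nonZeroDivisors_of_ne_zero h1⟩ : (Ideal (𝓞 F))⁰) = 1 := by
        rw [ClassGroup.mk0_eq_one_iff]
        exact ⟨⟨x, rfl⟩⟩
      rw [h2, map_one]
    · obtain ⟨c, hc⟩ : ∃ c, χ c ≠ 1 := by
        by_contra h
        push Not at h
        exact hχ (MonoidHom.ext h)
      obtain ⟨J, hJ⟩ := ClassGroup.mk0_surjective c
      refine ⟨J.1, nonZeroDivisors.ne_zero J.2, hcop _, ?_⟩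
      rw [et_ne η (nonZeroDivisors.ne_zero J.2), hval]
      have h1 : (⟨J.1, mem_nonZeroDivisors_of_ne_zero (nonZeroDivisors.ne_zero J.2)⟩ : (Ideal (𝓞 F))⁰) = J := rfl
      rw [h1, hJ]
      intro h2
      exact hc (Units.ext h2)
  obtain ⟨C1, hC1⟩ := Pm_upper (et η) hn1 hg
  refine ⟨C1, fun s hs _ => ?_⟩
  refine le_trans (le_of_eq ?_) (hC1 s hs)
  have hsum : Summable fun v : Pr F => et η v.asIdeal * ((absNorm v.asIdeal : ℕ) : ℂ) ^ (-(s : ℂ)) := by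
    refine Summable.of_norm (Summable.of_nonneg_of_le (fun _ => norm_nonneg _) (fun v => ?_)
      (Pool.Agent.K1H79.RF.nv_sum (F := F) hs))
    rw [norm_mul, Complex.norm_natCast_cpow_of_pos (Pool.Agent.K1H79.RF.nv_pos v), neg_re, ofReal_re]
    calc ‖et η v.asIdeal‖ * ((absNorm v.asIdeal : ℕ) : ℝ) ^ (-s) ≤ 1 * ((absNorm v.asIdeal : ℕ) : ℝ) ^ (-s) :=
          mul_le_mul_of_nonneg_right (hn1 _) (Pool.Agent.K1H79.RF.nv_nonneg v s)
      _ = _ := one_mul _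
  have h3 := Complex.hasSum_re hsum.hasSum
  refine Eq.trans ?_ h3.tsum_eq
  refine tsum_congr fun v => ?_
  have h8 : ((absNorm v.asIdeal : ℕ) : ℂ) ^ (-(s : ℂ)) = ((((absNorm v.asIdeal : ℕ) : ℝ) ^ (-s) : ℝ) : ℂ) := by
    rw [ofReal_cpow (Nat.cast_nonneg _)]
    push_cast
    rfl
  rw [h8, re_mul_ofReal, et_ne η v.ne_bot, hval]

/-- **the transfer principle** (with the uniform bound for zeta as a hypothesis) -/
theorem t_Tof' (hZB : S_ZB) : S_T := by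
  obtain ⟨hREG, hLOW⟩ := Pool.Agent.K1H10.TW.t_REGof Pool.Agent.K1H58.TW.t_KRO Pool.Agent.K1H74.TW.t_CNT
    Pool.Agent.K1H80.TW.t_REL Pool.Agent.K1H87.TW.t_CNF
  refine Pool.Agent.K1H1.TW.t_Tof Pool.Agent.K1H87.TW.t_CNF hREG
    (Pool.Agent.K1H13.TW.t_RHOof hZB Pool.Agent.K1H4.TW.t_TC Pool.Agent.K1H74.TW.t_DOM hLOW) ?_
  intro E K _ _ _ _ _
  obtain ⟨N, hN⟩ := Pool.Agent.K1H1.TW.t_NM E K
  exact ⟨N, hN, Pool.Agent.K1H43.TW.t_IDX t_CHR t_ALL E K N hN⟩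

end Pool.Agent.H514.GE
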