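import Pool.Graph.R_pool_sql_team_seeded_efc1946e.K1H79.TW.Stm
import Pool.Graph.R_pool_sql_team_seeded_3997aac3.Q246.Unram2
import Pool.Graph.R_pool_sql_team_seeded_efc1946e.K1H33.RM.Task
import Pool.Graph.R_seed8.Y772.NZ.Zeta
import Pool.Graph.R_pool_sql_team_seeded_3997aac3.Q284.SP.Grw

/-!
# ZB: a uniform bound for `(s - 1) ζ_F(s)` near `s = 2`
-/

set_option autoImplicit false

open NumberField Complex Filter Topology Set

namespace Pool.Agent.H514.GE

open Pool.Agent.K1H79.TW (rr S_ZB)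
open Pool.Agent.Y773 (LI GG)
open Pool.Agent.Y773.G (ex ex_le)
open Pool.Agent.Y772.NZ (one one_ne one_norm LI_one)

/-! ### the coefficients -/

lemma ZB_rm (n : ℕ) (ε : ℝ) (hε : 0 < ε) : ∃ C : ℝ, 0 < C ∧ ∀ (F : Type) [Field F] [NumberField F],
    Module.finrank ℚ F ≤ n → ∀ m : ℕ, 1 ≤ m → rr F m ≤ C * (m : ℝ) ^ ε := by
  have h := fun d => Pool.Agent.K1H33.RM.t_RM d ε hε
  choose C hC hb using h
  refine ⟨∑ d ∈ Finset.range (n + 1), C d, Finset.sum_pos (fun d _ => hC d) ⟨0, by simp⟩,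
    fun F _ _ hF m hm => ?_⟩
  have h1 := hb _ F rfl m hm
  have h2 : C (Module.finrank ℚ F) ≤ ∑ d ∈ Finset.range (n + 1), C d :=
    Finset.single_le_sum (fun d _ => (hC d).le) (Finset.mem_range.2 (by omega))
  refine (show rr F m ≤ C (Module.finrank ℚ F) * (m : ℝ) ^ ε from h1).trans ?_
  exact mul_le_mul_of_nonneg_right h2 (by positivity)

lemma ZB_rr_nonneg (F : Type) [Field F] [NumberField F] (m : ℕ) : 0 ≤ rr F m := Nat.cast_nonneg _

lemma ZB_term {F : Type} [Field F] [NumberField F] {C ε : ℝ} (hC : 0 < C)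
    (h : ∀ m : ℕ, 1 ≤ m → rr F m ≤ C * (m : ℝ) ^ ε) {s : ℂ} {σ : ℝ} (hσ : σ ≤ s.re) (hs : 0 < s.re)
    (m : ℕ) : ‖(rr F m : ℂ) * (m : ℂ) ^ (-s)‖ ≤ C * (m : ℝ) ^ (ε - σ) := by
  rcases Nat.eq_zero_or_pos m with h0 | h0
  · have h1 : (-s) ≠ 0 := by
      intro h2
      have h3 := congrArg Complex.re h2
      rw [neg_re, zero_re] at h3
      linarith
    rw [h0, Nat.cast_zero, zero_cpow h1, mul_zero, norm_zero]
    positivity
  · have hm : (0 : ℝ) < m := by exact_mod_cast h0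
    have hm1 : (1 : ℝ) ≤ m := by exact_mod_cast h0
    rw [norm_mul, Complex.norm_real, Real.norm_of_nonneg (ZB_rr_nonneg F m),
      Complex.norm_natCast_cpow_of_pos h0, neg_re, sub_eq_add_neg, Real.rpow_add hm, ← mul_assoc]
    apply mul_le_mul (h m h0) _ (by positivity) (by positivity)
    exact Real.rpow_le_rpow_of_exponent_le hm1 (by linarith)

lemma ZB_hasSum (F : Type) [Field F] [NumberField F] {s : ℂ} (hs : 1 < s.re) :
    HasSum (fun m : ℕ => (rr F m : ℂ) * (m : ℂ) ^ (-s)) (LI (one F) s) := by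
  rw [LI_one F hs]
  obtain ⟨ε, hε⟩ : ∃ ε, ε = (s.re - 1) / 2 := ⟨_, rfl⟩
  obtain ⟨C, hC, h⟩ := ZB_rm (Module.finrank ℚ F) ε (by rw [hε]; linarith)
  have hsum : Summable (fun m : ℕ => (rr F m : ℂ) * (m : ℂ) ^ (-s)) := by
    refine Summable.of_norm_bounded (g := fun m : ℕ => C * (m : ℝ) ^ (ε - s.re)) ?_
      (ZB_term hC (h F le_rfl) le_rfl (by linarith))
    exact (Real.summable_nat_rpow.2 (by rw [hε]; linarith)).mul_left _
  have h2 : dedekindZeta F s = ∑' m : ℕ, (rr F m : ℂ) * (m : ℂ) ^ (-s) := by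
    unfold dedekindZeta LSeries
    refine tsum_congr fun m => ?_
    rcases Nat.eq_zero_or_pos m with h0 | h0
    · have h1 : (-s) ≠ 0 := by
        intro h2
        have h3 := congrArg Complex.re h2
        rw [neg_re, zero_re] at h3
        linarith
      rw [h0, LSeries.term_zero, Nat.cast_zero, zero_cpow h1, mul_zero]
    · rw [LSeries.term_of_ne_zero h0.ne', cpow_neg, div_eq_mul_inv]
      unfold rr
      norm_cast
  rw [h2]
  exact hsum.hasSum

lemma ZB_LI (n : ℕ) : ∃ B : ℝ, 0 < B ∧ ∀ (F : Type) [Field F] [NumberField F],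
    Module.finrank ℚ F ≤ n → ∀ s : ℂ, 2 ≤ s.re → ‖LI (one F) s‖ ≤ B := by
  obtain ⟨C, hC, h⟩ := ZB_rm n (1 / 2) (by norm_num)
  have hsum : Summable (fun m : ℕ => C * (m : ℝ) ^ ((1 / 2 : ℝ) - 2)) :=
    (Real.summable_nat_rpow.2 (by norm_num)).mul_left _
  refine ⟨∑' m : ℕ, C * (m : ℝ) ^ ((1 / 2 : ℝ) - 2) + 1, ?_, fun F _ _ hF s hs => ?_⟩
  · have : 0 ≤ ∑' m : ℕ, C * (m : ℝ) ^ ((1 / 2 : ℝ) - 2) := tsum_nonneg fun m => by positivity
    linarith
  · have h1 := tsum_of_norm_bounded hsum.hasSum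
      (ZB_term hC (h F hF) hs (by linarith : 0 < s.re))
    rw [(ZB_hasSum F (by linarith : 1 < s.re)).tsum_eq] at h1
    linarith

/-! ### gamma factors -/

lemma ZB_Gamma {x : ℝ} (h1 : 1 ≤ x) (h2 : x ≤ 3) : Real.Gamma x ≤ 2 := by
  have h := Real.convexOn_Gamma.le_max_of_mem_Icc (x := 1) (y := 3) (z := x)
    (by simp) (by simp) ⟨h1, h2⟩
  have e3 : Real.Gamma 3 = 2 := by
    have h3 := Real.Gamma_nat_eq_factorial 2
    rw [show ((2 : ℕ) : ℝ) + 1 = 3 by norm_num] at h3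
    rw [h3]
    norm_num [Nat.factorial]
  rw [Real.Gamma_one, e3] at h
  refine h.trans ?_
  norm_num

lemma ZB_Gammaℝ {z : ℂ} (h1 : 2 ≤ z.re) (h2 : z.re ≤ 6) : ‖Gammaℝ z‖ ≤ 2 := by
  have e : (z / 2).re = z.re / 2 := by simp
  have e2 : (-z / 2).re = -(z.re / 2) := by simp; ring
  rw [Gammaℝ_def, norm_mul, Complex.norm_cpow_eq_rpow_re_of_pos Real.pi_pos, e2]
  have h3 : Real.pi ^ (-(z.re / 2)) ≤ 1 :=
    Real.rpow_le_one_of_one_le_of_nonpos (by linarith [Real.pi_gt_three]) (by linarith)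
  have h4 := Pool.Agent.TH270.MS.GrowL.norm_Gamma_le (z := z / 2) (by rw [e]; linarith)
  rw [e] at h4
  have h5 := ZB_Gamma (x := z.re / 2) (by linarith) (by linarith)
  calc Real.pi ^ (-(z.re / 2)) * ‖Gamma (z / 2)‖ ≤ 1 * 2 :=
        mul_le_mul h3 (h4.trans h5) (norm_nonneg _) zero_le_one
    _ = 2 := by norm_num

lemma ZB_GG {ι : Type} [Fintype ι] {R : ℝ} (hR : 1 ≤ R) {e : ι → ℕ} (he : ∀ i, e i ≤ 1) {s : ℂ}
    (h1 : 2 ≤ s.re) (h2 : s.re ≤ 4) : ‖GG R e s‖ ≤ R ^ 2 * 2 ^ Fintype.card ι := by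
  unfold GG
  rw [norm_mul, norm_prod, Complex.norm_cpow_eq_rpow_re_of_pos (by linarith)]
  have e1 : (s / 2).re = s.re / 2 := by simp
  rw [e1]
  have h3 : R ^ (s.re / 2) ≤ R ^ 2 := by
    rw [← Real.rpow_natCast R 2]
    exact Real.rpow_le_rpow_of_exponent_le hR (by push_cast; linarith)
  have h4 : ∏ i, ‖Gammaℝ (s + e i)‖ ≤ 2 ^ Fintype.card ι := by
    calc ∏ i, ‖Gammaℝ (s + e i)‖ ≤ ∏ _i : ι, (2 : ℝ) := by
          refine Finset.prod_le_prod (fun _ _ => norm_nonneg _) fun i _ => ?_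
          have h5 : ((e i : ℕ) : ℝ) ≤ 1 := by exact_mod_cast he i
          have h6 : (0 : ℝ) ≤ e i := Nat.cast_nonneg _
          apply ZB_Gammaℝ
          · rw [add_re, natCast_re]; linarith
          · rw [add_re, natCast_re]; linarith
      _ = _ := by rw [Finset.prod_const, Finset.card_univ]
  exact mul_le_mul h3 h4 (Finset.prod_nonneg fun _ _ => norm_nonneg _) (by positivity)

/-! ### the strip -/

lemma ZB_exp (t : ℝ) : (3 + |t|) ^ 2 * Real.exp (4 - t ^ 2) ≤ 16 * Real.exp 4 := by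
  have h1 : 3 + |t| ≤ 4 * Real.exp (t ^ 2 / 2) := by
    have h2 := Real.add_one_le_exp (t ^ 2 / 2)
    have h3 : t ^ 2 = |t| ^ 2 := (sq_abs t).symm
    nlinarith [abs_nonneg t, sq_nonneg (|t| - 1 / 4)]
  have h4 : (3 + |t|) ^ 2 ≤ 16 * Real.exp (t ^ 2) := by
    calc (3 + |t|) ^ 2 ≤ (4 * Real.exp (t ^ 2 / 2)) ^ 2 :=
          pow_le_pow_left₀ (by positivity) h1 2
      _ = 16 * Real.exp (t ^ 2) := by
          rw [mul_pow, ← Real.exp_nat_mul]
          congr 2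
          · norm_num
          · push_cast; ring
  calc (3 + |t|) ^ 2 * Real.exp (4 - t ^ 2) ≤ 16 * Real.exp (t ^ 2) * Real.exp (4 - t ^ 2) :=
        mul_le_mul_of_nonneg_right h4 (Real.exp_pos _).le
    _ = 16 * Real.exp 4 := by
        rw [mul_assoc, ← Real.exp_add]
        congr 2
        ring

lemma ZB_norm_exp (s : ℂ) : ‖Complex.exp (s ^ 2)‖ = Real.exp (s.re ^ 2 - s.im ^ 2) := by
  rw [Complex.norm_exp]
  congr 1
  rw [sq, mul_re]
  ring

lemma ZB_norm_le {s : ℂ} (h1 : -1 ≤ s.re) (h2 : s.re ≤ 2) : 1 + ‖s‖ ≤ 3 + |s.im| := by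
  have h := Complex.norm_le_abs_re_add_abs_im s
  have h3 : |s.re| ≤ 2 := abs_le.2 ⟨by linarith, h2⟩
  linarith

lemma ZB_pt {s : ℂ} {B u : ℝ} (hB : 0 ≤ B) (h1 : -1 ≤ s.re) (h2 : s.re ≤ 2)
    (h : u ≤ B * (3 + |s.im|) ^ 2) : u * Real.exp (s.re ^ 2 - s.im ^ 2) ≤
      B * (16 * Real.exp 4) := by
  have h3 : Real.exp (s.re ^ 2 - s.im ^ 2) ≤ Real.exp (4 - s.im ^ 2) := by
    apply Real.exp_le_exp.2
    nlinarith
  calc u * Real.exp (s.re ^ 2 - s.im ^ 2) ≤ B * (3 + |s.im|) ^ 2 * Real.exp (s.re ^ 2 - s.im ^ 2) :=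
        mul_le_mul_of_nonneg_right h (Real.exp_pos _).le
    _ ≤ B * (3 + |s.im|) ^ 2 * Real.exp (4 - s.im ^ 2) :=
        mul_le_mul_of_nonneg_left h3 (by positivity)
    _ = B * ((3 + |s.im|) ^ 2 * Real.exp (4 - s.im ^ 2)) := by ring
    _ ≤ _ := mul_le_mul_of_nonneg_left (ZB_exp _) hB

lemma ZB_strip {U : ℂ → ℂ} {w : ℂ} (hU : Differentiable ℂ U) (hw : ‖w‖ = 1)
    (hfe : ∀ s, U s = w * (starRingEnd ℂ) (U (1 - (starRingEnd ℂ) s)))
    (hb : ∀ a b : ℝ, ∃ C : ℝ, 0 ≤ C ∧ ∀ s : ℂ, a ≤ s.re → s.re ≤ b → ‖U s‖ ≤ C * (1 + ‖s‖) ^ 2)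
    {B : ℝ} (hB0 : 0 ≤ B) (hB : ∀ s : ℂ, s.re = 2 → ‖U s‖ ≤ B * (1 + ‖s‖) ^ 2) {s : ℂ}
    (h1 : -1 ≤ s.re) (h2 : s.re ≤ 2) :
    ‖U s‖ * Real.exp (s.re ^ 2 - s.im ^ 2) ≤ B * (16 * Real.exp 4) := by
  obtain ⟨C, hC, hCb⟩ := hb (-1) 2
  have hh : ∀ z : ℂ, ‖U z * Complex.exp (z ^ 2)‖ = ‖U z‖ * Real.exp (z.re ^ 2 - z.im ^ 2) := by
    intro z
    rw [norm_mul, ZB_norm_exp]
  rw [← hh]
  refine PhragmenLindelof.vertical_strip (f := fun z => U z * Complex.exp (z ^ 2)) (a := -1) (b := 2)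
    ?_ ?_ ?_ ?_ h1 h2
  · apply Differentiable.diffContOnCl
    exact hU.mul ((differentiable_id.pow 2).cexp)
  · refine ⟨0, by have := Real.pi_pos; positivity, 0, ?_⟩
    refine Asymptotics.IsBigO.of_bound (C * (16 * Real.exp 4)) ?_
    rw [eventually_inf_principal]
    refine Eventually.of_forall fun z hz => ?_
    have hz1 : -1 ≤ z.re := (mem_preimage.1 hz).1.le
    have hz2 : z.re ≤ 2 := (mem_preimage.1 hz).2.le
    rw [hh]
    have h3 : ‖U z‖ ≤ C * (3 + |z.im|) ^ 2 := (hCb z hz1 hz2).trans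
      (mul_le_mul_of_nonneg_left (pow_le_pow_left₀ (by positivity) (ZB_norm_le hz1 hz2) 2) hC)
    have h4 := ZB_pt hC hz1 hz2 h3
    simpa using h4
  · intro z hz
    rw [hh]
    have hz1 : -1 ≤ z.re := hz.ge
    have hz2 : z.re ≤ 2 := by linarith
    apply ZB_pt hB0 hz1 hz2
    have h5 : (1 - (starRingEnd ℂ) z).re = 2 := by
      rw [sub_re, one_re, conj_re, hz]; norm_num
    have h6 : (1 - (starRingEnd ℂ) z).im = z.im := by
      rw [sub_im, one_im, conj_im]; ring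
    rw [hfe z, norm_mul, hw, one_mul, RCLike.norm_conj]
    refine (hB _ h5).trans ?_
    have h7 := ZB_norm_le (s := 1 - (starRingEnd ℂ) z) (by linarith) (by linarith)
    rw [h6] at h7
    exact mul_le_mul_of_nonneg_left (pow_le_pow_left₀ (by positivity) h7 2) hB0
  · intro z hz
    rw [hh]
    have hz1 : -1 ≤ z.re := by linarith
    apply ZB_pt hB0 hz1 hz.le
    refine (hB _ hz).trans ?_
    exact mul_le_mul_of_nonneg_left
      (pow_le_pow_left₀ (by positivity) (ZB_norm_le hz1 hz.le) 2) hB0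

/-! ### the inverse gamma factors -/

lemma ZB_Gi : ∃ M : ℝ, 1 ≤ M ∧ ∀ s : ℂ, ‖s - 2‖ ≤ 3 / 2 → ∀ k : ℕ, k ≤ 1 →
    ‖(Gammaℝ (s + k))⁻¹‖ ≤ M := by
  have hc : ∀ k : ℕ, ∃ M : ℝ, ∀ s ∈ Metric.closedBall (2 : ℂ) (3 / 2), ‖(Gammaℝ (s + k))⁻¹‖ ≤ M := by
    intro k
    apply (isCompact_closedBall (2 : ℂ) (3 / 2)).exists_bound_of_continuousOn
    exact (differentiable_Gammaℝ_inv.comp (differentiable_id.add_const (k : ℂ))).continuous.continuousOn
  obtain ⟨M0, h0⟩ := hc 0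
  obtain ⟨M1, h1⟩ := hc 1
  refine ⟨max 1 (max M0 M1), le_max_left _ _, fun s hs k hk => ?_⟩
  have hs' : s ∈ Metric.closedBall (2 : ℂ) (3 / 2) := by
    rw [Metric.mem_closedBall, dist_eq_norm]; exact hs
  have hk' : k = 0 ∨ k = 1 := by omega
  rcases hk' with rfl | rfl
  · exact (h0 s hs').trans ((le_max_left _ _).trans (le_max_right _ _))
  · exact (h1 s hs').trans ((le_max_right _ _).trans (le_max_right _ _))

/-! ### the statement -/

theorem t_ZB : S_ZB := by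
  classical
  intro n
  obtain ⟨B, hB0, hB⟩ := ZB_LI n
  obtain ⟨M, hM1, hM⟩ := ZB_Gi
  -- the constants
  set K1 : ℝ := 2 ^ n * B with hK1
  have hK1p : 0 < K1 := by positivity
  set K2 : ℝ := K1 * (16 * Real.exp 4) * Real.exp (9 / 4) + 25 * K1 with hK2
  have hK2p : 0 < K2 := by positivity
  refine ⟨2 * (K2 * M ^ n), 2, by positivity, by norm_num, fun F _ _ hF => ?_⟩
  -- the trivial character
  have hUC : Pool.Agent.Q246.Unr.UC (fun _ : InfinitePlace F => 0) (one F) := by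
    refine ⟨fun _ => by norm_num, fun _ _ => rfl, fun 𝔞 h => ?_, fun x hx => ?_⟩
    · rw [one_ne F (by rwa [Ideal.zero_eq_bot])]
      exact one_ne_zero
    · have h1 : (Ideal.span {x} : Ideal (𝓞 F)) ≠ 0 := by
        rw [Ideal.zero_eq_bot, Ne, Ideal.span_singleton_eq_bot]
        exact hx
      rw [one_ne F h1]
      unfold Pool.Agent.Y773.G.sg
      simp
  obtain ⟨U, w, hU, hw, hUL, hfe, hbd⟩ := hUC.fe
  have ht : Pool.Agent.Q246.Unr.Triv (one F) := fun 𝔞 h => one_ne F (by rwa [Ideal.zero_eq_bot])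
  set e : (F →+* ℂ) → ℕ := ex (fun _ : InfinitePlace F => 0) with he
  have he1 : ∀ i, e i ≤ 1 := ex_le (fun _ => by norm_num)
  set R : ℝ := (Ideal.absNorm (differentIdeal ℤ (𝓞 F)) : ℝ) with hR
  have hUL' : ∀ s : ℂ, 1 < s.re → U s = (s * (s - 1)) * (GG R e s * LI (one F) s) := by
    intro s hs
    have h1 := hUL s hs
    rwa [if_pos ht, pow_one] at h1
  have hRd : R = |(discr F : ℝ)| := by
    rw [hR, absNorm_differentIdeal (K := F), Nat.cast_natAbs]
    push_cast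
    rfl
  have hR1 : 1 ≤ R := by
    have h1 : Ideal.absNorm (differentIdeal ℤ (𝓞 F)) ≠ 0 := by
      rw [Ne, Ideal.absNorm_eq_zero_iff]
      exact differentIdeal_ne_bot
    rw [hR]
    exact_mod_cast Nat.pos_of_ne_zero h1
  have hR0 : 0 < R := by linarith
  have hR0c : (R : ℂ) ≠ 0 := by exact_mod_cast hR0.ne'
  have hcard : Fintype.card (F →+* ℂ) ≤ n := by
    rw [Embeddings.card F ℂ]
    exact hF
  -- on the half plane
  have hGL : ∀ s : ℂ, 2 ≤ s.re → s.re ≤ 4 → ‖U s‖ ≤ R ^ 2 * K1 * (1 + ‖s‖) ^ 2 := by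
    intro s h1 h2
    rw [hUL' s (by linarith), norm_mul, norm_mul, norm_mul]
    have h3 : ‖s - 1‖ ≤ 1 + ‖s‖ := by
      refine (norm_sub_le _ _).trans ?_
      rw [norm_one, add_comm]
    have h4 : ‖s‖ ≤ 1 + ‖s‖ := by linarith
    have h5 : ‖GG R e s‖ ≤ R ^ 2 * 2 ^ n := (ZB_GG hR1 he1 h1 h2).trans
      (mul_le_mul_of_nonneg_left (pow_le_pow_right₀ (by norm_num) hcard) (by positivity))
    have h6 := hB F hF s h1
    calc ‖s‖ * ‖s - 1‖ * (‖GG R e s‖ * ‖LI (one F) s‖) ≤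
        (1 + ‖s‖) * (1 + ‖s‖) * (R ^ 2 * 2 ^ n * B) := by
          apply mul_le_mul (mul_le_mul h4 h3 (norm_nonneg _) (by positivity)) _ (by positivity)
            (by positivity)
          exact mul_le_mul h5 h6 (norm_nonneg _) (by positivity)
      _ = _ := by rw [hK1]; ring
  -- on the disc
  have hUd : ∀ s : ℂ, ‖s - 2‖ ≤ 3 / 2 → ‖U s‖ ≤ K2 * R ^ 2 := by
    intro s hs
    have hre := (abs_re_le_norm (s - 2)).trans hs
    have him := (abs_im_le_norm (s - 2)).trans hs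
    have e1 : (s - 2).re = s.re - 2 := by simp
    have e2 : (s - 2).im = s.im := by simp
    rw [e1, abs_le] at hre
    rw [e2] at him
    have him2 : s.im ^ 2 ≤ 9 / 4 := by
      rw [← sq_abs]
      nlinarith [abs_nonneg s.im]
    rcases le_total s.re 2 with h2 | h2
    · have h3 := ZB_strip hU hw hfe hbd (B := R ^ 2 * K1) (by positivity)
        (fun z hz => hGL z hz.ge (by linarith)) (s := s) (by linarith [hre.1]) h2
      have h4 : ‖U s‖ ≤ R ^ 2 * K1 * (16 * Real.exp 4) * Real.exp (9 / 4) := by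
        have h5 : ‖U s‖ = ‖U s‖ * Real.exp (s.re ^ 2 - s.im ^ 2) * Real.exp (s.im ^ 2 - s.re ^ 2) := by
          rw [mul_assoc, ← Real.exp_add]
          ring_nf
          rw [Real.exp_zero, mul_one]
        rw [h5]
        apply mul_le_mul h3 _ (Real.exp_pos _).le (by positivity)
        apply Real.exp_le_exp.2
        nlinarith [sq_nonneg s.re]
      refine h4.trans ?_
      rw [hK2]
      have : 0 ≤ 25 * K1 * R ^ 2 := by positivity
      nlinarith
    · have h3 := hGL s h2 (by linarith [hre.2])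
      have h4 : 1 + ‖s‖ ≤ 5 := by
        have h5 : ‖s‖ ≤ ‖s - 2‖ + ‖(2 : ℂ)‖ := by
          have := norm_add_le (s - 2) 2
          rwa [sub_add_cancel] at this
        have h6 : ‖(2 : ℂ)‖ = 2 := by norm_num
        rw [h6] at h5
        linarith
      have h7 : (1 + ‖s‖) ^ 2 ≤ 25 := by
        nlinarith [norm_nonneg s]
      calc ‖U s‖ ≤ R ^ 2 * K1 * (1 + ‖s‖) ^ 2 := h3
        _ ≤ R ^ 2 * K1 * 25 := mul_le_mul_of_nonneg_left h7 (by positivity)
        _ ≤ K2 * R ^ 2 := by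
            rw [hK2]
            have : 0 ≤ K1 * (16 * Real.exp 4) * Real.exp (9 / 4) * R ^ 2 := by positivity
            nlinarith
  -- the inverse of the gamma factor
  set Gi : ℂ → ℂ := fun s => (R : ℂ) ^ (-(s / 2)) * ∏ i, (Gammaℝ (s + e i))⁻¹ with hGi
  have hGid : Differentiable ℂ Gi := by
    apply Differentiable.mul
    · intro s
      exact ((differentiableAt_id.div_const 2).neg).const_cpow (Or.inl hR0c)
    · refine Differentiable.fun_finsetProd fun i _ => ?_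
      exact differentiable_Gammaℝ_inv.comp (differentiable_id.add_const _)
  have hre : ∀ s : ℂ, 0 < s.re → ∀ i, Gammaℝ (s + e i) ≠ 0 := by
    intro s hs i
    refine Gammaℝ_ne_zero_of_re_pos ?_
    rw [add_re, natCast_re]
    have : (0 : ℝ) ≤ e i := Nat.cast_nonneg _
    linarith
  have hGG : ∀ s : ℂ, 0 < s.re → GG R e s * Gi s = 1 := by
    intro s hs
    rw [hGi]
    unfold GG
    have h1 : (R : ℂ) ^ (s / 2) * (R : ℂ) ^ (-(s / 2)) = 1 := by
      rw [← Complex.cpow_add _ _ hR0c, add_neg_cancel, Complex.cpow_zero]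
    have h2 : (∏ i, Gammaℝ (s + e i)) * ∏ i, (Gammaℝ (s + e i))⁻¹ = 1 := by
      rw [← Finset.prod_mul_distrib]
      exact Finset.prod_eq_one fun i _ => mul_inv_cancel₀ (hre s hs i)
    calc _ = ((R : ℂ) ^ (s / 2) * (R : ℂ) ^ (-(s / 2))) *
        ((∏ i, Gammaℝ (s + e i)) * ∏ i, (Gammaℝ (s + e i))⁻¹) := by ring
      _ = 1 := by rw [h1, h2, one_mul]
  have hGib : ∀ s : ℂ, ‖s - 2‖ ≤ 3 / 2 → ‖Gi s‖ ≤ M ^ n := by
    intro s hs
    have hre' := (abs_re_le_norm (s - 2)).trans hs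
    have e1 : (s - 2).re = s.re - 2 := by simp
    rw [e1, abs_le] at hre'
    rw [hGi]
    simp only
    rw [norm_mul, norm_prod, Complex.norm_cpow_eq_rpow_re_of_pos hR0]
    have h1 : (-(s / 2)).re = -(s.re / 2) := by simp
    rw [h1]
    have h2 : R ^ (-(s.re / 2)) ≤ 1 :=
      Real.rpow_le_one_of_one_le_of_nonpos hR1 (by linarith [hre'.1])
    have h3 : ∏ i, ‖(Gammaℝ (s + e i))⁻¹‖ ≤ M ^ n := by
      calc ∏ i, ‖(Gammaℝ (s + e i))⁻¹‖ ≤ ∏ _i : (F →+* ℂ), M :=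
            Finset.prod_le_prod (fun _ _ => norm_nonneg _) fun i _ => hM s hs (e i) (he1 i)
        _ = M ^ Fintype.card (F →+* ℂ) := by rw [Finset.prod_const, Finset.card_univ]
        _ ≤ M ^ n := pow_le_pow_right₀ hM1 hcard
    calc R ^ (-(s.re / 2)) * ∏ i, ‖(Gammaℝ (s + e i))⁻¹‖ ≤ 1 * M ^ n :=
          mul_le_mul h2 h3 (Finset.prod_nonneg fun _ _ => norm_nonneg _) zero_le_one
      _ = M ^ n := one_mul _
  -- the function
  have hgL : ∀ s : ℂ, 1 < s.re → U s * Gi s / s / (s - 1) = LI (one F) s := by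
    intro s hs
    have hs0 : s ≠ 0 := by
      rintro rfl
      simp at hs
      linarith
    have hs1 : s - 1 ≠ 0 := by
      intro h
      have h2 : s = 1 := by linear_combination h
      rw [h2] at hs
      simp at hs
    have h1 := hGG s (by linarith)
    rw [hUL' s hs, div_div, div_eq_iff (mul_ne_zero hs0 hs1)]
    linear_combination (s * (s - 1) * LI (one F) s) * h1
  refine ⟨fun s => U s * Gi s / s, ?_, ?_, ?_, ?_⟩
  · intro s hs
    have hs0 : s ≠ 0 := by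
      rintro rfl
      simp at hs
    exact (((hU s).mul (hGid s)).div differentiableAt_id hs0).differentiableWithinAt
  · intro s hs
    simp only
    rw [hgL s hs]
    exact ZB_hasSum F hs
  · have hcont : ContinuousAt (fun s : ℂ => U s * Gi s / s) 1 :=
      (((hU 1).mul (hGid 1)).div differentiableAt_id one_ne_zero).continuousAt
    have ht : Tendsto (fun s : ℝ => (s : ℂ)) (𝓝[>] 1) (𝓝 (1 : ℂ)) := by
      have h0 := (continuous_ofReal.tendsto (1 : ℝ))
      rw [ofReal_one] at h0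
      exact h0.mono_left nhdsWithin_le_nhds
    have h3 := hcont.tendsto.comp ht
    have h4 := tendsto_sub_one_mul_dedekindZeta_nhdsGT F
    have h5 : Tendsto (fun s : ℝ => ((s : ℂ) - 1) * dedekindZeta F s) (𝓝[>] 1)
        (𝓝 (U 1 * Gi 1 / 1)) := by
      refine h3.congr' ?_
      filter_upwards [self_mem_nhdsWithin] with s hs
      have hs1 : (1 : ℝ) < s := hs
      have hs' : 1 < (s : ℂ).re := by rwa [ofReal_re]
      have hs0 : (s : ℂ) - 1 ≠ 0 := by
        intro h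
        have h2 := congrArg Complex.re h
        rw [sub_re, ofReal_re, one_re, zero_re] at h2
        linarith
      simp only [Function.comp_apply]
      rw [← LI_one F hs', ← hgL s hs']
      field_simp
    exact tendsto_nhds_unique h5 h4
  · intro s hs
    simp only
    have h1 : 1 / 2 ≤ ‖s‖ := by
      have hre' := (abs_re_le_norm (s - 2)).trans hs
      have e1 : (s - 2).re = s.re - 2 := by simp
      rw [e1, abs_le] at hre'
      exact (by linarith [hre'.1] : (1 / 2 : ℝ) ≤ s.re).trans (re_le_norm s)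
    rw [norm_div, norm_mul, div_le_iff₀ (by linarith)]
    have h2 : ‖U s‖ * ‖Gi s‖ ≤ K2 * R ^ 2 * M ^ n :=
      mul_le_mul (hUd s hs) (hGib s hs) (norm_nonneg _) (by positivity)
    rw [← hRd, show (2 : ℝ) = ((2 : ℕ) : ℝ) by norm_num, Real.rpow_natCast]
    have h3 : 0 ≤ K2 * R ^ 2 * M ^ n := by positivity
    push_cast
    nlinarith

end Pool.Agent.H514.GE
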