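import Pool.Agent.H514.GE.Ref
import Pool.Agent.H514.GE.Tr
import Pool.Agent.H514.GE.DIC
import Pool.Agent.H514.GE.SPL
import Pool.Agent.H514.GE.SEPB
import Pool.Agent.H514.GE.SEPA
import Pool.Agent.H514.GE.SMK
import Pool.Agent.H514.GE.NT
import Pool.Agent.H514.GE.LBP
import Pool.Agent.H514.GE.LB
import Pool.Agent.H514.GE.CNT
import Pool.Agent.H514.GE.CB
import Pool.Agent.H514.GE.CA
import Pool.Agent.H514.GE.STEP
import Pool.Agent.H514.GE.GE
import Pool.Agent.H514.GE.TH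
import Pool.Agent.H514.GE.SIX
import Pool.Agent.H514.GE.ZB
import Pool.Graph.R_pool_sql_team_seeded_efc1946e.K1H26.GE.PrmCore
import Pool.Graph.R_pool_sql_team_seeded_efc1946e.K1H9.GE.Conv
import Pool.Graph.R_pool_sql_team_seeded_efc1946e.K1H87.GE.TaylorTA
import Pool.Graph.R_pool_sql_team_seeded_efc1946e.K1H33.RM.Task
import Pool.Graph.R_pool_sql_team_seeded_efc1946e.K1H39.GE.Sub
import Pool.Graph.R_pool_sql_team_seeded_efc1946e.K1H79.SX.All
import Pool.Graph.R_pool_sql_team_seeded_efc1946e.K1H79.SX.Triv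
import Pool.Graph.R_pool_sql_team_seeded_efc1946e.K1H37.SX.S3
import Pool.Graph.R_pool_sql_team_seeded_efc1946e.K1H79.Q3.All

/-! # Assembly

Owner helper514. -/

set_option autoImplicit false

namespace Pool.Agent.H514.GE

open NumberField Pool.Agent.K1H79.GE
open scoped Classical nonZeroDivisors

theorem g_LB : S_LB := t_LBof t_LBP t_NT

theorem g_PRIM : S_PRIM :=
  Pool.Agent.K1H26.GE.core Pool.Agent.K1H9.GE.t_CONV Pool.Agent.K1H87.GE.t_TA g_LB Pool.Agent.K1H33.RM.t_RM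

theorem g_STEP : S_STEP :=
  t_STEPof g_PRIM (t_DICof t_SPL) (t_CAof t_SEPA t_SMK t_CNT) (t_CBof t_SEPB t_CNT) t_REF

theorem g_GE : S_GE := t_GEof g_STEP Pool.Agent.K1H39.GE.t_SUB Pool.Agent.K1H79.SX.t_TRIV

theorem g_GER : Pool.Agent.K1H79.SX.S_GER := Pool.Agent.K1H79.SX.ger_of Pool.Agent.K1H37.SX.t_S3of

theorem g_TH : S_TH := t_THof g_GE g_GER Pool.Agent.K1H79.SX.t_TRIV t_DSC

theorem g_SIX : S_SIX := t_SIXof g_TH g_GER Pool.Agent.K1H79.Q3.qw

theorem g_T : Pool.Agent.K1H79.TW.S_T := t_Tof' t_ZB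

end Pool.Agent.H514.GE

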