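import Pool.Agent.H514.GE.UU

/-! # Towers of cubic extensions over a field with small discriminant

Owner helper514. -/

set_option autoImplicit false

namespace Pool.Agent.H514.GE

open NumberField Pool.Agent.K1H79.GE
open scoped Classical nonZeroDivisors

open UU in
theorem t_CHNof2 : S_CHNof := by
  intro hCUB hT hTRIV n k hn
  induction k with
  | zero =>
    obtain ⟨C, hC, h⟩ := hTRIV n
    refine ⟨1 / 2, 1 / 4, C, by norm_num, by norm_num, hC, ?_⟩
    intro L _ _ hL _ F hF hd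
    have hF' : F = ⊤ := hF
    have h1 : discr F = discr L := by
      rw [hF']
      exact NumberField.discr_eq_discr_of_algEquiv _ IntermediateField.topEquiv
    rw [h1] at hd
    obtain ⟨x, hx⟩ : ∃ x : ℝ, x = |(discr L : ℝ)| := ⟨_, rfl⟩
    have hx1 : 1 ≤ x := by rw [hx]; exact one_le_absdiscr L
    have h2 : (Nat.card {c : ClassGroup (𝓞 L) // c ^ 3 = 1} : ℝ) ≤ C * |(discr L : ℝ)| := h L hL
    rw [← hx] at hd h2 ⊢
    have h3 : x ≤ 1 := by
      by_contra hlt
      push Not at hlt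
      have h4 : x ^ (1 / 2 : ℝ) < x ^ (1 : ℝ) := Real.rpow_lt_rpow_of_exponent_lt hlt (by norm_num)
      rw [Real.rpow_one] at h4
      linarith
    have h5 : x = 1 := le_antisymm h3 hx1
    rw [h5] at h2 ⊢
    rw [Real.one_rpow]
    exact h2
  | succ k ih =>
    obtain ⟨κ1, δ1, C1, hκ1, hδ1, hC1, h1⟩ := ih
    choose κ δ C hκ hδ hC hmain using fun m : ℕ => hCUB (m + 1) (by omega)
    obtain ⟨κs, hκs, hκle⟩ := lower κ hκ n
    obtain ⟨δs, hδs, hδle⟩ := lower δ hδ n
    obtain ⟨Cs, hCs, hCle⟩ := upper C n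
    obtain ⟨C3, hC3, h3⟩ := hT n (κ1 * δs / 2) (by positivity)
    refine ⟨κ1 * κs, min δ1 (κ1 * δs / 2), max C1 (C3 * Cs), by positivity,
      lt_min hδ1 (by positivity), lt_max_of_lt_left hC1, ?_⟩
    intro L _ _ hL hno F hF hd
    obtain ⟨E, hFE, hE3, hTE⟩ := hF
    have hx1 := one_le_absdiscr L
    have hy1 := one_le_absdiscr E
    rcases le_or_gt (|(discr E : ℝ)|) (|(discr L : ℝ)| ^ κ1) with hs | hs
    · exact weaken hx1 (le_max_left _ _) (lt_max_of_lt_left hC1) (min_le_left _ _) (h1 L hL hno E hTE hs)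
    · refine weaken hx1 (le_max_right _ _) (lt_max_of_lt_left hC1) (min_le_right _ _) ?_
      let _ : Algebra F E := (IntermediateField.inclusion hFE).toRingHom.toAlgebra
      have hFpos : 0 < Module.finrank ℚ F := Module.finrank_pos
      have hFE3 : Module.finrank F E = 3 := by
        have h4 := Module.finrank_mul_finrank ℚ F E
        rw [hE3, mul_comm 3] at h4
        exact Nat.eq_of_mul_eq_mul_left hFpos h4
      have hEno : NoOm E := by
        intro z hz
        apply hno (z : L)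
        have := congrArg (fun t : E => (t : L)) hz
        simpa using this
      obtain ⟨m, hm⟩ : ∃ m : ℕ, Module.finrank ℚ F = m + 1 := ⟨Module.finrank ℚ F - 1, by omega⟩
      have hmn : m ≤ n := by
        have h4 := Module.finrank_mul_finrank ℚ F L
        have h5 : 0 < Module.finrank F L := Module.finrank_pos
        have h6 : Module.finrank ℚ F ≤ n := by
          rw [← hL, ← h4]
          exact Nat.le_mul_of_pos_right _ h5
        omega
      obtain ⟨x, hx⟩ : ∃ x : ℝ, x = |(discr L : ℝ)| := ⟨_, rfl⟩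
      obtain ⟨y, hy⟩ : ∃ y : ℝ, y = |(discr E : ℝ)| := ⟨_, rfl⟩
      rw [← hx] at hd hs hx1 ⊢
      rw [← hy] at hs hy1
      have hx0 : 0 < x := by linarith
      have hy0 : 0 < y := by linarith
      have hdF : |(discr F : ℝ)| ≤ |(discr E : ℝ)| ^ κ m := by
        rw [← hy]
        calc |(discr F : ℝ)| ≤ x ^ (κ1 * κs) := hd
          _ = (x ^ κ1) ^ κs := Real.rpow_mul hx0.le _ _
          _ ≤ y ^ κs := Real.rpow_le_rpow (by positivity) hs.le hκs.le
          _ ≤ y ^ κ m := Real.rpow_le_rpow_of_exponent_le hy1 (hκle m hmn)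
      have h7 := hmain m F E hm hFE3 hEno hdF
      have h8 : (Nat.card {c : ClassGroup (𝓞 E) // c ^ 3 = 1} : ℝ) ≤ Cs * y ^ (1 / 2 - δs : ℝ) := by
        rw [hy]
        exact weaken (by rw [← hy]; exact hy1) (hCle m hmn) hCs (hδle m hmn) h7
      have h9 : (Nat.card {c : ClassGroup (𝓞 L) // c ^ 3 = 1} : ℝ) ≤
          C3 * |(discr L : ℝ)| ^ (κ1 * δs / 2) * √(|(discr L : ℝ)| / |(discr E : ℝ)|) *
            (Nat.card {c : ClassGroup (𝓞 E) // c ^ 3 = 1} : ℝ) := h3 E L hL
      rw [← hx, ← hy] at h9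
      have h10 : √(x / y) = x ^ (1 / 2 : ℝ) * y ^ (-(1 / 2) : ℝ) := by
        rw [Real.sqrt_eq_rpow, Real.div_rpow hx0.le hy0.le, Real.rpow_neg hy0.le, div_eq_mul_inv]
      have h11 : y ^ (-δs) ≤ x ^ (-(κ1 * δs)) := by
        calc y ^ (-δs) ≤ (x ^ κ1) ^ (-δs) :=
              Real.rpow_le_rpow_of_nonpos (by positivity) hs.le (by linarith)
          _ = x ^ (-(κ1 * δs)) := by
              rw [← Real.rpow_mul hx0.le]
              congr 1
              ring
      calc (Nat.card {c : ClassGroup (𝓞 L) // c ^ 3 = 1} : ℝ)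
          ≤ C3 * x ^ (κ1 * δs / 2) * √(x / y) * (Nat.card {c : ClassGroup (𝓞 E) // c ^ 3 = 1} : ℝ) := h9
        _ ≤ C3 * x ^ (κ1 * δs / 2) * √(x / y) * (Cs * y ^ (1 / 2 - δs : ℝ)) :=
            mul_le_mul_of_nonneg_left h8 (by positivity)
        _ = C3 * Cs * (x ^ (κ1 * δs / 2) * x ^ (1 / 2 : ℝ)) * (y ^ (-(1 / 2) : ℝ) * y ^ (1 / 2 - δs : ℝ)) := by
            rw [h10]; ring
        _ = C3 * Cs * (x ^ (κ1 * δs / 2 + 1 / 2)) * y ^ (-δs) := by
            rw [← Real.rpow_add hx0, ← Real.rpow_add hy0]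
            congr 2
            ring
        _ ≤ C3 * Cs * (x ^ (κ1 * δs / 2 + 1 / 2)) * x ^ (-(κ1 * δs)) :=
            mul_le_mul_of_nonneg_left h11 (by positivity)
        _ = C3 * Cs * (x ^ (κ1 * δs / 2 + 1 / 2) * x ^ (-(κ1 * δs))) := by ring
        _ = C3 * Cs * x ^ (1 / 2 - κ1 * δs / 2 : ℝ) := by
            rw [← Real.rpow_add hx0]
            congr 2
            ring

end Pool.Agent.H514.GE

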