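import Pool.Agent.H514.GE.Stm3
import Pool.Graph.R_pool_sql_team_seeded_efc1946e.K1H79.SX.Cmp

/-! # A field generated by subfields has a large one among them

Owner helper514. -/

set_option autoImplicit false

namespace Pool.Agent.H514.GE

open NumberField Pool.Agent.K1H79.GE Pool.Agent.K1H79.SX
open scoped Classical nonZeroDivisors

theorem t_CMPof (hSUB : S_SUB) : S_CMP := by
  intro n
  obtain ⟨C0, hC0, h0⟩ := hSUB n
  refine ⟨C0 / 2, C0 * (2 ^ n + 2) ^ C0, by positivity, by positivity, ?_⟩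
  intro L _ _ hL hn T hT
  have hfin : Finite (IntermediateField ℚ L) :=
    Field.finite_intermediateField_of_exists_primitive_element ℚ L (Field.exists_primitive_element ℚ L)
  have hTfin : T.Finite := Set.toFinite T
  have hTne : T.Nonempty := by
    rw [Set.nonempty_iff_ne_empty]
    intro h
    rw [h, sSup_empty] at hT
    have h1 : Module.finrank ℚ (⊤ : IntermediateField ℚ L) = n := by
      rw [IntermediateField.finrank_top', hL]
    rw [← hT, IntermediateField.finrank_bot] at h1
    omega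
  obtain ⟨E0, hE0, hmax⟩ := Set.exists_max_image T (fun E : IntermediateField ℚ L => |(discr E : ℝ)|)
    hTfin hTne
  refine ⟨E0, hE0, ?_⟩
  obtain ⟨D, hD⟩ : ∃ D : ℝ, D = |(discr E0 : ℝ)| := ⟨_, rfl⟩
  have hD1 : 1 ≤ D := by
    rw [hD]
    have := Int.one_le_abs (discr_ne_zero E0)
    exact_mod_cast this
  have hs1 : 1 ≤ √D := Real.one_le_sqrt.2 hD1
  have hP : (1 : ℝ) ≤ 2 ^ n + 2 := by
    have : (0 : ℝ) ≤ 2 ^ n := by positivity
    linarith
  obtain ⟨H, hH⟩ : ∃ H : ℝ, H = (2 ^ n + 2) * √D := ⟨_, rfl⟩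
  have hH1 : 1 ≤ H := by rw [hH]; exact one_le_mul_of_one_le_of_one_le hP hs1
  have hle : ∀ E ∈ T, E ≤ Hs L H := by
    intro E hE x hx
    obtain ⟨a, ha, ha'⟩ := prim_small E
    have hEn : Module.finrank ℚ E ≤ n := by
      rw [← hL, ← Module.finrank_mul_finrank ℚ E L]
      exact Nat.le_mul_of_pos_right _ Module.finrank_pos
    refine mem_Hs (K := L) ha (H := H) ?_ (⟨x, hx⟩ : E)
    intro w
    refine (ha' w).trans ?_
    rw [hH]
    apply mul_le_mul _ _ (Real.sqrt_nonneg _) (by linarith)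
    · have : (2 : ℝ) ^ Module.finrank ℚ E ≤ 2 ^ n := pow_le_pow_right₀ (by norm_num) hEn
      linarith
    · apply Real.sqrt_le_sqrt
      rw [hD]
      exact hmax E hE
  have htop : Hs L H = ⊤ := by
    rw [eq_top_iff, ← hT]
    exact sSup_le hle
  have h1 := h0 L hL H hH1
  have h2 : discr (Hs L H) = discr L := by
    rw [htop]
    exact NumberField.discr_eq_discr_of_algEquiv _ IntermediateField.topEquiv
  rw [h2, hH, Real.mul_rpow (by linarith) (Real.sqrt_nonneg _), ← mul_assoc] at h1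
  refine h1.trans (le_of_eq ?_)
  rw [← hD, Real.sqrt_eq_rpow, ← Real.rpow_mul (by linarith)]
  congr 2
  ring

end Pool.Agent.H514.GE

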