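import Pool.Agent.H514.GE.Stm2
import Pool.Graph.R_pool_sql_team_seeded_efc1946e.K1H79.SX.Cmp

/-! # Cubic extensions of fields with small discriminant (helper296, for helper514) -/

set_option autoImplicit false

namespace Pool.Agent.H514.GE

open NumberField Pool.Agent.K1H79.GE Pool.Agent.K1H79.SX
open scoped Classical nonZeroDivisors

namespace CUB

theorem top_discr {L : Type} [Field L] [NumberField L] (F : IntermediateField ℚ L)
    (h : Module.finrank F L = 1) : discr F = discr L := by
  have h1 : F = ⊤ := IntermediateField.finrank_eq_one_iff_eq_top.1 h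
  subst h1
  exact NumberField.discr_eq_discr_of_algEquiv _ IntermediateField.topEquiv

theorem one_le_disc (L : Type) [Field L] [NumberField L] : 1 ≤ |(discr L : ℝ)| := by
  have h : 1 ≤ |discr L| := Int.one_le_abs (discr_ne_zero L)
  exact_mod_cast h

/-- GE with a bounded saving -/
theorem ge' (hGE : S_GE) (n : ℕ) (hn : Even n) (hn2 : 2 ≤ n) (η : ℝ) (hη : 0 < η) :
    ∃ δ C : ℝ, 0 < δ ∧ δ ≤ 1 / 4 ∧ 0 < C ∧
    ∀ (L : Type) [Field L] [NumberField L], Module.finrank ℚ L = n → NoOm L →
      (∀ F : IntermediateField ℚ L, Odd (Module.finrank F L) →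
        |(discr L : ℝ)| ^ η ≤ |(discr F : ℝ)|) →
      (h3 L : ℝ) ≤ C * |(discr L : ℝ)| ^ (1 / 2 - δ : ℝ) := by
  obtain ⟨δ, C, hδ, hC, h⟩ := hGE n hn hn2 η hη
  refine ⟨min δ (1 / 4), C, lt_min hδ (by norm_num), min_le_right _ _, hC, ?_⟩
  intro L _ _ hL hNo hodd
  refine (h L hL hNo hodd).trans ?_
  refine mul_le_mul_of_nonneg_left ?_ hC.le
  refine Real.rpow_le_rpow_of_exponent_le (one_le_disc L) ?_
  linarith [min_le_left δ (1 / 4)]

/-- a subfield which contains a field of odd index and the image of a field of index two -/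
theorem odd_two {E K : Type} [Field E] [NumberField E] [Field K] [NumberField K] [Algebra E K]
    (h2 : Module.finrank E K = 2) (G T : IntermediateField ℚ K) (hGT : G ≤ T)
    (hG : Odd (Module.finrank G K)) (hET : ∀ x : E, algebraMap E K x ∈ T) :
    Module.finrank T K = 1 := by
  have d1 : Module.finrank T K ∣ Module.finrank G K := by
    let _ : Algebra G T := (IntermediateField.inclusion hGT).toRingHom.toAlgebra
    have : IsScalarTower G T K := IsScalarTower.of_algebraMap_eq fun x => rfl
    have : IsScalarTower ℚ G T := IsScalarTower.of_algebraMap_eq fun x => by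
      simp
    have : FiniteDimensional G K := inferInstance
    rw [← Module.finrank_mul_finrank G T K]
    exact Dvd.intro_left _ rfl
  have d2 : Module.finrank T K ∣ 2 := by
    let _ : Algebra E T := ((algebraMap E K).codRestrict T.toSubfield.toSubring hET).toAlgebra
    have : IsScalarTower E T K := IsScalarTower.of_algebraMap_eq fun x => rfl
    rw [← h2, ← Module.finrank_mul_finrank E T K]
    exact Dvd.intro_left _ rfl
  rcases (Nat.dvd_prime Nat.prime_two).1 d2 with h | h
  · exact h
  · exfalso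
    rw [h] at d1
    exact (Nat.not_even_iff_odd.2 hG) (even_iff_two_dvd.2 d1)

end CUB

open CUB in
theorem t_CUBof : S_CUBof := by
  intro hGE hGER hTRIV hDSC hSUB m hm
  obtain ⟨Cc, hCc, hcomp⟩ := comp_small hSUB (2 * m)
  have hCc0 : 0 < Cc := by linarith
  obtain ⟨d, C1, hd, hd4, hC1, h1⟩ := ge' hGE (2 * m) (even_two_mul m) (by omega)
    (1 / (4 * Cc)) (by positivity)
  obtain ⟨CG, hCG, hG⟩ := hGER m (d / 8) (by positivity)
  obtain ⟨CV, hCV, hV⟩ := hTRIV (2 * m)
  obtain ⟨CW, hCW, hW⟩ := hTRIV (3 * m)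
  obtain ⟨κ, hκ0, hκ1, hκ2, hκ3, hκ4⟩ : ∃ κ : ℝ, 0 < κ ∧ κ ≤ 1 / 16 ∧ κ * CG ≤ d / 8 ∧
      κ * CG ≤ 1 / 32 ∧ κ * Cc ≤ 1 / 16 := by
    refine ⟨min (1 / 16) (min (d / (8 * CG)) (min (1 / (32 * CG)) (1 / (16 * Cc)))), ?_, ?_, ?_, ?_, ?_⟩
    · exact lt_min (by norm_num) (lt_min (by positivity) (lt_min (by positivity) (by positivity)))
    · exact min_le_left _ _
    · calc min (1 / 16) (min (d / (8 * CG)) (min (1 / (32 * CG)) (1 / (16 * Cc)))) * CG
            ≤ d / (8 * CG) * CG :=
            mul_le_mul_of_nonneg_right ((min_le_right _ _).trans (min_le_left _ _)) hCG.le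
        _ = d / 8 := by field_simp
    · calc min (1 / 16) (min (d / (8 * CG)) (min (1 / (32 * CG)) (1 / (16 * Cc)))) * CG
            ≤ 1 / (32 * CG) * CG :=
            mul_le_mul_of_nonneg_right ((min_le_right _ _).trans ((min_le_right _ _).trans
              (min_le_left _ _))) hCG.le
        _ = 1 / 32 := by field_simp
    · calc min (1 / 16) (min (d / (8 * CG)) (min (1 / (32 * CG)) (1 / (16 * Cc)))) * Cc
            ≤ 1 / (16 * Cc) * Cc :=
            mul_le_mul_of_nonneg_right ((min_le_right _ _).trans ((min_le_right _ _).trans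
              (min_le_right _ _))) hCc0.le
        _ = 1 / 16 := by field_simp
  obtain ⟨c1, hc1⟩ : ∃ c : ℝ, c = CG * (C1 * CG ^ (1 / 2 - d : ℝ)) := ⟨_, rfl⟩
  obtain ⟨c2, hc2⟩ : ∃ c : ℝ, c = CG * (CV * 3 ^ m) := ⟨_, rfl⟩
  obtain ⟨c3, hc3⟩ : ∃ c : ℝ, c = CG * CV := ⟨_, rfl⟩
  obtain ⟨c4, hc4⟩ : ∃ c : ℝ, c = CW * Cc ^ 8 := ⟨_, rfl⟩
  have p1 : 0 < c1 := by rw [hc1]; positivity
  have p2 : 0 < c2 := by rw [hc2]; positivity
  have p3 : 0 < c3 := by rw [hc3]; positivity
  have p4 : 0 < c4 := by rw [hc4]; positivity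
  refine ⟨κ, d / 2, CG + c1 + c2 + c3 + c4, hκ0, by positivity, by positivity, ?_⟩
  intro E L _ _ _ _ _ hE hEL hNo hED
  have hD1 := one_le_disc L
  obtain ⟨D, hD⟩ : ∃ D : ℝ, D = |(discr L : ℝ)| := ⟨_, rfl⟩
  rw [← hD] at hD1 hED ⊢
  have hD0 : 0 < D := by linarith
  change (h3 L : ℝ) ≤ _
  -- the final comparison
  have fin : ∀ c : ℝ, 0 ≤ c → c ≤ CG + c1 + c2 + c3 + c4 → ∀ e : ℝ, e ≤ 1 / 2 - d / 2 →
      c * D ^ e ≤ (CG + c1 + c2 + c3 + c4) * D ^ (1 / 2 - d / 2) := by
    intro c hc0 hc e he
    exact mul_le_mul hc (Real.rpow_le_rpow_of_exponent_le hD1 he) (by positivity) (by positivity)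
  have hF1 := one_le_disc E
  have hF0 : 0 < |(discr E : ℝ)| := by linarith
  have hFe : ∀ e : ℝ, 0 ≤ e → |(discr E : ℝ)| ^ e ≤ D ^ (κ * e) := by
    intro e he
    rw [Real.rpow_mul hD0.le]
    exact Real.rpow_le_rpow hF0.le hED he
  have hNoF : ∀ z : E, z ^ 2 + z + 1 ≠ 0 := by
    intro z hz
    refine hNo (algebraMap E L z) ?_
    have := congrArg (algebraMap E L) hz
    simpa using this
  rcases hG E L hE hEL with hA | ⟨F', iF, iN, iA, hF2, hdF', hh⟩
  · rw [← hD] at hA
    have h3 : (h3 L : ℝ) ≤ CG * D ^ (d / 8 + κ * CG) := by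
      refine hA.trans ?_
      rw [Real.rpow_add hD0, ← mul_assoc]
      exact mul_le_mul_of_nonneg_left (hFe CG hCG.le) (by positivity)
    exact h3.trans (fin CG hCG.le (by linarith) _ (by linarith))
  · let _ := iF
    let _ := iN
    let _ := iA
    rw [← hD] at hdF' hh
    have hQF' : Module.finrank ℚ F' = 2 * m := by
      rw [← Module.finrank_mul_finrank ℚ E F', hE, hF2, mul_comm]
    have hF'1 := one_le_disc F'
    have hF'0 : 0 < |(discr F' : ℝ)| := by linarith
    have hdF'2 : |(discr F' : ℝ)| ≤ CG * D ^ (1 + κ * CG) := by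
      refine hdF'.trans ?_
      have e : D ^ (1 + κ * CG) = D ^ (κ * CG) * D := by
        rw [Real.rpow_add hD0, Real.rpow_one]
        ring
      rw [e, ← mul_assoc]
      exact mul_le_mul_of_nonneg_right (mul_le_mul_of_nonneg_left (hFe CG hCG.le) hCG.le) hD0.le
    have hL2 : (h3 L : ℝ) ≤ CG * D ^ (d / 8 + κ * CG) * h3 F' := by
      refine hh.trans ?_
      refine mul_le_mul_of_nonneg_right ?_ (Nat.cast_nonneg _)
      rw [Real.rpow_add hD0, ← mul_assoc]
      exact mul_le_mul_of_nonneg_left (hFe CG hCG.le) (by positivity)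
    by_cases hom : NoOm F'
    · by_cases hbig : |(discr F' : ℝ)| ≤ D ^ (1 / 4 : ℝ)
      · -- case (b)
        have h5 : (h3 F' : ℝ) ≤ CV * D ^ (1 / 4 : ℝ) :=
          (hV F' hQF').trans (mul_le_mul_of_nonneg_left hbig hCV.le)
        have h6 : (h3 L : ℝ) ≤ c3 * D ^ ((d / 8 + κ * CG) + 1 / 4) := by
          refine hL2.trans ?_
          calc CG * D ^ (d / 8 + κ * CG) * (h3 F' : ℝ)
              ≤ CG * D ^ (d / 8 + κ * CG) * (CV * D ^ (1 / 4 : ℝ)) :=
                mul_le_mul_of_nonneg_left h5 (by positivity)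
            _ = _ := by
                rw [Real.rpow_add hD0 (d / 8 + κ * CG), hc3]
                ring
        exact h6.trans (fin _ p3.le (by linarith) _ (by linarith))
      · push Not at hbig
        by_cases hcase : ∀ F : IntermediateField ℚ F', Odd (Module.finrank F F') →
            |(discr F' : ℝ)| ^ (1 / (4 * Cc)) ≤ |(discr F : ℝ)|
        · -- case (c1)
          have h4 := h1 F' hQF' hom hcase
          have h5 : |(discr F' : ℝ)| ^ (1 / 2 - d : ℝ) ≤
              CG ^ (1 / 2 - d : ℝ) * D ^ ((1 + κ * CG) * (1 / 2 - d)) := by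
            rw [Real.rpow_mul hD0.le, ← Real.mul_rpow hCG.le (by positivity)]
            exact Real.rpow_le_rpow hF'0.le hdF'2 (by linarith)
          have h6 : (h3 L : ℝ) ≤ c1 * D ^ ((d / 8 + κ * CG) + (1 + κ * CG) * (1 / 2 - d)) := by
            refine hL2.trans ?_
            calc CG * D ^ (d / 8 + κ * CG) * (h3 F' : ℝ)
                ≤ CG * D ^ (d / 8 + κ * CG) * (C1 * (CG ^ (1 / 2 - d : ℝ) *
                  D ^ ((1 + κ * CG) * (1 / 2 - d)))) := by
                  refine mul_le_mul_of_nonneg_left (h4.trans ?_) (by positivity)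
                  exact mul_le_mul_of_nonneg_left h5 hC1.le
              _ = _ := by
                  rw [Real.rpow_add hD0 (d / 8 + κ * CG), hc1]
                  ring
          refine h6.trans (fin _ p1.le (by linarith) _ ?_)
          nlinarith
        · -- case (c2)
          push Not at hcase
          obtain ⟨G, hGodd, hGd⟩ := hcase
          obtain ⟨T, hGT, hET, hTd⟩ := hcomp E F' hQF' G
          have hT1 := odd_two hF2 G T hGT hGodd hET
          have hTe : |(discr T : ℝ)| = |(discr F' : ℝ)| := by rw [top_discr T hT1]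
          rw [hTe] at hTd
          obtain ⟨x, hx⟩ : ∃ x : ℝ, x = |(discr F' : ℝ)| := ⟨_, rfl⟩
          rw [← hx] at hTd hGd hbig hF'1 hF'0
          have hG0 : 0 ≤ |(discr G : ℝ)| := abs_nonneg _
          have hDx : D ^ κ ≤ x ^ (4 * κ) := by
            have e1 : D ^ κ = (D ^ (1 / 4 : ℝ)) ^ (4 * κ) := by
              rw [← Real.rpow_mul hD0.le]
              congr 1
              ring
            rw [e1]
            exact Real.rpow_le_rpow (by positivity) hbig.le (by positivity)
          have h5 : |(discr G : ℝ)| * |(discr E : ℝ)| ≤ x ^ (1 / (4 * Cc) + 4 * κ) := by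
            rw [Real.rpow_add hF'0]
            exact mul_le_mul hGd.le (hED.trans hDx) hF0.le (by positivity)
          have h6 : (|(discr G : ℝ)| * |(discr E : ℝ)|) ^ Cc ≤ x ^ (1 / 2 : ℝ) := by
            refine (Real.rpow_le_rpow (by positivity) h5 hCc0.le).trans ?_
            rw [← Real.rpow_mul hF'0.le]
            refine Real.rpow_le_rpow_of_exponent_le hF'1 ?_
            have e2 : (1 / (4 * Cc) + 4 * κ) * Cc = 1 / 4 + 4 * (κ * Cc) := by
              field_simp
            rw [e2]
            linarith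
          have h7 : x ≤ Cc * x ^ (1 / 2 : ℝ) := hTd.trans (mul_le_mul_of_nonneg_left h6 hCc0.le)
          obtain ⟨y, hy⟩ : ∃ y : ℝ, y = x ^ (1 / 2 : ℝ) := ⟨_, rfl⟩
          have hy0 : 0 < y := by rw [hy]; positivity
          have hyx : x = y ^ 2 := by
            rw [hy, ← Real.rpow_natCast, ← Real.rpow_mul hF'0.le]
            norm_num
          rw [← hy] at h7
          have h8 : y ≤ Cc := by
            rw [hyx, sq] at h7
            exact le_of_mul_le_mul_right h7 hy0
          have h9 : D ^ (1 / 4 : ℝ) ≤ Cc ^ 2 := by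
            refine hbig.le.trans ?_
            rw [hyx]
            exact pow_le_pow_left₀ hy0.le h8 2
          have h10 : D ≤ Cc ^ 8 := by
            have e3 : D = (D ^ (1 / 4 : ℝ)) ^ 4 := by
              rw [← Real.rpow_natCast, ← Real.rpow_mul hD0.le]
              norm_num
            calc D = (D ^ (1 / 4 : ℝ)) ^ 4 := e3
              _ ≤ (Cc ^ 2) ^ 4 := pow_le_pow_left₀ (by positivity) h9 4
              _ = Cc ^ 8 := by ring
          have hQL : Module.finrank ℚ L = 3 * m := by
            rw [← Module.finrank_mul_finrank ℚ E L, hE, hEL, mul_comm]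
          have h11 : (h3 L : ℝ) ≤ c4 * D ^ (0 : ℝ) := by
            rw [Real.rpow_zero, mul_one, hc4]
            refine (hW L hQL).trans ?_
            rw [← hD]
            exact mul_le_mul_of_nonneg_left h10 hCW.le
          exact h11.trans (fin _ p4.le (by linarith) _ (by linarith))
    · -- case (a)
      unfold NoOm at hom
      push Not at hom
      obtain ⟨z, hz⟩ := hom
      have h4 := hDSC E F' hF2 z hz hNoF
      rw [hE] at h4
      have h5 : (h3 F' : ℝ) ≤ CV * (3 ^ m * D ^ (κ * 2)) := by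
        refine (hV F' hQF').trans (mul_le_mul_of_nonneg_left (h4.trans ?_) hCV.le)
        refine mul_le_mul_of_nonneg_left ?_ (by positivity)
        have := hFe 2 (by norm_num)
        rwa [Real.rpow_two] at this
      have h6 : (h3 L : ℝ) ≤ c2 * D ^ ((d / 8 + κ * CG) + κ * 2) := by
        refine hL2.trans ?_
        calc CG * D ^ (d / 8 + κ * CG) * (h3 F' : ℝ)
            ≤ CG * D ^ (d / 8 + κ * CG) * (CV * (3 ^ m * D ^ (κ * 2))) :=
              mul_le_mul_of_nonneg_left h5 (by positivity)
          _ = _ := by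
              rw [Real.rpow_add hD0 (d / 8 + κ * CG), hc2]
              ring
      exact h6.trans (fin _ p2.le (by linarith) _ (by linarith))

end Pool.Agent.H514.GE
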