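import Pool.Agent.H514.GE.Stm3

/-! # Galois fields of degree `2 ^ a * 3 ^ b` -/

set_option autoImplicit false

namespace Pool.Agent.H514.GE

open NumberField Pool.Agent.K1H79.GE

namespace G1

/-- subfields of index `3 ^ k` of a Galois field -/
theorem tow (L : Type) [Field L] [NumberField L] [IsGalois ℚ L] : ∀ (k : ℕ) (F : IntermediateField ℚ L),
    Module.finrank F L = 3 ^ k → Tow L k F
  | 0, F, h => by
      rw [pow_zero] at h
      exact IntermediateField.finrank_eq_one_iff_eq_top.1 h
  | k + 1, F, h => by
      have : Fact (Nat.Prime 3) := ⟨Nat.prime_three⟩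
      have hcard : Nat.card F.fixingSubgroup = 3 ^ (k + 1) := by
        rw [IsGalois.card_fixingSubgroup_eq_finrank, h]
      obtain ⟨K, hK⟩ := Sylow.exists_subgroup_card_pow_prime (G := F.fixingSubgroup) 3 (n := k)
        (by rw [hcard]; exact pow_dvd_pow 3 (Nat.le_succ k))
      have hH' : Nat.card (K.map F.fixingSubgroup.subtype) = 3 ^ k := by
        rw [← hK]
        exact (Nat.card_congr (K.equivMapOfInjective _ F.fixingSubgroup.subtype_injective).toEquiv).symm
      have hle : K.map F.fixingSubgroup.subtype ≤ F.fixingSubgroup := by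
        rintro _ ⟨x, -, rfl⟩
        exact x.2
      have hE : Module.finrank (IntermediateField.fixedField (K.map F.fixingSubgroup.subtype)) L = 3 ^ k := by
        rw [IntermediateField.finrank_fixedField_eq_card]
        exact hH'
      refine ⟨IntermediateField.fixedField (K.map F.fixingSubgroup.subtype),
        IntermediateField.le_iff_le _ _ |>.2 hle, ?_, tow L k _ hE⟩
      have h1 := Module.finrank_mul_finrank ℚ
        (IntermediateField.fixedField (K.map F.fixingSubgroup.subtype)) L
      have h2 := Module.finrank_mul_finrank ℚ F L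
      rw [hE] at h1
      rw [h] at h2
      have h3 : 0 < 3 ^ k := by positivity
      have h4 : Module.finrank ℚ (IntermediateField.fixedField (K.map F.fixingSubgroup.subtype)) * 3 ^ k =
          (3 * Module.finrank ℚ F) * 3 ^ k := by
        rw [h1, ← h2, pow_succ]
        ring
      exact Nat.eq_of_mul_eq_mul_right h3 h4

end G1

theorem t_G1 : S_G1 := by
  intro L _ _ _ a b h F hF
  have h1 : Module.finrank F L ∣ 2 ^ a * 3 ^ b := by
    rw [← h]
    exact ⟨Module.finrank ℚ F, by rw [mul_comm]; exact (Module.finrank_mul_finrank ℚ F L).symm⟩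
  have h2 : Nat.Coprime (Module.finrank F L) (2 ^ a) := (Nat.coprime_two_right.2 hF).pow_right a
  obtain ⟨k, -, hk⟩ := (Nat.dvd_prime_pow Nat.prime_three).1 (h2.dvd_of_dvd_mul_left h1)
  exact ⟨k, G1.tow L k F hk⟩

end Pool.Agent.H514.GE
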