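import Pool.Agent.H514.GE.Stm3

/-! # The subfields of index `2` of the Galois fields of degree `2 ^ a * 3 ^ b` satisfy the tower
condition -/

set_option autoImplicit false

namespace Pool.Agent.H514.GE

open NumberField Pool.Agent.K1H79.GE
open scoped Classical nonZeroDivisors

namespace G2

/-- the group theoretic step, for fields -/
theorem step (hI : S_INVO) (L : Type) [Field L] [NumberField L] [IsGalois ℚ L]
    (F : IntermediateField ℚ L) (hF : Module.finrank F L = 2) (k : ℕ)
    (E : IntermediateField ℚ L) (hE : E ≤ F) (hk : Module.finrank E L = 2 * 3 ^ (k + 1)) :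
    ∃ K : IntermediateField ℚ L, E ≤ K ∧ K ≤ F ∧ Module.finrank K L = 2 * 3 ^ k := by
  have hcF : Nat.card F.fixingSubgroup = 2 := by
    rw [IsGalois.card_fixingSubgroup_eq_finrank, hF]
  have hcE : Nat.card E.fixingSubgroup = 2 * 3 ^ (k + 1) := by
    rw [IsGalois.card_fixingSubgroup_eq_finrank, hk]
  have hnt : Nontrivial F.fixingSubgroup := by
    rw [← Finite.one_lt_card_iff_nontrivial, hcF]
    norm_num
  obtain ⟨c, hc⟩ := exists_ne (1 : F.fixingSubgroup)
  have hc2 : c ^ 2 = 1 := by
    rw [← hcF]
    exact pow_card_eq_one'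
  have hFE : F.fixingSubgroup ≤ E.fixingSubgroup := IntermediateField.fixingSubgroup_le hE
  obtain ⟨c', hc'⟩ : ∃ c' : E.fixingSubgroup, (c' : Gal(L/ℚ)) = c := ⟨⟨c.1, hFE c.2⟩, rfl⟩
  have hc'1 : c' ≠ 1 := by
    rintro rfl
    exact hc (Subtype.ext hc'.symm)
  have hc'2 : c' ^ 2 = 1 := by
    apply Subtype.ext
    have := congrArg Subtype.val hc2
    simp only [Subgroup.coe_pow, Subgroup.coe_one] at this ⊢
    rw [hc', this]
  obtain ⟨H, hcH, hH⟩ := hI E.fixingSubgroup k c' hcE hc'2 hc'1
  obtain ⟨H', hH'⟩ : ∃ H' : Subgroup Gal(L/ℚ), H' = H.map E.fixingSubgroup.subtype := ⟨_, rfl⟩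
  have hcard : Nat.card H' = 2 * 3 ^ k := by
    rw [hH', ← hH]
    exact Nat.card_congr (H.equivMapOfInjective _ (Subgroup.subtype_injective _)).toEquiv.symm
  have hcH' : (c : Gal(L/ℚ)) ∈ H' := by
    rw [hH', ← hc']
    exact Subgroup.mem_map_of_mem _ hcH
  have hFH : F.fixingSubgroup ≤ H' := by
    have h1 : Subgroup.zpowers (c : Gal(L/ℚ)) = F.fixingSubgroup := by
      apply Subgroup.eq_of_le_of_card_ge
      · rw [Subgroup.zpowers_le]
        exact c.2
      · rw [hcF, Nat.card_zpowers]
        have h2 : orderOf (c : Gal(L/ℚ)) = 2 := by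
          refine orderOf_eq_prime ?_ ?_
          · have := congrArg Subtype.val hc2
            simpa using this
          · intro h3
            exact hc (Subtype.ext h3)
        rw [h2]
    rw [← h1, Subgroup.zpowers_le]
    exact hcH'
  refine ⟨IntermediateField.fixedField H', ?_, ?_, ?_⟩
  · rw [IntermediateField.le_iff_le, hH']
    exact Subgroup.map_subtype_le _
  · have h4 := IntermediateField.fixedField_antitone hFH
    rwa [IsGalois.fixedField_fixingSubgroup] at h4
  · rw [IntermediateField.finrank_fixedField_eq_card, hcard]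

theorem tow (hI : S_INVO) (L : Type) [Field L] [NumberField L] [IsGalois ℚ L]
    (F : IntermediateField ℚ L) (hF : Module.finrank F L = 2) : ∀ (k : ℕ)
    (E : IntermediateField ℚ F), Module.finrank ℚ E * 3 ^ k = Module.finrank ℚ F → Tow F k E
  | 0, E, h => by
    show E = ⊤
    refine IntermediateField.eq_of_le_of_finrank_eq le_top ?_
    rw [IntermediateField.finrank_top']
    simpa using h
  | k + 1, E, h => by
    have hlE : Module.finrank ℚ (IntermediateField.lift E) = Module.finrank ℚ E :=
      (IntermediateField.liftAlgEquiv E).toLinearEquiv.finrank_eq.symm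
    have hE0 : 0 < Module.finrank ℚ E := Module.finrank_pos
    have hL : Module.finrank ℚ F * 2 = Module.finrank ℚ L := by
      rw [← hF]
      exact Module.finrank_mul_finrank ℚ F L
    have h1 : Module.finrank (IntermediateField.lift E) L = 2 * 3 ^ (k + 1) := by
      have h2 := Module.finrank_mul_finrank ℚ (IntermediateField.lift E) L
      rw [hlE, ← hL, ← h] at h2
      have h3 : Module.finrank ℚ E * Module.finrank (IntermediateField.lift E) L =
          Module.finrank ℚ E * (2 * 3 ^ (k + 1)) := by
        rw [h2]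
        ring
      exact Nat.eq_of_mul_eq_mul_left hE0 h3
    obtain ⟨K, hEK, hKF, hK⟩ := step hI L F hF k (IntermediateField.lift E)
      (IntermediateField.lift_le E) h1
    have hlK : Module.finrank ℚ (IntermediateField.restrict hKF) = Module.finrank ℚ K := by
      have h4 := (IntermediateField.liftAlgEquiv
        (IntermediateField.restrict hKF)).toLinearEquiv.finrank_eq
      rw [h4, IntermediateField.lift_restrict]
    have hK3 : Module.finrank ℚ K = 3 * Module.finrank ℚ E := by
      have h5 := Module.finrank_mul_finrank ℚ K L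
      rw [hK, ← hL, ← h] at h5
      have h6 : 0 < 2 * 3 ^ k := by positivity
      refine Nat.eq_of_mul_eq_mul_right h6 ?_
      rw [h5]
      ring
    refine ⟨IntermediateField.restrict hKF, ?_, ?_, ?_⟩
    · intro x hx
      exact (IntermediateField.mem_restrict hKF x).2 (hEK ((IntermediateField.mem_lift x).2 hx))
    · exact hlK.trans hK3
    · refine tow hI L F hF k _ ?_
      have h7 : Module.finrank ℚ (IntermediateField.restrict hKF) * 3 ^ k =
          Module.finrank ℚ F := by
        rw [hlK, hK3]
        refine Eq.trans ?_ h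
        ring
      exact h7

end G2

theorem t_G2of : S_G2of := by
  intro hI L _ _ _ a b hab F hF E hodd
  have hL : Module.finrank ℚ F * 2 = Module.finrank ℚ L := by
    rw [← hF]
    exact Module.finrank_mul_finrank ℚ F L
  have hEF : Module.finrank ℚ E * Module.finrank E F = Module.finrank ℚ F :=
    Module.finrank_mul_finrank ℚ E F
  have hdvd : Module.finrank E F ∣ 2 ^ a * 3 ^ b := by
    rw [← hab, ← hL, ← hEF]
    exact Dvd.dvd.mul_right (Dvd.intro_left _ rfl) _
  have hcop : Nat.Coprime (Module.finrank E F) (2 ^ a) :=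
    Nat.Coprime.pow_right a (Nat.coprime_two_right.2 hodd)
  have h3 : Module.finrank E F ∣ 3 ^ b := hcop.dvd_of_dvd_mul_left hdvd
  obtain ⟨k, -, hk⟩ := (Nat.dvd_prime_pow Nat.prime_three).1 h3
  exact ⟨k, G2.tow hI L F hF k E (by rw [← hk, hEF])⟩

end Pool.Agent.H514.GE
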