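import Pool.Agent.H514.GE.Stm3

/-! # An involution in a group of order `2 * 3 ^ (k + 1)` lies in a subgroup of index `3` (helper546) -/

set_option autoImplicit false

namespace Pool.Agent.H514.GE

namespace INVOaux

theorem main (k : ℕ) : ∀ (G : Type) [Group G] [Finite G] (c : G), Nat.card G = 2 * 3 ^ (k + 1) →
    c ^ 2 = 1 → c ≠ 1 → ∃ H : Subgroup G, c ∈ H ∧ Nat.card H = 2 * 3 ^ k := by
  induction k with
  | zero =>
    intro G _ _ c hG hc hc1
    refine ⟨Subgroup.zpowers c, Subgroup.mem_zpowers c, ?_⟩
    rw [Nat.card_zpowers, orderOf_eq_prime hc hc1]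
    norm_num
  | succ k ih =>
    intro G _ _ c hG hc hc1
    haveI : Fact (Nat.Prime 3) := ⟨Nat.prime_three⟩
    have hcc : c * c = 1 := by rw [← pow_two]; exact hc
    have hci : c⁻¹ = c := inv_eq_of_mul_eq_one_left hcc
    -- a subgroup of order `3 ^ (k + 2)`
    obtain ⟨P, hP⟩ := Sylow.exists_subgroup_card_pow_prime (G := G) 3 (n := k + 2)
      (by rw [hG]; exact Dvd.intro_left 2 rfl)
    have hidx : P.index = 2 := by
      have h := P.card_mul_index
      rw [hP, hG, mul_comm] at h
      exact Nat.eq_of_mul_eq_mul_right (by positivity) h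
    have hPn : P.Normal := Subgroup.normal_of_index_eq_two hidx
    have hPp : IsPGroup 3 P := IsPGroup.of_card hP
    haveI : Nontrivial P := by
      rw [← Finite.one_lt_card_iff_nontrivial, hP]
      exact Nat.one_lt_pow (by omega) (by norm_num)
    have hZ : Nontrivial (Subgroup.center P) := hPp.center_nontrivial
    -- a central element of order 3
    have hZp : IsPGroup 3 (Subgroup.center P) := hPp.to_subgroup _
    obtain ⟨z, hz⟩ : ∃ z : Subgroup.center P, orderOf z = 3 := by
      obtain ⟨n, hn⟩ := IsPGroup.iff_card.1 hZp
      have hn1 : n ≠ 0 := by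
        rintro rfl
        have := Finite.one_lt_card_iff_nontrivial.2 hZ
        rw [hn] at this
        norm_num at this
      exact exists_prime_orderOf_dvd_card' 3 (by rw [hn]; exact dvd_pow_self 3 hn1)
    obtain ⟨v, hv⟩ : ∃ v : G, v = ((z : P) : G) := ⟨_, rfl⟩
    have hvP : v ∈ P := by rw [hv]; exact (z : P).2
    have hv3 : v ^ 3 = 1 := by
      have h1 : z ^ 3 = 1 := by rw [← hz]; exact pow_orderOf_eq_one z
      have h2 : ((z ^ 3 : Subgroup.center P) : P) = 1 := by rw [h1]; rfl
      have h3 : (((z ^ 3 : Subgroup.center P) : P) : G) = 1 := by rw [h2]; rfl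
      rw [hv]
      exact h3
    have hv1 : v ≠ 1 := by
      intro h
      have h1 : z = 1 := by
        apply Subtype.ext
        apply Subtype.ext
        rw [← hv]
        exact h
      rw [h1, orderOf_one] at hz
      omega
    have hvc : ∀ x ∈ P, x * v = v * x := by
      intro x hx
      have h1 := (Subgroup.mem_center_iff.1 z.2) ⟨x, hx⟩
      have h2 := congrArg (fun t : P => (t : G)) h1
      simpa [hv] using h2
    obtain ⟨s, hs⟩ : ∃ s : G, s = c * v * c := ⟨_, rfl⟩
    have hsP : s ∈ P := by
      have := hPn.conj_mem v hvP c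
      rw [hci] at this
      rw [hs]
      exact this
    have hsc : ∀ x ∈ P, x * s = s * x := by
      intro x hx
      have h1 : c * x * c ∈ P := by
        have := hPn.conj_mem x hx c
        rw [hci] at this
        exact this
      have h2 := hvc _ h1
      rw [hs]
      calc x * (c * v * c) = (c * c) * x * (c * v * c) := by rw [hcc, one_mul]
        _ = c * (c * x * c * v) * c := by simp only [mul_assoc]
        _ = c * (v * (c * x * c)) * c := by rw [h2]
        _ = c * v * c * x * (c * c) := by simp only [mul_assoc]
        _ = c * v * c * x := by rw [hcc, mul_one]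
    have hvs : v * s = s * v := (hvc s hsP).symm
    have hcs : c * s * c = v := by
      rw [hs]
      calc c * (c * v * c) * c = (c * c) * v * (c * c) := by simp only [mul_assoc]
        _ = v := by rw [hcc, one_mul, mul_one]
    have hcv : c * v * c = s := hs.symm
    have hs3 : s ^ 3 = 1 := by
      have h1 : s ^ 3 = c * v ^ 3 * c := by
        rw [hs, pow_succ, pow_two, pow_succ, pow_two]
        calc c * v * c * (c * v * c) * (c * v * c) =
            c * v * (c * c) * v * (c * c) * v * c := by simp only [mul_assoc]
          _ = c * (v * v * v) * c := by rw [hcc]; simp only [mul_one, mul_assoc]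
      rw [h1, hv3, mul_one, hcc]
    -- the element w
    obtain ⟨w, hwP, hw1, hw3, hwc, hww⟩ : ∃ w ∈ P, w ≠ 1 ∧ w ^ 3 = 1 ∧ (∀ x ∈ P, x * w = w * x) ∧
        (c * w * c = w ∨ c * w * c = w⁻¹) := by
      have hcomm : Commute v s := hvs
      by_cases ha : v * s = 1
      · refine ⟨v * s⁻¹, P.mul_mem hvP (P.inv_mem hsP), ?_, ?_, ?_, Or.inr ?_⟩
        · intro hb
          have h1 : s = v := by
            rw [mul_inv_eq_one] at hb
            exact hb.symm
          rw [h1, ← pow_two] at ha
          apply hv1
          rw [pow_succ, ha, one_mul] at hv3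
          exact hv3
        · rw [hcomm.inv_right.mul_pow, hv3, inv_pow, hs3, inv_one, mul_one]
        · intro x hx
          have h1 := hvc x hx
          have h2 : Commute x s := hsc x hx
          calc x * (v * s⁻¹) = x * v * s⁻¹ := by rw [mul_assoc]
            _ = v * (x * s⁻¹) := by rw [h1, mul_assoc]
            _ = v * (s⁻¹ * x) := by rw [h2.inv_right.eq]
            _ = v * s⁻¹ * x := by rw [mul_assoc]
        · have h1 : c * s⁻¹ * c = v⁻¹ := by
            rw [← hcs]
            simp only [mul_inv_rev, hci, mul_assoc]
          calc c * (v * s⁻¹) * c = (c * v * c) * (c * s⁻¹ * c) := by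
                have : (c * v * c) * (c * s⁻¹ * c) = c * v * (c * c) * s⁻¹ * c := by
                  simp only [mul_assoc]
                rw [this, hcc, mul_one]
                simp only [mul_assoc]
            _ = s * v⁻¹ := by rw [hcv, h1]
            _ = (v * s⁻¹)⁻¹ := by rw [mul_inv_rev, inv_inv]
      · refine ⟨v * s, P.mul_mem hvP hsP, ha, ?_, ?_, Or.inl ?_⟩
        · rw [hcomm.mul_pow, hv3, hs3, mul_one]
        · intro x hx
          calc x * (v * s) = x * v * s := by rw [mul_assoc]
            _ = v * (x * s) := by rw [hvc x hx, mul_assoc]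
            _ = v * (s * x) := by rw [hsc x hx]
            _ = v * s * x := by rw [mul_assoc]
        · calc c * (v * s) * c = (c * v * c) * (c * s * c) := by
                have : (c * v * c) * (c * s * c) = c * v * (c * c) * s * c := by
                  simp only [mul_assoc]
                rw [this, hcc, mul_one]
                simp only [mul_assoc]
            _ = v * s := by rw [hcv, hcs, hvs]
    have hcP : c ∉ P := by
      intro h
      have h1 : orderOf (⟨c, h⟩ : P) ∣ Nat.card P := orderOf_dvd_natCard _
      rw [hP, Subgroup.orderOf_mk, orderOf_eq_prime hc hc1] at h1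
      have h2 := Nat.Prime.dvd_of_dvd_pow Nat.prime_two h1
      omega
    -- the normal subgroup of order 3
    obtain ⟨N, hN⟩ : ∃ N : Subgroup G, N = Subgroup.zpowers w := ⟨_, rfl⟩
    have hNc : Nat.card N = 3 := by
      rw [hN, Nat.card_zpowers, orderOf_eq_prime hw3 hw1]
    have hNn : N.Normal := by
      have key : ∀ g : G, g * w * g⁻¹ ∈ N := by
        intro g
        by_cases hg : g ∈ P
        · rw [hwc g hg, mul_inv_cancel_right, hN]
          exact Subgroup.mem_zpowers w
        · have h1 : g * c ∈ P := by
            rw [Subgroup.mul_mem_iff_of_index_two hidx]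
            exact ⟨fun h => absurd h hg, fun h => absurd h hcP⟩
          have h2 : g * w * g⁻¹ = (g * c) * (c * w * c) * (g * c)⁻¹ := by
            rw [mul_inv_rev, hci]
            calc g * w * g⁻¹ = g * 1 * w * 1 * g⁻¹ := by rw [mul_one, mul_one]
              _ = g * (c * c) * w * (c * c) * g⁻¹ := by rw [hcc]
              _ = _ := by simp only [mul_assoc]
          rw [h2]
          rcases hww with h | h
          · rw [h, hwc _ h1, mul_inv_cancel_right, hN]
            exact Subgroup.mem_zpowers w
          · rw [h]
            have h3 : Commute (g * c) w := hwc _ h1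
            rw [h3.inv_right.eq, mul_inv_cancel_right, hN]
            exact (Subgroup.zpowers w).inv_mem (Subgroup.mem_zpowers w)
      constructor
      intro n hn g
      rw [hN, Subgroup.mem_zpowers_iff] at hn
      obtain ⟨i, rfl⟩ := hn
      rw [← conj_zpow]
      exact N.zpow_mem (key g) i
    have hcN : c ∉ N := by
      intro h
      apply hcP
      rw [hN] at h
      exact (Subgroup.zpowers_le.2 hwP) h
    have hQ : Nat.card (G ⧸ N) = 2 * 3 ^ (k + 1) := by
      have h := N.card_eq_card_quotient_mul_card_subgroup
      rw [hNc, hG, pow_succ 3 (k + 1), ← mul_assoc] at h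
      exact (Nat.eq_of_mul_eq_mul_right (by norm_num) h).symm
    obtain ⟨H', hcH, hH'⟩ := ih (G ⧸ N) (QuotientGroup.mk' N c) hQ
      (by rw [← map_pow, hc, map_one])
      (by
        intro h
        apply hcN
        exact (QuotientGroup.eq_one_iff c).1 h)
    refine ⟨H'.comap (QuotientGroup.mk' N), hcH, ?_⟩
    have h1 : (H'.comap (QuotientGroup.mk' N)).index = H'.index :=
      Subgroup.index_comap_of_surjective H' (QuotientGroup.mk'_surjective N)
    have h2 := H'.card_mul_index
    rw [hH', hQ] at h2
    have h3 : H'.index = 3 := by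
      have e : 2 * 3 ^ (k + 1) = 2 * 3 ^ k * 3 := by ring
      rw [e] at h2
      exact Nat.eq_of_mul_eq_mul_left (by positivity) h2
    have h4 := (H'.comap (QuotientGroup.mk' N)).card_mul_index
    rw [h1, h3, hG] at h4
    have e : 2 * 3 ^ (k + 1 + 1) = 2 * 3 ^ (k + 1) * 3 := by ring
    rw [e] at h4
    exact Nat.eq_of_mul_eq_mul_right (by norm_num) h4

end INVOaux

theorem t_INVO : S_INVO := by
  intro G _ _ k c hG hc hc1
  exact INVOaux.main k G c hG hc hc1

end Pool.Agent.H514.GE
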