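import Pool.Agent.H514.GE.Stm2

/-! # 3-torsion: towers of extensions of degrees at most four -/

set_option autoImplicit false

namespace Pool.Agent.H514.GE

open NumberField Pool.Agent.K1H79.GE
open scoped Classical nonZeroDivisors

namespace TW4L

open IntermediateField

variable {L : Type} [Field L] [NumberField L]

/-- The degree of a compositum. -/
theorem relfinrank_sup (F A B : IntermediateField ℚ L) (h : A ≤ B) :
    relfinrank A (F ⊔ B) ≤ relfinrank A (F ⊔ A) * relfinrank A B := by
  have hA : A ≤ F ⊔ A := le_sup_right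
  have hAB : A ≤ F ⊔ B := h.trans le_sup_right
  rw [relfinrank_eq_finrank_of_le hA, relfinrank_eq_finrank_of_le h,
    relfinrank_eq_finrank_of_le hAB]
  have h1 : extendScalars hA ⊔ extendScalars h = extendScalars hAB := by
    have h2 : F ⊔ A ⊔ B = F ⊔ B := by rw [sup_assoc, sup_eq_right.2 h]
    apply restrictScalars_injective ℚ
    rw [extendScalars_sup]
    exact h2
  rw [← h1]
  exact finrank_sup_le _ _

theorem finrank_pos' (A : IntermediateField ℚ L) : 0 < Module.finrank ℚ A := Module.finrank_pos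

/-- The relative degree of the compositum is at most the relative degree. -/
theorem step (F A B : IntermediateField ℚ L) (h : A ≤ B) {m : ℕ}
    (hm : Module.finrank ℚ B ≤ m * Module.finrank ℚ A) :
    relfinrank (F ⊔ A) (F ⊔ B) ≤ m := by
  have h1 : relfinrank A B ≤ m := by
    have h2 := finrank_bot_mul_relfinrank h
    have h3 := finrank_pos' A
    rw [← h2, mul_comm m] at hm
    exact Nat.le_of_mul_le_mul_left hm h3
  have h4 := relfinrank_mul_relfinrank (A := A) (B := F ⊔ A) (C := F ⊔ B) le_sup_right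
    (sup_le_sup_left h F)
  have h5 := relfinrank_sup F A B h
  have h6 : 0 < relfinrank A (F ⊔ A) := by
    have h7 := finrank_bot_mul_relfinrank (A := A) (B := F ⊔ A) le_sup_right
    have h8 := finrank_pos' (F ⊔ A)
    rw [← h7] at h8
    exact Nat.pos_of_mul_pos_left h8
  rw [← h4] at h5
  exact (Nat.le_of_mul_le_mul_left h5 h6).trans h1

end TW4L

open TW4L IntermediateField in
theorem t_TW4 : S_TW4 := by
  intro L _ _ hT F hF
  obtain ⟨r, G, hG0, hGr, hG⟩ := hT
  have key : ∀ j : ℕ, ∀ i : ℕ, i + j = r → ∃ k : ℕ, Tow L k (F ⊔ G i) := by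
    intro j
    induction j with
    | zero =>
      intro i hi
      rw [add_zero] at hi
      refine ⟨0, ?_⟩
      change F ⊔ G i = ⊤
      rw [hi, hGr, sup_top_eq]
    | succ j ih =>
      intro i hi
      obtain ⟨k, hk⟩ := ih (i + 1) (by omega)
      obtain ⟨h1, h2⟩ := hG i (by omega)
      have h3 := step F (G i) (G (i + 1)) h1 h2
      have hle : F ⊔ G i ≤ F ⊔ G (i + 1) := sup_le_sup_left h1 F
      have h4 : Odd (relfinrank (F ⊔ G i) (F ⊔ G (i + 1))) := by
        refine Odd.of_dvd_nat hF ?_
        refine (relfinrank_dvd_finrank_top_of_le hle).trans ?_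
        exact dvd_of_mul_left_eq _ (relfinrank_mul_finrank_top (le_sup_left : F ≤ F ⊔ G i))
      obtain ⟨q, hq⟩ := h4
      have h5 : relfinrank (F ⊔ G i) (F ⊔ G (i + 1)) = 1 ∨
          relfinrank (F ⊔ G i) (F ⊔ G (i + 1)) = 3 := by omega
      rcases h5 with h5 | h5
      · have h6 : F ⊔ G i = F ⊔ G (i + 1) := le_antisymm hle (relfinrank_eq_one_iff.1 h5)
        exact ⟨k, by rw [h6]; exact hk⟩
      · refine ⟨k + 1, F ⊔ G (i + 1), hle, ?_, hk⟩
        rw [← finrank_bot_mul_relfinrank hle, h5, mul_comm]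
  obtain ⟨k, hk⟩ := key r 0 (zero_add r)
  rw [hG0, sup_bot_eq] at hk
  exact ⟨k, hk⟩

theorem t_EXP : S_EXP := by
  intro L _ _ h F hF
  have hmul : Module.finrank ℚ F * Module.finrank F L = Module.finrank ℚ L :=
    Module.finrank_mul_finrank ℚ F L
  have htop : Module.finrank F L = 1 → ∃ k : ℕ, Tow L k F := by
    intro h1
    refine ⟨0, ?_⟩
    have h2 : Module.finrank ℚ F = Module.finrank ℚ L := by rw [← hmul, h1, mul_one]
    exact IntermediateField.eq_of_le_of_finrank_eq le_top
      (h2.trans IntermediateField.finrank_top'.symm)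
  rcases h with ⟨a, ha⟩ | ⟨a, ha⟩ | ⟨hev, hsub⟩
  · apply htop
    have h1 : Module.finrank F L ∣ 2 ^ a := by
      rw [← ha, ← hmul]
      exact dvd_mul_left _ _
    have h2 : Nat.Coprime (Module.finrank F L) (2 ^ a) :=
      Nat.Coprime.pow_right _ (Nat.coprime_two_right.2 hF)
    exact h2.eq_one_of_dvd h1
  · have h1 : Module.finrank F L ∣ 3 * 2 ^ a := by
      rw [← ha, ← hmul]
      exact dvd_mul_left _ _
    have h2 : Nat.Coprime (Module.finrank F L) (2 ^ a) :=
      Nat.Coprime.pow_right _ (Nat.coprime_two_right.2 hF)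
    have h3 : Module.finrank F L ∣ 3 := h2.dvd_of_dvd_mul_right h1
    rcases (Nat.dvd_prime Nat.prime_three).1 h3 with h4 | h4
    · exact htop h4
    · refine ⟨1, ⊤, le_top, ?_, rfl⟩
      rw [IntermediateField.finrank_top', ← hmul, h4, mul_comm]
  · rcases hsub F with h1 | h1
    · exfalso
      rw [h1, IntermediateField.finrank_bot'] at hF
      exact (Nat.not_odd_iff_even.2 hev) hF
    · exact ⟨0, h1⟩

end Pool.Agent.H514.GE
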