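import Pool.Agent.H514.GE.ISO
import Pool.Agent.H514.GE.G1
import Pool.Agent.H514.GE.G2
import Pool.Agent.H514.GE.INVO
import Pool.Agent.H514.GE.TW4
import Pool.Graph.R_pool_sql_team_seeded_efc1946e.K1H79.TW.CCx

/-! # Examples of fields generated by good subfields

Owner helper514. -/

set_option autoImplicit false

namespace Pool.Agent.H514.GE

open NumberField Pool.Agent.K1H79.GE
open scoped Classical nonZeroDivisors IntermediateField

/-- quadratic extensions by `√-3` of the fields which satisfy the condition -/
theorem gen_of_index_two {L : Type} [Field L] [NumberField L] {η : ℝ} {ω : L} (hω : ω ^ 2 + ω + 1 = 0)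
    (F : IntermediateField ℚ L) (h2 : Module.finrank F L = 2) (hF : 2 ≤ Module.finrank ℚ F) (hno : NoOm F)
    (hO : OddTowE η F) : GenE η L := by
  have hg1 : GoodE η F := Or.inr (Or.inr (Or.inr ⟨hF, hno, hO⟩))
  have hg2 : GoodE η ℚ⟮ω⟯ := Or.inl (SIXN.deg_two hω)
  obtain ⟨G, hG⟩ : ∃ G : IntermediateField ℚ L, G = sSup {E : IntermediateField ℚ L | GoodE η E} := ⟨_, rfl⟩
  have h3 : F ≤ G := by rw [hG]; exact le_sSup hg1
  have h4 : ω ∈ G := by
    rw [hG]
    exact (le_sSup hg2 : ℚ⟮ω⟯ ≤ _) (IntermediateField.mem_adjoin_simple_self ℚ ω)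
  rw [GenE, ← hG]
  have h5 : Module.finrank G L ∣ 2 := by
    rw [← h2]
    exact IntermediateField.finrank_dvd_of_le_left h3
  rcases (Nat.dvd_prime Nat.prime_two).1 h5 with h6 | h6
  · exact IntermediateField.finrank_eq_one_iff_eq_top.1 h6
  · exfalso
    have h7 : F = G := by
      refine IntermediateField.eq_of_le_of_finrank_eq h3 ?_
      have h8 := Module.finrank_mul_finrank ℚ G L
      have h9 := Module.finrank_mul_finrank ℚ F L
      rw [h6] at h8
      rw [h2] at h9
      omega
    rw [← h7] at h4
    apply hno ⟨ω, h4⟩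
    apply Subtype.ext
    exact hω

/-- Galois fields of degree `2 ^ a * 3 ^ b` -/
theorem gen_gal (η : ℝ) (L : Type) [Field L] [NumberField L] [IsGalois ℚ L] (a b : ℕ)
    (h : Module.finrank ℚ L = 2 ^ a * 3 ^ b) (h2 : 2 ≤ Module.finrank ℚ L) : GenE η L := by
  by_cases hno : NoOm L
  · exact GoodE.gen (Or.inr (Or.inr (Or.inr ⟨h2, hno, (t_G1 L a b h).toE η⟩)))
  · unfold NoOm at hno
    push Not at hno
    obtain ⟨ω, hω⟩ := hno
    by_cases h3 : Module.finrank ℚ L = 2
    · exact GoodE.gen (Or.inl h3)
    · obtain ⟨F, hF, hFno⟩ := Pool.Agent.K1H79.TW.cc L ω hω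
      have h4 := Module.finrank_mul_finrank ℚ F L
      rw [hF] at h4
      exact gen_of_index_two hω F hF (by omega) hFno ((t_G2of t_INVO L a b h F hF).toE η)

/-- a field of even degree without proper subfields is good -/
theorem good_prim (η : ℝ) (E : Type) [Field E] [NumberField E] (hev : Even (Module.finrank ℚ E))
    (hp : ∀ F : IntermediateField ℚ E, F = ⊥ ∨ F = ⊤) : GoodE η E := by
  have hpos : 0 < Module.finrank ℚ E := Module.finrank_pos
  have h2 : 2 ≤ Module.finrank ℚ E := by
    obtain ⟨k, hk⟩ := hev
    omega
  by_cases hno : NoOm E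
  · exact Or.inr (Or.inr (Or.inr ⟨h2, hno, (t_EXP E (Or.inr (Or.inr ⟨hev, hp⟩))).toE η⟩))
  · unfold NoOm at hno
    push Not at hno
    obtain ⟨ω, hω⟩ := hno
    left
    have h3 := SIXN.deg_two hω
    rcases hp ℚ⟮ω⟯ with h | h
    · rw [h, IntermediateField.finrank_bot] at h3
      omega
    · rw [h, IntermediateField.finrank_top'] at h3
      exact h3

/-- Galois fields in which the maximal subgroups of even index have trivial intersection -/
theorem gen_max (η : ℝ) (L : Type) [Field L] [NumberField L] [IsGalois ℚ L]
    (h : sInf {H : Subgroup (L ≃ₐ[ℚ] L) | IsCoatom H ∧ Even H.index} = ⊥) : GenE η L := by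
  have key : ∀ H : Subgroup (L ≃ₐ[ℚ] L), IsCoatom H → Even H.index →
      GoodE η (IntermediateField.fixedField H) := by
    intro H hH hev
    apply good_prim
    · rw [IntermediateField.finrank_eq_fixingSubgroup_index, IntermediateField.fixingSubgroup_fixedField]
      exact hev
    · intro F
      have h1 : IntermediateField.lift F ≤ IntermediateField.fixedField H := IntermediateField.lift_le F
      have h2 : H ≤ (IntermediateField.lift F).fixingSubgroup := (IntermediateField.le_iff_le _ _).1 h1
      rcases hH.le_iff.1 h2 with h3 | h3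
      · left
        apply IntermediateField.lift_injective
        have h4 : IntermediateField.lift F = ⊥ := by
          rw [← IsGalois.fixedField_fixingSubgroup (IntermediateField.lift F), h3]
          exact IsGalois.fixedField_top
        exact h4.trans (IntermediateField.lift_bot ℚ (IntermediateField.fixedField H)).symm
      · right
        apply IntermediateField.lift_injective
        have h4 : IntermediateField.lift F = IntermediateField.fixedField H := by
          rw [← IsGalois.fixedField_fixingSubgroup (IntermediateField.lift F), h3]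
        exact h4.trans (IntermediateField.lift_top ℚ (IntermediateField.fixedField H)).symm
  obtain ⟨G, hG⟩ : ∃ G : IntermediateField ℚ L, G = sSup {E : IntermediateField ℚ L | GoodE η E} := ⟨_, rfl⟩
  rw [GenE, ← hG]
  have h1 : G.fixingSubgroup ≤ ⊥ := by
    rw [← h]
    refine le_sInf fun H hH => ?_
    have h2 : IntermediateField.fixedField H ≤ G := by
      rw [hG]
      exact le_sSup (key H hH.1 hH.2)
    have h3 := IntermediateField.fixingSubgroup_antitone h2
    rwa [IntermediateField.fixingSubgroup_fixedField] at h3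
  rw [← IsGalois.fixedField_fixingSubgroup G, le_bot_iff.1 h1, IntermediateField.fixedField_bot]

end Pool.Agent.H514.GE

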