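import Pool.Agent.H514.GE.All
import Pool.Agent.H514.GE.CMP
import Pool.Agent.H514.GE.CUB
import Pool.Agent.H514.GE.GALC
import Pool.Agent.H514.GE.CHN2

/-! # Final assembly

Owner helper514. -/

set_option autoImplicit false

namespace Pool.Agent.H514.GE

open NumberField Pool.Agent.K1H79.GE
open scoped Classical nonZeroDivisors

theorem g_CUB : S_CUB := t_CUBof g_GE g_GER Pool.Agent.K1H79.SX.t_TRIV t_DSC Pool.Agent.K1H39.GE.t_SUB

theorem vve_of (hCHNof : S_CHNof) : S_VVE :=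
  t_VVEof (t_UUEof g_GE (hCHNof g_CUB g_T Pool.Agent.K1H79.SX.t_TRIV)) t_EXP g_SIX Pool.Agent.K1H79.Q3.qw
    Pool.Agent.K1H79.SX.t_TRIV (t_CMPof Pool.Agent.K1H39.GE.t_SUB) g_T

theorem g_VVE : S_VVE := vve_of t_CHNof2

end Pool.Agent.H514.GE

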