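import Pool.Agent.H514.GE.VV2

/-! # Invariance of the conditions under isomorphism

Owner helper514. -/

set_option autoImplicit false

namespace Pool.Agent.H514.GE

open NumberField Pool.Agent.K1H79.GE
open scoped Classical nonZeroDivisors

namespace ISO

variable {E E' : Type} [Field E] [NumberField E] [Field E'] [NumberField E']

theorem finrank_map (e : E ≃ₐ[ℚ] E') (F : IntermediateField ℚ E) :
    Module.finrank ℚ (F.map (e : E →ₐ[ℚ] E')) = Module.finrank ℚ F :=
  (IntermediateField.intermediateFieldMap e F).symm.toLinearEquiv.finrank_eq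

theorem map_symm_map (e : E ≃ₐ[ℚ] E') (F : IntermediateField ℚ E') :
    (F.map (e.symm : E' →ₐ[ℚ] E)).map (e : E →ₐ[ℚ] E') = F := by
  ext x
  constructor
  · rintro ⟨y, ⟨z, hz, rfl⟩, rfl⟩
    simpa using hz
  · intro hx
    exact ⟨e.symm x, ⟨x, hx, rfl⟩, by simp⟩

theorem index_map (e : E ≃ₐ[ℚ] E') (F : IntermediateField ℚ E) :
    Module.finrank (F.map (e : E →ₐ[ℚ] E')) E' = Module.finrank F E := by
  have h1 := Module.finrank_mul_finrank ℚ (F.map (e : E →ₐ[ℚ] E')) E'
  have h2 := Module.finrank_mul_finrank ℚ F E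
  have h3 : Module.finrank ℚ E = Module.finrank ℚ E' := e.toLinearEquiv.finrank_eq
  rw [finrank_map e F, ← h3, ← h2] at h1
  exact Nat.eq_of_mul_eq_mul_left Module.finrank_pos h1

theorem tow_map (e : E ≃ₐ[ℚ] E') : ∀ (k : ℕ) (F : IntermediateField ℚ E), Tow E k F →
    Tow E' k (F.map (e : E →ₐ[ℚ] E'))
  | 0, F, h => by
    have hF : F = ⊤ := h
    change F.map (e : E →ₐ[ℚ] E') = ⊤
    rw [hF, eq_top_iff]
    intro x _
    exact ⟨e.symm x, IntermediateField.mem_top, by simp⟩
  | k + 1, F, h => by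
    obtain ⟨G, hFG, hG, hT⟩ := h
    refine ⟨G.map (e : E →ₐ[ℚ] E'), IntermediateField.map_mono _ hFG, ?_, tow_map e k G hT⟩
    rw [finrank_map, finrank_map, hG]

theorem noOm (e : E ≃ₐ[ℚ] E') (h : NoOm E) : NoOm E' := by
  intro z hz
  apply h (e.symm z)
  rw [← map_pow, ← map_add, ← map_one e.symm, ← map_add, hz, map_zero]

theorem oddTowE (e : E ≃ₐ[ℚ] E') {η : ℝ} (h : OddTowE η E) : OddTowE η E' := by
  intro F hF
  rw [← map_symm_map e F, index_map e] at hF
  rcases h _ hF with ⟨k, hk⟩ | hd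
  · left
    refine ⟨k, ?_⟩
    have := tow_map e k _ hk
    rwa [map_symm_map] at this
  · right
    rw [discr_eq_discr_of_algEquiv E e,
      ← discr_eq_discr_of_algEquiv F (IntermediateField.intermediateFieldMap e.symm F)] at hd
    exact hd

theorem good (e : E ≃ₐ[ℚ] E') {η : ℝ} (h : GoodE η E) : GoodE η E' := by
  have h3 : Module.finrank ℚ E = Module.finrank ℚ E' := e.toLinearEquiv.finrank_eq
  rcases h with h | h | h | ⟨h, h', h''⟩
  · exact Or.inl (h3 ▸ h)
  · exact Or.inr (Or.inl (h3 ▸ h))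
  · exact Or.inr (Or.inr (Or.inl (h3 ▸ h)))
  · exact Or.inr (Or.inr (Or.inr ⟨h3 ▸ h, noOm e h', oddTowE e h''⟩))

end ISO

/-- a good field is generated by its good subfields -/
theorem GoodE.gen {L : Type} [Field L] [NumberField L] {η : ℝ} (h : GoodE η L) : GenE η L := by
  rw [GenE, eq_top_iff]
  exact le_sSup (ISO.good (IntermediateField.topEquiv (F := ℚ) (E := L)).symm h)

/-- the field is generated by the conjugates of a good field -/
theorem gen_of_normalClosure {E L : Type} [Field E] [NumberField E] [Field L] [NumberField L]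
    {η : ℝ} (h : GoodE η E) (h1 : ⨆ f : E →ₐ[ℚ] L, f.fieldRange = ⊤) : GenE η L := by
  rw [GenE, eq_top_iff, ← h1]
  refine iSup_le fun f => ?_
  exact le_sSup (ISO.good (AlgEquiv.ofInjectiveField f) h)

end Pool.Agent.H514.GE
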