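import Pool.Agent.H514.GE.Stm
import Pool.Agent.H514.RF.Pri
import Pool.Graph.R_pool_sql_team_seeded_efc1946e.K1H79.RF.All

/-! # Reflection, and the results on primitive fields: consequences of the library and of `t_A1`, `t_A2`

Owner helper514. -/

set_option autoImplicit false

namespace Pool.Agent.H514.GE

open NumberField Pool.Agent.K1H79.GE Pool.Agent.K1H79.RF
open scoped Classical nonZeroDivisors

theorem t_DSC : S_DSC := by
  intro L K _ _ _ _ _ h2 ω hω hL
  exact (t_DISC L K h2 ω hω hL).2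

theorem t_REF : S_REF := by
  intro n
  refine ⟨3 ^ n + 2 * 27 ^ n, by positivity, ?_⟩
  intro L _ _ hn hno
  obtain ⟨K, _, _, _, h2, ω, hω⟩ := exists_K L hno
  refine ⟨K, inferInstance, inferInstance, inferInstance, h2, ⟨ω, hω⟩, ?_, ?_⟩
  · have h1 := (t_DISC L K h2 ω hω hno).2
    rw [hn] at h1
    refine h1.trans (mul_le_mul_of_nonneg_right ?_ (by positivity))
    have : (0 : ℝ) < 2 * 27 ^ n := by positivity
    linarith
  · have h1 := t_REFL Pool.Agent.H514.RF.t_A1 Pool.Agent.H514.RF.t_A2 L K h2 ω hω hno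
    rw [hn] at h1
    have h3 : ((Nat.card {c : ClassGroup (𝓞 L) // c ^ 3 = 1} : ℝ)) ^ 2 ≤
        2 * 27 ^ n * (Nat.card {c : ClassGroup (𝓞 K) // c ^ 3 = 1} : ℝ) := by
      exact_mod_cast h1
    refine h3.trans (mul_le_mul_of_nonneg_right ?_ (Nat.cast_nonneg _))
    have : (0 : ℝ) < 3 ^ n := by positivity
    linarith

/-- primitive fields of even degree -/
theorem prim_even (n : ℕ) (hn : Even n) (h4 : 4 ≤ n) (ε : ℝ) (hε : 0 < ε) : ∃ C : ℝ, 0 < C ∧
    ∀ (L : Type) [Field L] [NumberField L], Module.finrank ℚ L = n →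
      (∀ E : IntermediateField ℚ L, E = ⊥ ∨ E = ⊤) →
      (Nat.card {c : ClassGroup (𝓞 L) // c ^ 3 = 1} : ℝ) ≤
        C * |(discr L : ℝ)| ^ (1 / 2 - 1 / (3 * n * (n - 1)) + ε : ℝ) :=
  final_of Pool.Agent.H514.RF.t_A1 Pool.Agent.H514.RF.t_A2 n hn h4 ε hε

end Pool.Agent.H514.GE
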