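import Pool.Graph.R_pool_sql_team_seeded_efc1946e.K1H79.GE.StmA
import Pool.Graph.R_pool_sql_team_seeded_efc1946e.K1H79.SX.Stm

/-! # 3-torsion in even degree: statements of the remaining pieces (Mathlib only)

Owner helper514 (MP_695920_nt).  This completes the project GE of helper79 (run efc1946e).
`h3`, `S_GER` (namespace `K1H79.SX`), `NoOm`, `Gp`, `IsX3`, `Hs` (namespace `K1H79.GE`) are from the library. -/

set_option autoImplicit false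

namespace Pool.Agent.H514.GE

open NumberField Pool.Agent.K1H79.GE
open scoped Classical nonZeroDivisors

/-- extension of ideals -/
noncomputable abbrev ex (F L : Type) [Field F] [NumberField F] [Field L] [NumberField L] [Algebra F L]
    (I : Ideal (𝓞 F)) : Ideal (𝓞 L) := I.map (algebraMap (𝓞 F) (𝓞 L))

/-- `Q` is a prime of `L` above `P`, and either there is another one, or `P 𝓞_L` is an even power of `Q` -/
def TB (F L : Type) [Field F] [NumberField F] [Field L] [NumberField L] [Algebra F L]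
    (P : Ideal (𝓞 F)) (Q : Ideal (𝓞 L)) : Prop :=
  Q.IsPrime ∧ Q ≠ ⊥ ∧ Q ∣ ex F L P ∧
    ((∃ Q' : Ideal (𝓞 L), Q'.IsPrime ∧ Q' ∣ ex F L P ∧ Q' ≠ Q) ∨ ∃ e : ℕ, Even e ∧ ex F L P = Q ^ e)

/-- SPL: a prime of norm `1` modulo `3` splits in `K = L(ω)`, hence it is a relative norm -/
def S_SPL : Prop := ∀ (L K : Type) [Field L] [NumberField L] [Field K] [NumberField K] [Algebra L K],
  Module.finrank L K = 2 → ∀ ω : K, ω ^ 2 + ω + 1 = 0 → NoOm L →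
    ∀ Q : Ideal (𝓞 L), Q.IsPrime → Ideal.absNorm Q % 3 = 1 →
      ∃ I : Ideal (𝓞 K), Ideal.relNorm (𝓞 L) I = Q

/-- DIC: the dichotomy for a prime `P` of `F` of norm `2` modulo `3`, `[L : F]` even, `K = L(ω)` -/
def S_DIC : Prop := ∀ (F L K : Type) [Field F] [NumberField F] [Field L] [NumberField L] [Field K]
  [NumberField K] [Algebra F L] [Algebra L K], Even (Module.finrank F L) →
  Module.finrank L K = 2 → ∀ ω : K, ω ^ 2 + ω + 1 = 0 → NoOm L →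
    ∀ P : Ideal (𝓞 F), P.IsPrime → Ideal.absNorm P % 3 = 2 →
      (∃ Q : Ideal (𝓞 L), TB F L P Q) ∨ ∃ I : Ideal (𝓞 K), Ideal.relNorm (𝓞 L) I = ex F L P

def S_DICof : Prop := S_SPL → S_DIC

/-- SEPB: separation of the products of primes of type `TB` by the elements of `F` -/
def S_SEPB : Prop := ∀ (F L : Type) [Field F] [NumberField F] [Field L] [NumberField L] [Algebra F L]
  (P : ℕ → Ideal (𝓞 F)) (Q : ℕ → Ideal (𝓞 L)) (m m' : ℕ), Squarefree m → Squarefree m' →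
  (∀ p : ℕ, p.Prime → p ∣ m * m' → (P p).IsPrime ∧ ((p : ℕ) : 𝓞 F) ∈ P p ∧ TB F L (P p) (Q p)) →
  ∀ (α : F) (x y : 𝓞 L), x ≠ 0 → y ≠ 0 → (y : L) = algebraMap F L α * (x : L) →
    Ideal.span {x} * (∏ p ∈ m.primeFactors, Q p) ^ 3 = Ideal.span {y} * (∏ p ∈ m'.primeFactors, Q p) ^ 3 →
    m = m'

/-- SEPA: separation of the products of ideals of `K` with relative norm `P 𝓞_L` by the elements of `F(ω)` -/
def S_SEPA : Prop := ∀ (F L K : Type) [Field F] [NumberField F] [Field L] [NumberField L] [Field K]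
  [NumberField K] [Algebra F L] [Algebra L K], Module.finrank L K = 2 → ∀ ω : K, ω ^ 2 + ω + 1 = 0 →
  NoOm L → ∀ (P : ℕ → Ideal (𝓞 F)) (I : ℕ → Ideal (𝓞 K)) (m m' : ℕ), Squarefree m → Squarefree m' →
  (∀ p : ℕ, p.Prime → p ∣ m * m' → (P p).IsPrime ∧ ((p : ℕ) : 𝓞 F) ∈ P p ∧
    Ideal.absNorm (P p) % 3 = 2 ∧ Ideal.relNorm (𝓞 L) (I p) = ex F L (P p)) →
  ∀ (b c : F) (x y : 𝓞 K), x ≠ 0 → y ≠ 0 →
    (y : K) = (algebraMap L K (algebraMap F L b) + algebraMap L K (algebraMap F L c) * ω) * (x : K) →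
    Ideal.span {x} * (∏ p ∈ m.primeFactors, I p) ^ 3 = Ideal.span {y} * (∏ p ∈ m'.primeFactors, I p) ^ 3 →
    m = m'

/-- SMK: small elements of `K = L(ω)` have small coordinates -/
def S_SMK : Prop := ∀ (L K : Type) [Field L] [NumberField L] [Field K] [NumberField K] [Algebra L K],
  Module.finrank L K = 2 → ∀ ω : K, ω ^ 2 + ω + 1 = 0 → NoOm L → ∀ (z : K) (k : ℕ) (H : ℝ), 1 ≤ k →
    IsIntegral ℤ ((k : K) * z) → (∀ w : InfinitePlace K, w ((k : K) * z) ≤ H) →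
    ∃ b c : L, b ∈ Hs L (6 * H) ∧ c ∈ Hs L (6 * H) ∧ z = algebraMap L K b + algebraMap L K c * ω

/-- NT: there is a prime of norm `2` modulo `3` -/
def S_NT : Prop := ∀ (F : Type) [Field F] [NumberField F], NoOm F →
  ∃ P : Ideal (𝓞 F), P.IsPrime ∧ Ideal.absNorm P % 3 = 2

/-- LB: the bound for the L-functions (the same as `Pool.Agent.K1H26.GE.LB` in `K1H26/GE/PrmCore.lean`) -/
def S_LB : Prop := ∀ f : ℕ, ∃ C A : ℝ, 0 < C ∧ 0 < A ∧ ∀ (F : Type) [Field F] [NumberField F],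
  Module.finrank ℚ F = f → NoOm F → ∃ ψ : Ideal (𝓞 F) →*₀ ℝ, IsX3 F ψ ∧
    ∃ L : ℂ → ℂ, Differentiable ℂ L ∧
      (∀ s : ℂ, 1 < s.re → HasSum (fun 𝔞 : Ideal (𝓞 F) =>
        ((ψ 𝔞 : ℝ) : ℂ) * ((Ideal.absNorm 𝔞 : ℕ) : ℂ) ^ (-s)) (L s)) ∧
      ∀ s : ℂ, ‖s - 2‖ ≤ 2 → ‖L s‖ ≤ C * |(discr F : ℝ)| ^ A

/-- PRIM: many squarefree products of good primes (the same as `Pool.Agent.K1H26.GE.PRIM`) -/
def S_PRIM : Prop := ∀ f : ℕ, 1 ≤ f → ∃ c C : ℝ, 0 < c ∧ 0 < C ∧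
  ∀ (F : Type) [Field F] [NumberField F],
  Module.finrank ℚ F = f → NoOm F → ∀ X : ℝ, C * |(discr F : ℝ)| ^ C ≤ X →
    ∃ M : Finset ℕ, (∀ m ∈ M, Squarefree m ∧ (m : ℝ) ≤ X ∧ ∀ p : ℕ, p.Prime → p ∣ m → Gp F p) ∧
      X ^ c ≤ (M.card : ℝ)

/-- two ideals in the same cell (the same as `Pool.Agent.K1H79.Q3.Rel`) -/
def Rel (B : ℝ) (M : Type) [Field M] [NumberField M] (𝔞 𝔟 : Ideal (𝓞 M)) : Prop :=
  ∃ x y : 𝓞 M, x ≠ 0 ∧ y ≠ 0 ∧ Ideal.span {x} * 𝔞 ^ 3 = Ideal.span {y} * 𝔟 ^ 3 ∧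
    ∀ w : InfinitePlace M, w (y : M) ≤ B *
      ((Ideal.absNorm 𝔞 : ℝ) / Ideal.absNorm 𝔟) ^ ((3 : ℝ) / Module.finrank ℚ M) * w (x : M)

/-- CNT: the counting inequality -/
def S_CNT : Prop := ∀ (n : ℕ) (ε : ℝ), 1 ≤ n → 0 < ε → ∃ B C : ℝ, 0 < B ∧ 0 < C ∧
  ∀ (M : Type) [Field M] [NumberField M], Module.finrank ℚ M = n →
    ∀ S : Finset (Ideal (𝓞 M)), (∀ 𝔞 ∈ S, 𝔞 ≠ ⊥) →
      (∀ 𝔞 ∈ S, ∀ 𝔟 ∈ S, Rel B M 𝔞 𝔟 → 𝔞 = 𝔟) →
      (S.card : ℝ) * (Nat.card {c : ClassGroup (𝓞 M) // c ^ 3 = 1} : ℝ) ≤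
        C * |(discr M : ℝ)| ^ (1 / 2 + ε)

/-- REF: reflection, `K = L(ω)` (follows from the library: `K1H79.RF.t_REFL`, `t_DISC`) -/
def S_REF : Prop := ∀ n : ℕ, ∃ C : ℝ, 0 < C ∧ ∀ (L : Type) [Field L] [NumberField L],
  Module.finrank ℚ L = n → NoOm L → ∃ (K : Type) (_ : Field K) (_ : NumberField K) (_ : Algebra L K),
    Module.finrank L K = 2 ∧ (∃ ω : K, ω ^ 2 + ω + 1 = 0) ∧ |(discr K : ℝ)| ≤ C * |(discr L : ℝ)| ^ 2 ∧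
    (Nat.card {c : ClassGroup (𝓞 L) // c ^ 3 = 1} : ℝ) ^ 2 ≤
      C * (Nat.card {c : ClassGroup (𝓞 K) // c ^ 3 = 1} : ℝ)

/-- CB: case B, the counting inequality in `L`; `F` contains the small integers of `L` -/
def S_CB : Prop := ∀ (n : ℕ) (ε : ℝ), 1 ≤ n → 0 < ε → ∃ C : ℝ, 1 ≤ C ∧
  ∀ (L : Type) [Field L] [NumberField L], Module.finrank ℚ L = n → ∀ (F : IntermediateField ℚ L) (X : ℝ),
    1 ≤ X → Hs L (C * X ^ 6) ≤ F → ∀ (P : ℕ → Ideal (𝓞 F)) (Q : ℕ → Ideal (𝓞 L)) (M : Finset ℕ),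
    (∀ m ∈ M, Squarefree m ∧ (m : ℝ) ≤ X ∧ ∀ p : ℕ, p.Prime → p ∣ m →
      (P p).IsPrime ∧ ((p : ℕ) : 𝓞 F) ∈ P p ∧ TB F L (P p) (Q p)) →
    (M.card : ℝ) * (Nat.card {c : ClassGroup (𝓞 L) // c ^ 3 = 1} : ℝ) ≤ C * |(discr L : ℝ)| ^ (1 / 2 + ε)

def S_CBof : Prop := S_SEPB → S_CNT → S_CB

/-- CA: case A, the counting inequality in `K = L(ω)` -/
def S_CA : Prop := ∀ (n : ℕ) (ε : ℝ), 1 ≤ n → 0 < ε → ∃ C : ℝ, 1 ≤ C ∧
  ∀ (L K : Type) [Field L] [NumberField L] [Field K] [NumberField K] [Algebra L K],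
    Module.finrank ℚ L = n → Module.finrank L K = 2 → ∀ ω : K, ω ^ 2 + ω + 1 = 0 → NoOm L →
    ∀ (F : IntermediateField ℚ L) (X : ℝ), 1 ≤ X → Hs L (C * X ^ 6) ≤ F →
    ∀ (P : ℕ → Ideal (𝓞 F)) (I : ℕ → Ideal (𝓞 K)) (M : Finset ℕ),
    (∀ m ∈ M, Squarefree m ∧ (m : ℝ) ≤ X ∧ ∀ p : ℕ, p.Prime → p ∣ m →
      (P p).IsPrime ∧ ((p : ℕ) : 𝓞 F) ∈ P p ∧ Ideal.absNorm (P p) % 3 = 2 ∧
        Ideal.relNorm (𝓞 L) (I p) = ex F L (P p)) →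
    (M.card : ℝ) * (Nat.card {c : ClassGroup (𝓞 K) // c ^ 3 = 1} : ℝ) ≤ C * |(discr K : ℝ)| ^ (1 / 2 + ε)

def S_CAof : Prop := S_SEPA → S_SMK → S_CNT → S_CA

/-- STEP: one scale.  If the field `F = Hs L H` of the small integers does not grow up to the scale `C X^6`,
has even index and small discriminant, then there is a saving `X^c` (`c`, `E` do not depend on `ε`). -/
def S_STEP : Prop := ∀ n : ℕ, 1 ≤ n → ∃ c E : ℝ, 0 < c ∧ 1 ≤ E ∧ ∀ ε : ℝ, 0 < ε → ∃ C : ℝ, 1 ≤ C ∧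
  ∀ (L : Type) [Field L] [NumberField L], Module.finrank ℚ L = n → NoOm L → ∀ H X : ℝ, 1 ≤ H → 1 ≤ X →
    Hs L (C * X ^ 6) ≤ Hs L H → Even (Module.finrank (Hs L H) L) →
    E * |(discr (Hs L H) : ℝ)| ^ E ≤ X →
    (Nat.card {c : ClassGroup (𝓞 L) // c ^ 3 = 1} : ℝ) ≤ C * |(discr L : ℝ)| ^ (1 / 2 + ε) * X ^ (-c)

def S_STEPof : Prop := S_PRIM → S_DIC → S_CA → S_CB → S_REF → S_STEP

/-- GE: **the result in even degree** -/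
def S_GE : Prop := ∀ n : ℕ, Even n → 2 ≤ n → ∀ η : ℝ, 0 < η → ∃ δ C : ℝ, 0 < δ ∧ 0 < C ∧
  ∀ (L : Type) [Field L] [NumberField L], Module.finrank ℚ L = n → NoOm L →
    (∀ F : IntermediateField ℚ L, Odd (Module.finrank F L) →
      |(discr L : ℝ)| ^ η ≤ |(discr F : ℝ)|) →
    (Nat.card {c : ClassGroup (𝓞 L) // c ^ 3 = 1} : ℝ) ≤ C * |(discr L : ℝ)| ^ (1 / 2 - δ : ℝ)

/-- the chain of scales -/
def S_GEof : Prop := S_STEP → Pool.Agent.K1H79.GE.S_SUB → Pool.Agent.K1H79.SX.S_TRIV → S_GE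

/-- DSC: the discriminant of `F(ω)` (proved in the library, `K1H79.RF.t_DISC`) -/
def S_DSC : Prop := ∀ (L K : Type) [Field L] [NumberField L] [Field K] [NumberField K] [Algebra L K],
  Module.finrank L K = 2 → ∀ ω : K, ω ^ 2 + ω + 1 = 0 → (∀ z : L, z ^ 2 + z + 1 ≠ 0) →
    |(discr K : ℝ)| ≤ 3 ^ (Module.finrank ℚ L) * |(discr L : ℝ)| ^ 2

/-- TH: the fields of degree `3 * 2 ^ a` -/
def S_TH : Prop := ∀ a : ℕ, 1 ≤ a → ∃ δ C : ℝ, 0 < δ ∧ 0 < C ∧ ∀ (L : Type) [Field L] [NumberField L],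
  Module.finrank ℚ L = 3 * 2 ^ a → NoOm L →
    (Nat.card {c : ClassGroup (𝓞 L) // c ^ 3 = 1} : ℝ) ≤ C * |(discr L : ℝ)| ^ (1 / 2 - δ : ℝ)

def S_THof : Prop := S_GE → Pool.Agent.K1H79.SX.S_GER → Pool.Agent.K1H79.SX.S_TRIV → S_DSC → S_TH

/-- the quartic fields which contain `√-3` (the same as `Pool.Agent.K1H79.Q3.S_QW`, proved in the library) -/
def S_QW : Prop := ∃ δ C : ℝ, 0 < δ ∧ 0 < C ∧ ∀ (L : Type) [Field L] [NumberField L],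
  Module.finrank ℚ L = 4 → (∃ z : L, z ^ 2 + z + 1 = 0) →
    (Nat.card {c : ClassGroup (𝓞 L) // c ^ 3 = 1} : ℝ) ≤ C * |(discr L : ℝ)| ^ (1 / 2 - δ : ℝ)

/-- the sextic fields (all of them) -/
def S_SIX : Prop := ∃ δ C : ℝ, 0 < δ ∧ 0 < C ∧ ∀ (L : Type) [Field L] [NumberField L],
  Module.finrank ℚ L = 6 →
    (Nat.card {c : ClassGroup (𝓞 L) // c ^ 3 = 1} : ℝ) ≤ C * |(discr L : ℝ)| ^ (1 / 2 - δ : ℝ)

def S_SIXof : Prop := S_TH → Pool.Agent.K1H79.SX.S_GER → S_QW → S_SIX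

end Pool.Agent.H514.GE
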