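import Pool.Agent.H514.GE.Stm
import Pool.Graph.R_pool_sql_team_seeded_efc1946e.K1H79.TW.Stm

/-! # 3-torsion: towers of cubic extensions; statements (Mathlib only)

Owner helper514 (MP_695920_nt).  `S_T` (namespace `K1H79.TW`) is the transfer principle. -/

set_option autoImplicit false

namespace Pool.Agent.H514.GE

open NumberField Pool.Agent.K1H79.GE
open scoped Classical nonZeroDivisors

/-- `F` is joined to `L` by a tower of `k` cubic extensions -/
def Tow (L : Type) [Field L] [NumberField L] : ℕ → IntermediateField ℚ L → Prop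
  | 0, F => F = ⊤
  | k + 1, F => ∃ E : IntermediateField ℚ L, F ≤ E ∧
      Module.finrank ℚ E = 3 * Module.finrank ℚ F ∧ Tow L k E

/-- all subfields of odd index are joined to `L` by towers of cubic extensions -/
def OddTow (L : Type) [Field L] [NumberField L] : Prop :=
  ∀ F : IntermediateField ℚ L, Odd (Module.finrank F L) → ∃ k : ℕ, Tow L k F

/-- CUB: cubic extensions of fields with small discriminant -/
def S_CUB : Prop := ∀ m : ℕ, 1 ≤ m → ∃ κ δ C : ℝ, 0 < κ ∧ 0 < δ ∧ 0 < C ∧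
  ∀ (E L : Type) [Field E] [NumberField E] [Field L] [NumberField L] [Algebra E L],
    Module.finrank ℚ E = m → Module.finrank E L = 3 → NoOm L →
    |(discr E : ℝ)| ≤ |(discr L : ℝ)| ^ κ →
    (Nat.card {c : ClassGroup (𝓞 L) // c ^ 3 = 1} : ℝ) ≤ C * |(discr L : ℝ)| ^ (1 / 2 - δ : ℝ)

def S_CUBof : Prop := S_GE → Pool.Agent.K1H79.SX.S_GER → Pool.Agent.K1H79.SX.S_TRIV → S_DSC →
  Pool.Agent.K1H79.GE.S_SUB → S_CUB

/-- CHN: towers of cubic extensions over a field with small discriminant -/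
def S_CHN : Prop := ∀ n k : ℕ, 1 ≤ n → ∃ κ δ C : ℝ, 0 < κ ∧ 0 < δ ∧ 0 < C ∧
  ∀ (L : Type) [Field L] [NumberField L], Module.finrank ℚ L = n → NoOm L →
    ∀ F : IntermediateField ℚ L, Tow L k F → |(discr F : ℝ)| ≤ |(discr L : ℝ)| ^ κ →
    (Nat.card {c : ClassGroup (𝓞 L) // c ^ 3 = 1} : ℝ) ≤ C * |(discr L : ℝ)| ^ (1 / 2 - δ : ℝ)

def S_CHNof : Prop := S_CUB → Pool.Agent.K1H79.TW.S_T → Pool.Agent.K1H79.SX.S_TRIV → S_CHN

/-- UU: **the general theorem** for the fields without `√-3` -/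
def S_UU : Prop := ∀ n : ℕ, 2 ≤ n → ∃ δ C : ℝ, 0 < δ ∧ 0 < C ∧
  ∀ (L : Type) [Field L] [NumberField L], Module.finrank ℚ L = n → NoOm L → OddTow L →
    (Nat.card {c : ClassGroup (𝓞 L) // c ^ 3 = 1} : ℝ) ≤ C * |(discr L : ℝ)| ^ (1 / 2 - δ : ℝ)

def S_UUof : Prop := S_GE → S_CHN → Pool.Agent.K1H79.SX.S_TRIV → S_UU

/-- a tower of extensions of degrees at most four -/
def Tower4 (L : Type) [Field L] [NumberField L] : Prop :=
  ∃ (r : ℕ) (G : ℕ → IntermediateField ℚ L), G 0 = ⊥ ∧ G r = ⊤ ∧ ∀ i < r, G i ≤ G (i + 1) ∧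
    Module.finrank ℚ (G (i + 1)) ≤ 4 * Module.finrank ℚ (G i)

/-- TW4: towers of extensions of degrees at most four satisfy the condition -/
def S_TW4 : Prop := ∀ (L : Type) [Field L] [NumberField L], Tower4 L → OddTow L

/-- EXP: examples of `OddTow`: degrees `2 ^ a`, `3 * 2 ^ a`, and even degree without proper subfields -/
def S_EXP : Prop := ∀ (L : Type) [Field L] [NumberField L],
  ((∃ a : ℕ, Module.finrank ℚ L = 2 ^ a) ∨ (∃ a : ℕ, Module.finrank ℚ L = 3 * 2 ^ a) ∨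
    (Even (Module.finrank ℚ L) ∧ ∀ E : IntermediateField ℚ L, E = ⊥ ∨ E = ⊤)) → OddTow L

end Pool.Agent.H514.GE
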