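import Pool.Agent.H514.GE.Stm2

/-! # 3-torsion: fields generated by good subfields, Galois fields of degree `2^a 3^b`; statements

Owner helper514 (MP_695920_nt). -/

set_option autoImplicit false

namespace Pool.Agent.H514.GE

open NumberField Pool.Agent.K1H79.GE
open scoped Classical nonZeroDivisors

/-- INV: an involution in a group of order `2 * 3 ^ (k + 1)` lies in a subgroup of index `3` -/
def S_INVO : Prop := ∀ (G : Type) [Group G] [Finite G] (k : ℕ) (c : G), Nat.card G = 2 * 3 ^ (k + 1) →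
  c ^ 2 = 1 → c ≠ 1 → ∃ H : Subgroup G, c ∈ H ∧ Nat.card H = 2 * 3 ^ k

/-- G1: Galois fields of degree `2 ^ a * 3 ^ b` satisfy the condition -/
def S_G1 : Prop := ∀ (L : Type) [Field L] [NumberField L] [IsGalois ℚ L] (a b : ℕ),
  Module.finrank ℚ L = 2 ^ a * 3 ^ b → OddTow L

/-- G2: the subfields of index `2` of the Galois fields of degree `2 ^ a * 3 ^ b` satisfy the condition -/
def S_G2 : Prop := ∀ (L : Type) [Field L] [NumberField L] [IsGalois ℚ L] (a b : ℕ),
  Module.finrank ℚ L = 2 ^ a * 3 ^ b → ∀ F : IntermediateField ℚ L, Module.finrank F L = 2 → OddTow F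

def S_G2of : Prop := S_INVO → S_G2

/-- a good field: degree `2`, `4` or `6`, or without `√-3` and with the tower condition -/
def Good (E : Type) [Field E] [NumberField E] : Prop :=
  Module.finrank ℚ E = 2 ∨ Module.finrank ℚ E = 4 ∨ Module.finrank ℚ E = 6 ∨
    (2 ≤ Module.finrank ℚ E ∧ NoOm E ∧ OddTow E)

/-- CMP: a field which is generated by subfields has a large one among them -/
def S_CMP : Prop := ∀ n : ℕ, ∃ A C : ℝ, 0 < A ∧ 0 < C ∧ ∀ (L : Type) [Field L] [NumberField L],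
  Module.finrank ℚ L = n → 2 ≤ n → ∀ T : Set (IntermediateField ℚ L), sSup T = ⊤ →
    ∃ E ∈ T, |(discr L : ℝ)| ≤ C * |(discr E : ℝ)| ^ A

/-- VV: the fields which are generated by good subfields -/
def S_VV : Prop := ∀ n : ℕ, 2 ≤ n → ∃ δ C : ℝ, 0 < δ ∧ 0 < C ∧
  ∀ (L : Type) [Field L] [NumberField L], Module.finrank ℚ L = n →
    sSup {E : IntermediateField ℚ L | Good E} = ⊤ →
    (Nat.card {c : ClassGroup (𝓞 L) // c ^ 3 = 1} : ℝ) ≤ C * |(discr L : ℝ)| ^ (1 / 2 - δ : ℝ)

def S_VVof : Prop := S_UU → S_SIX → S_QW → S_CMP → Pool.Agent.K1H79.TW.S_T → S_VV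

end Pool.Agent.H514.GE
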