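import Pool.Agent.H514.GE.Stm
import Pool.Graph.R_pool_sql_team_seeded_3997aac3.Q284.SP.Grw

/-! # Uniform bounds for the L-functions of primitive ray class characters: statements

Owner helper514. -/

set_option autoImplicit false

namespace Pool.Agent.H514.GE

open NumberField Pool.Agent.K1H79.GE Pool.Agent.Q92.AR
open Pool.Agent.Y773 (LI)
open scoped Classical nonZeroDivisors

/-- LBP: `poly_prim` (in `Q284/SP/Grw.lean`) with explicit constants -/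
def S_LBP : Prop := ∀ (K : Type) [Field K] [NumberField K] (𝔣 : Ideal (𝓞 K)) (e : InfinitePlace K → ℕ)
    (ψ : Ideal (𝓞 K) →*₀ ℂ), 𝔣 ≠ ⊥ → (∀ w, e w ≤ 1) → (∀ w : InfinitePlace K, w.IsComplex → e w = 0) →
    (∀ 𝔞 : Ideal (𝓞 K), 𝔞 ≠ ⊥ → (ψ 𝔞 ≠ 0 ↔ IsCoprime 𝔞 𝔣)) →
    (∀ x : 𝓞 K, x ≠ 0 → x - 1 ∈ 𝔣 → ψ (Ideal.span {x}) =
      ∏ w : InfinitePlace K, (((SignType.sign (w.embedding (x : K)).re : SignType) : ℤ) : ℂ) ^ e w) →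
    (∀ 𝔤 : Ideal (𝓞 K), 𝔤 ∣ 𝔣 → 𝔤 ≠ 𝔣 → ∃ x : 𝓞 K, x - 1 ∈ 𝔤 ∧ Pos (x : K) ∧
      IsCoprime (Ideal.span {x}) 𝔣 ∧ ψ (Ideal.span {x}) ≠ 1) →
    (¬ ∀ 𝔞 : Ideal (𝓞 K), 𝔞 ≠ ⊥ → ψ 𝔞 = 1) →
    (∀ 𝔞, ‖ψ 𝔞‖ ≤ 1) ∧ ∀ B : ℝ, (∀ s : ℂ, 3 / 2 ≤ s.re → ‖LI ψ s‖ ≤ B) →
      ∃ g : ℂ → ℂ, Differentiable ℂ g ∧ (∀ s : ℂ, 1 < s.re → LI ψ s = g s) ∧
        ∀ s : ℂ, -1 / 2 ≤ s.re → ‖g s‖ ≤ B * ((Ideal.absNorm 𝔣 : ℝ) *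
          (Ideal.absNorm (differentIdeal ℤ (𝓞 K)) : ℝ)) * 3 ^ (Module.finrank ℚ K) *
            (1 + ‖s‖) ^ (Module.finrank ℚ K)

def S_LBof : Prop := S_LBP → S_NT → S_LB

end Pool.Agent.H514.GE
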