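import Pool.Agent.H514.GE.Stm

/-! # The fields of degree `3 * 2 ^ a` -/

set_option autoImplicit false

namespace Pool.Agent.H514.GE

open NumberField Pool.Agent.K1H79.GE Pool.Agent.K1H79.SX
open scoped Classical nonZeroDivisors

namespace TH

theorem top_discr {L : Type} [Field L] [NumberField L] (F : IntermediateField ℚ L)
    (h : Module.finrank F L = 1) : discr F = discr L := by
  have h1 : F = ⊤ := IntermediateField.finrank_eq_one_iff_eq_top.1 h
  subst h1
  exact NumberField.discr_eq_discr_of_algEquiv _ IntermediateField.topEquiv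

theorem one_le_disc (L : Type) [Field L] [NumberField L] : 1 ≤ |(discr L : ℝ)| := by
  have h : 1 ≤ |discr L| := Int.one_le_abs (discr_ne_zero L)
  exact_mod_cast h

/-- GE for the fields of `2`-power degree -/
theorem two_power (hGE : S_GE) (a : ℕ) : ∃ δ C : ℝ, 0 < δ ∧ δ ≤ 1 / 4 ∧ 0 < C ∧
    ∀ (L : Type) [Field L] [NumberField L], Module.finrank ℚ L = 2 ^ (a + 1) → NoOm L →
      (h3 L : ℝ) ≤ C * |(discr L : ℝ)| ^ (1 / 2 - δ : ℝ) := by
  obtain ⟨δ, C, hδ, hC, h⟩ := hGE (2 ^ (a + 1)) ⟨2 ^ a, by rw [pow_succ]; ring⟩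
    (by rw [pow_succ]; have := Nat.one_le_two_pow (n := a); omega) 1 one_pos
  refine ⟨min δ (1 / 4), C, lt_min hδ (by norm_num), min_le_right _ _, hC, ?_⟩
  intro L _ _ hL hNo
  refine (h L hL hNo fun F hF => ?_).trans ?_
  · have h1 : Module.finrank F L ∣ 2 ^ (a + 1) := by
      rw [← hL, ← Module.finrank_mul_finrank ℚ F L]
      exact Dvd.intro_left _ rfl
    have h2 : Module.finrank F L = 1 := by
      have h3 : Nat.Coprime (Module.finrank F L) (2 ^ (a + 1)) :=
        (Nat.Coprime.pow_right _ (Nat.coprime_two_right.2 hF))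
      exact Nat.Coprime.eq_one_of_dvd h3 h1
    rw [top_discr F h2, Real.rpow_one]
  · refine mul_le_mul_of_nonneg_left ?_ hC.le
    refine Real.rpow_le_rpow_of_exponent_le (one_le_disc L) ?_
    linarith [min_le_left δ (1 / 4)]

end TH

open TH in
theorem t_THof : S_THof := by
  intro hGE hGER hTRIV hDSC a ha
  obtain ⟨d, C1, hd, hd4, hC1, h1⟩ := two_power hGE a
  obtain ⟨CG, hCG, hG⟩ := hGER (2 ^ a) (d / 8) (by positivity)
  obtain ⟨CV, hCV, hV⟩ := hTRIV (2 ^ (a + 1))
  obtain ⟨η, hη0, hη1, hη2⟩ : ∃ η : ℝ, 0 < η ∧ η ≤ 1 / 32 ∧ CG * η ≤ d / 8 := by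
    refine ⟨min (d / (8 * CG)) (1 / 32), lt_min (by positivity) (by norm_num), min_le_right _ _, ?_⟩
    calc CG * min (d / (8 * CG)) (1 / 32) ≤ CG * (d / (8 * CG)) :=
          mul_le_mul_of_nonneg_left (min_le_left _ _) hCG.le
      _ = d / 8 := by field_simp
  have hn1 : Even (3 * 2 ^ a) := by
    obtain ⟨b, rfl⟩ : ∃ b, a = b + 1 := ⟨a - 1, by omega⟩
    exact ⟨3 * 2 ^ b, by rw [pow_succ]; ring⟩
  have hn2 : 2 ≤ 3 * 2 ^ a := by
    have := Nat.one_le_two_pow (n := a)
    omega
  obtain ⟨δ2, C2, hδ2, hC2, h2⟩ := hGE (3 * 2 ^ a) hn1 hn2 η hη0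
  refine ⟨min δ2 (d / 2), C2 + CG + CG * (C1 * CG ^ (1 / 2 - d : ℝ)) + CG * (CV * 3 ^ (2 ^ a)),
    lt_min hδ2 (by positivity), by positivity, ?_⟩
  intro L _ _ hL hNo
  have hD1 := one_le_disc L
  obtain ⟨D, hD⟩ : ∃ D : ℝ, D = |(discr L : ℝ)| := ⟨_, rfl⟩
  have hmin1 : min δ2 (d / 2) ≤ δ2 := min_le_left _ _
  have hmin2 : min δ2 (d / 2) ≤ d / 2 := min_le_right _ _
  obtain ⟨δ, hδ⟩ : ∃ δ : ℝ, δ = min δ2 (d / 2) := ⟨_, rfl⟩
  rw [← hδ] at hmin1 hmin2 ⊢
  rw [← hD] at hD1 ⊢
  have hD0 : 0 < D := by linarith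
  -- the final comparison
  have fin : ∀ c : ℝ, 0 ≤ c → c ≤ C2 + CG + CG * (C1 * CG ^ (1 / 2 - d : ℝ)) +
      CG * (CV * 3 ^ (2 ^ a)) → ∀ e : ℝ, e ≤ 1 / 2 - δ → c * D ^ e ≤
      (C2 + CG + CG * (C1 * CG ^ (1 / 2 - d : ℝ)) + CG * (CV * 3 ^ (2 ^ a))) * D ^ (1 / 2 - δ) := by
    intro c hc0 hc e he
    exact mul_le_mul hc (Real.rpow_le_rpow_of_exponent_le hD1 he) (by positivity) (by positivity)
  have p1 : 0 < C1 * CG ^ (1 / 2 - d : ℝ) := by positivity
  have p2 : 0 < CV * (3 : ℝ) ^ (2 ^ a) := by positivity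
  have p3 : 0 < CG * (C1 * CG ^ (1 / 2 - d : ℝ)) := by positivity
  have p4 : 0 < CG * (CV * (3 : ℝ) ^ (2 ^ a)) := by positivity
  by_cases hcase : ∀ F : IntermediateField ℚ L, Odd (Module.finrank F L) →
      |(discr L : ℝ)| ^ η ≤ |(discr F : ℝ)|
  · have h3 := h2 L hL hNo hcase
    rw [← hD] at h3
    exact h3.trans (fin C2 hC2.le (by linarith) _ (by linarith))
  · push Not at hcase
    obtain ⟨F, hF, hFD⟩ := hcase
    rw [← hD] at hFD
    have hmul : Module.finrank ℚ F * Module.finrank F L = 3 * 2 ^ a := by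
      rw [Module.finrank_mul_finrank ℚ F L, hL]
    have hdvd : Module.finrank F L ∣ 3 := by
      have h3 : Nat.Coprime (Module.finrank F L) (2 ^ a) :=
        (Nat.Coprime.pow_right _ (Nat.coprime_two_right.2 hF))
      exact h3.dvd_of_dvd_mul_right (by rw [← hmul]; exact Dvd.intro_left _ rfl)
    have hFL : Module.finrank F L = 3 := by
      rcases (Nat.dvd_prime Nat.prime_three).1 hdvd with h | h
      · exfalso
        rw [top_discr F h, ← hD] at hFD
        have : D ^ η ≤ D ^ (1 : ℝ) := Real.rpow_le_rpow_of_exponent_le hD1 (by linarith)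
        rw [Real.rpow_one] at this
        linarith
      · exact h
    have hQF : Module.finrank ℚ F = 2 ^ a := by
      rw [hFL] at hmul
      omega
    have hF1 := one_le_disc F
    have hF0 : 0 < |(discr F : ℝ)| := by linarith
    have hFe : ∀ e : ℝ, 0 ≤ e → |(discr F : ℝ)| ^ e ≤ D ^ (η * e) := by
      intro e he
      rw [Real.rpow_mul hD0.le]
      exact Real.rpow_le_rpow hF0.le hFD.le he
    have hNoF : ∀ z : F, z ^ 2 + z + 1 ≠ 0 := by
      intro z hz
      refine hNo (z : L) ?_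
      have := congrArg (algebraMap F L) hz
      simpa using this
    rcases hG F L hQF hFL with hA | ⟨F', iF, iN, iA, hF2, hdF', hh⟩
    · rw [← hD] at hA
      have h3 : (h3 L : ℝ) ≤ CG * D ^ (d / 8 + η * CG) := by
        refine hA.trans ?_
        rw [Real.rpow_add hD0, ← mul_assoc]
        exact mul_le_mul_of_nonneg_left (hFe CG hCG.le) (by positivity)
      exact h3.trans (fin CG hCG.le (by linarith) _ (by nlinarith))
    · letI := iF
      let _ := iN
      let _ := iA
      rw [← hD] at hdF' hh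
      have hQF' : Module.finrank ℚ F' = 2 ^ (a + 1) := by
        rw [← Module.finrank_mul_finrank ℚ F F', hQF, hF2, pow_succ]
      have hF'1 := one_le_disc F'
      have hF'0 : 0 < |(discr F' : ℝ)| := by linarith
      have hdF'2 : |(discr F' : ℝ)| ≤ CG * D ^ (1 + η * CG) := by
        refine hdF'.trans ?_
        have e : D ^ (1 + η * CG) = D ^ (η * CG) * D := by
          rw [Real.rpow_add hD0, Real.rpow_one]
          ring
        rw [e, ← mul_assoc]
        exact mul_le_mul_of_nonneg_right (mul_le_mul_of_nonneg_left (hFe CG hCG.le) hCG.le) hD0.le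
      have hL2 : (h3 L : ℝ) ≤ CG * D ^ (d / 8 + η * CG) * h3 F' := by
        refine hh.trans ?_
        refine mul_le_mul_of_nonneg_right ?_ (Nat.cast_nonneg _)
        rw [Real.rpow_add hD0, ← mul_assoc]
        exact mul_le_mul_of_nonneg_left (hFe CG hCG.le) (by positivity)
      by_cases hom : NoOm F'
      · have h4 := h1 F' hQF' hom
        have h5 : |(discr F' : ℝ)| ^ (1 / 2 - d : ℝ) ≤
            CG ^ (1 / 2 - d : ℝ) * D ^ ((1 + η * CG) * (1 / 2 - d)) := by
          rw [Real.rpow_mul hD0.le, ← Real.mul_rpow hCG.le (by positivity)]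
          exact Real.rpow_le_rpow hF'0.le hdF'2 (by linarith)
        have h6 : (h3 L : ℝ) ≤ CG * (C1 * CG ^ (1 / 2 - d : ℝ)) *
            D ^ ((d / 8 + η * CG) + (1 + η * CG) * (1 / 2 - d)) := by
          refine hL2.trans ?_
          calc CG * D ^ (d / 8 + η * CG) * (h3 F' : ℝ)
              ≤ CG * D ^ (d / 8 + η * CG) * (C1 * (CG ^ (1 / 2 - d : ℝ) *
                D ^ ((1 + η * CG) * (1 / 2 - d)))) := by
                refine mul_le_mul_of_nonneg_left (h4.trans ?_) (by positivity)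
                exact mul_le_mul_of_nonneg_left h5 hC1.le
            _ = _ := by
                rw [Real.rpow_add hD0 (d / 8 + η * CG)]
                ring
        refine h6.trans (fin _ p3.le (by linarith) _ ?_)
        nlinarith
      · unfold NoOm at hom
        push Not at hom
        obtain ⟨z, hz⟩ := hom
        have h4 := hDSC F F' hF2 z hz hNoF
        rw [hQF] at h4
        have h5 : (h3 F' : ℝ) ≤ CV * (3 ^ (2 ^ a) * D ^ (η * 2)) := by
          refine (hV F' hQF').trans (mul_le_mul_of_nonneg_left (h4.trans ?_) hCV.le)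
          refine mul_le_mul_of_nonneg_left ?_ (by positivity)
          have := hFe 2 (by norm_num)
          rwa [Real.rpow_two] at this
        have h6 : (h3 L : ℝ) ≤ CG * (CV * 3 ^ (2 ^ a)) * D ^ ((d / 8 + η * CG) + η * 2) := by
          refine hL2.trans ?_
          calc CG * D ^ (d / 8 + η * CG) * (h3 F' : ℝ)
              ≤ CG * D ^ (d / 8 + η * CG) * (CV * (3 ^ (2 ^ a) * D ^ (η * 2))) :=
                mul_le_mul_of_nonneg_left h5 (by positivity)
            _ = _ := by
                rw [Real.rpow_add hD0 (d / 8 + η * CG)]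
                ring
        exact h6.trans (fin _ p4.le (by linarith) _ (by linarith))

end Pool.Agent.H514.GE
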