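import Pool.Agent.H514.GE.Stm2

/-! # 3-torsion: the general theorem for fields without `√-3` (part UU, written by helper921) -/

set_option autoImplicit false

namespace Pool.Agent.H514.GE

open NumberField Pool.Agent.K1H79.GE
open scoped Classical nonZeroDivisors

namespace UU

theorem tow_finrank {L : Type} [Field L] [NumberField L] : ∀ (k : ℕ) (F : IntermediateField ℚ L),
    Tow L k F → Module.finrank ℚ L = 3 ^ k * Module.finrank ℚ F
  | 0, F, h => by
    have hF : F = ⊤ := h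
    rw [hF, pow_zero, one_mul]
    exact IntermediateField.finrank_top'.symm
  | k + 1, F, h => by
    obtain ⟨E, _, hE, hT⟩ := h
    rw [tow_finrank k E hT, hE, pow_succ]
    ring

theorem tow_le {L : Type} [Field L] [NumberField L] (k : ℕ) (F : IntermediateField ℚ L)
    (h : Tow L k F) : k ≤ Module.finrank ℚ L := by
  have h1 := tow_finrank k F h
  have h2 : 0 < Module.finrank ℚ L := Module.finrank_pos
  have h3 : 0 < Module.finrank ℚ F := by
    rcases Nat.eq_zero_or_pos (Module.finrank ℚ F) with h0 | h0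
    · rw [h0, mul_zero] at h1
      omega
    · exact h0
  have h4 : k < 3 ^ k := Nat.lt_pow_self (by norm_num)
  calc k ≤ 3 ^ k := h4.le
    _ ≤ 3 ^ k * Module.finrank ℚ F := Nat.le_mul_of_pos_right _ h3
    _ = Module.finrank ℚ L := h1.symm

theorem lower (f : ℕ → ℝ) (hf : ∀ k, 0 < f k) (n : ℕ) : ∃ m : ℝ, 0 < m ∧ ∀ k ≤ n, m ≤ f k := by
  induction n with
  | zero => exact ⟨f 0, hf 0, fun k hk => by rw [Nat.le_zero.1 hk]⟩
  | succ n ih =>
    obtain ⟨m, hm, h⟩ := ih
    refine ⟨min m (f (n + 1)), lt_min hm (hf _), fun k hk => ?_⟩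
    rcases Nat.lt_or_ge n k with h1 | h1
    · have : k = n + 1 := by omega
      rw [this]
      exact min_le_right _ _
    · exact (min_le_left _ _).trans (h k h1)

theorem upper (f : ℕ → ℝ) (n : ℕ) : ∃ m : ℝ, 0 < m ∧ ∀ k ≤ n, f k ≤ m := by
  induction n with
  | zero => exact ⟨max 1 (f 0), lt_max_of_lt_left one_pos, fun k hk => by
      rw [Nat.le_zero.1 hk]
      exact le_max_right _ _⟩
  | succ n ih =>
    obtain ⟨m, hm, h⟩ := ih
    refine ⟨max m (f (n + 1)), lt_max_of_lt_left hm, fun k hk => ?_⟩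
    rcases Nat.lt_or_ge n k with h1 | h1
    · have : k = n + 1 := by omega
      rw [this]
      exact le_max_right _ _
    · exact (h k h1).trans (le_max_left _ _)

theorem discr_bot (K : Type) [Field K] [NumberField K] :
    discr (⊥ : IntermediateField ℚ K) = 1 := by
  rw [discr_eq_discr_of_algEquiv _ (IntermediateField.botEquiv ℚ K), Rat.numberField_discr]

theorem one_le_absdiscr (L : Type) [Field L] [NumberField L] : (1 : ℝ) ≤ |(discr L : ℝ)| := by
  have h : discr L ≠ 0 := discr_ne_zero L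
  have h2 : (1 : ℤ) ≤ |discr L| := Int.one_le_abs h
  have h3 : ((1 : ℤ) : ℝ) ≤ ((|discr L| : ℤ) : ℝ) := by exact_mod_cast h2
  rw [Int.cast_abs] at h3
  simpa using h3

theorem weaken {D C C' δ δ' x : ℝ} (hD : 1 ≤ D) (hC : C ≤ C') (hC' : 0 < C') (hδ : δ' ≤ δ)
    (h : x ≤ C * D ^ (1 / 2 - δ : ℝ)) : x ≤ C' * D ^ (1 / 2 - δ' : ℝ) := by
  have h1 : D ^ (1 / 2 - δ : ℝ) ≤ D ^ (1 / 2 - δ' : ℝ) :=
    Real.rpow_le_rpow_of_exponent_le hD (by linarith)
  have h2 : 0 ≤ D ^ (1 / 2 - δ : ℝ) := Real.rpow_nonneg (by linarith) _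
  calc x ≤ C * D ^ (1 / 2 - δ : ℝ) := h
    _ ≤ C' * D ^ (1 / 2 - δ : ℝ) := mul_le_mul_of_nonneg_right hC h2
    _ ≤ C' * D ^ (1 / 2 - δ' : ℝ) := mul_le_mul_of_nonneg_left h1 hC'.le

end UU

open UU in
theorem t_UUof : S_UUof := by
  intro hGE hCHN _ n hn
  choose κ δ C hκ hδ hC hmain using fun k : ℕ => hCHN n k (by omega)
  obtain ⟨κs, hκs, hκle⟩ := lower κ hκ n
  obtain ⟨δs, hδs, hδle⟩ := lower δ hδ n
  obtain ⟨Cs, hCs, hCle⟩ := upper C n
  -- the common step: a subfield of odd index with small discriminant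
  have key : ∀ (L : Type) [Field L] [NumberField L], Module.finrank ℚ L = n → NoOm L → OddTow L →
      ∀ F : IntermediateField ℚ L, Odd (Module.finrank F L) →
      |(discr F : ℝ)| ≤ |(discr L : ℝ)| ^ κs →
      (Nat.card {c : ClassGroup (𝓞 L) // c ^ 3 = 1} : ℝ) ≤
        Cs * |(discr L : ℝ)| ^ (1 / 2 - δs : ℝ) := by
    intro L _ _ hL hN hO F hF hd
    obtain ⟨k, hk⟩ := hO F hF
    have hkn : k ≤ n := hL ▸ tow_le k F hk
    have hD := one_le_absdiscr L
    have h1 : |(discr F : ℝ)| ≤ |(discr L : ℝ)| ^ κ k :=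
      hd.trans (Real.rpow_le_rpow_of_exponent_le hD (hκle k hkn))
    exact weaken hD (hCle k hkn) hCs (hδle k hkn) (hmain k L hL hN F hk h1)
  rcases Nat.even_or_odd n with hpar | hpar
  · obtain ⟨δ0, C0, hδ0, hC0, hG⟩ := hGE n hpar hn κs hκs
    refine ⟨min δ0 δs, max C0 Cs, lt_min hδ0 hδs, lt_max_of_lt_left hC0, ?_⟩
    intro L _ _ hL hN hO
    have hD := one_le_absdiscr L
    by_cases h : ∀ F : IntermediateField ℚ L, Odd (Module.finrank F L) →
        |(discr L : ℝ)| ^ κs ≤ |(discr F : ℝ)|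
    · exact weaken hD (le_max_left _ _) (lt_max_of_lt_left hC0) (min_le_left _ _) (hG L hL hN h)
    · push Not at h
      obtain ⟨F, hF, hd⟩ := h
      exact weaken hD (le_max_right _ _) (lt_max_of_lt_left hC0) (min_le_right _ _)
        (key L hL hN hO F hF hd.le)
  · refine ⟨δs, Cs, hδs, hCs, ?_⟩
    intro L _ _ hL hN hO
    refine key L hL hN hO ⊥ ?_ ?_
    · rw [IntermediateField.finrank_bot', hL]
      exact hpar
    · rw [discr_bot]
      have hD := one_le_absdiscr L
      rw [Int.cast_one, abs_one]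
      exact Real.one_le_rpow hD hκs.le

end Pool.Agent.H514.GE
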