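import Pool.Agent.H514.GE.UU

/-! # The general theorem for the fields without `√-3`, with a parameter

Owner helper514 (the proof follows the one of helper921 in UU.lean). -/

set_option autoImplicit false

namespace Pool.Agent.H514.GE

open NumberField Pool.Agent.K1H79.GE
open scoped Classical nonZeroDivisors

/-- every subfield of odd index is joined to `L` by a tower of cubic extensions, or has a large discriminant -/
def OddTowE (η : ℝ) (L : Type) [Field L] [NumberField L] : Prop :=
  ∀ F : IntermediateField ℚ L, Odd (Module.finrank F L) →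
    (∃ k : ℕ, Tow L k F) ∨ |(discr L : ℝ)| ^ η ≤ |(discr F : ℝ)|

theorem OddTow.toE {L : Type} [Field L] [NumberField L] (h : OddTow L) (η : ℝ) : OddTowE η L :=
  fun F hF => Or.inl (h F hF)

/-- **the general theorem** for the fields without `√-3` -/
def S_UUE : Prop := ∀ n : ℕ, 2 ≤ n → ∀ η : ℝ, 0 < η → ∃ δ C : ℝ, 0 < δ ∧ 0 < C ∧
  ∀ (L : Type) [Field L] [NumberField L], Module.finrank ℚ L = n → NoOm L → OddTowE η L →
    (Nat.card {c : ClassGroup (𝓞 L) // c ^ 3 = 1} : ℝ) ≤ C * |(discr L : ℝ)| ^ (1 / 2 - δ : ℝ)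

open UU in
theorem t_UUEof (hGE : S_GE) (hCHN : S_CHN) : S_UUE := by
  intro n hn η hη
  choose κ δ C hκ hδ hC hmain using fun k : ℕ => hCHN n k (by omega)
  obtain ⟨κs, hκs, hκle⟩ := lower κ hκ n
  obtain ⟨δs, hδs, hδle⟩ := lower δ hδ n
  obtain ⟨Cs, hCs, hCle⟩ := upper C n
  have key : ∀ (L : Type) [Field L] [NumberField L], Module.finrank ℚ L = n → NoOm L → OddTowE η L →
      ∀ F : IntermediateField ℚ L, Odd (Module.finrank F L) →
      |(discr F : ℝ)| < |(discr L : ℝ)| ^ (min κs η) →
      (Nat.card {c : ClassGroup (𝓞 L) // c ^ 3 = 1} : ℝ) ≤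
        Cs * |(discr L : ℝ)| ^ (1 / 2 - δs : ℝ) := by
    intro L _ _ hL hN hO F hF hd
    have hD := one_le_absdiscr L
    rcases hO F hF with ⟨k, hk⟩ | hbig
    · have hkn : k ≤ n := hL ▸ tow_le k F hk
      have h1 : |(discr F : ℝ)| ≤ |(discr L : ℝ)| ^ κ k :=
        hd.le.trans (Real.rpow_le_rpow_of_exponent_le hD ((min_le_left _ _).trans (hκle k hkn)))
      exact weaken hD (hCle k hkn) hCs (hδle k hkn) (hmain k L hL hN F hk h1)
    · exfalso
      have h2 : |(discr L : ℝ)| ^ (min κs η) ≤ |(discr L : ℝ)| ^ η :=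
        Real.rpow_le_rpow_of_exponent_le hD (min_le_right _ _)
      linarith
  rcases Nat.even_or_odd n with hpar | hpar
  · obtain ⟨δ0, C0, hδ0, hC0, hG⟩ := hGE n hpar hn (min κs η) (lt_min hκs hη)
    refine ⟨min δ0 δs, max C0 Cs, lt_min hδ0 hδs, lt_max_of_lt_left hC0, ?_⟩
    intro L _ _ hL hN hO
    have hD := one_le_absdiscr L
    by_cases h : ∀ F : IntermediateField ℚ L, Odd (Module.finrank F L) →
        |(discr L : ℝ)| ^ (min κs η) ≤ |(discr F : ℝ)|
    · exact weaken hD (le_max_left _ _) (lt_max_of_lt_left hC0) (min_le_left _ _) (hG L hL hN h)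
    · push Not at h
      obtain ⟨F, hF, hd⟩ := h
      exact weaken hD (le_max_right _ _) (lt_max_of_lt_left hC0) (min_le_right _ _)
        (key L hL hN hO F hF hd)
  · refine ⟨δs, Cs, hδs, hCs, ?_⟩
    intro L _ _ hL hN hO
    refine key L hL hN hO ⊥ ?_ ?_
    · rw [IntermediateField.finrank_bot', hL]
      exact hpar
    · rw [discr_bot]
      have hD : (2 : ℤ) < |discr L| := abs_discr_gt_two (by rw [hL]; omega)
      have hD' : (1 : ℝ) < |(discr L : ℝ)| := by
        have : ((2 : ℤ) : ℝ) < ((|discr L| : ℤ) : ℝ) := by exact_mod_cast hD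
        rw [Int.cast_abs] at this
        push_cast at this
        linarith
      rw [Int.cast_one, abs_one]
      exact Real.one_lt_rpow hD' (lt_min hκs hη)

end Pool.Agent.H514.GE

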