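import Pool.Agent.H514.GE.Stm3
import Pool.Agent.H514.GE.SIX

/-! # Fields generated by good subfields: assembly

Owner helper514. -/

set_option autoImplicit false

namespace Pool.Agent.H514.GE

open NumberField Pool.Agent.K1H79.GE
open scoped Classical nonZeroDivisors

namespace VVx

theorem mono {C C' D δ δ' x : ℝ} (hx : x ≤ C * D ^ (1 / 2 - δ : ℝ)) (hC0 : 0 < C) (hD : 1 ≤ D) (hC : C ≤ C')
    (hδ : δ' ≤ δ) : x ≤ C' * D ^ (1 / 2 - δ' : ℝ) := by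
  refine hx.trans ?_
  refine mul_le_mul hC ?_ (by positivity) (hC0.le.trans hC)
  exact Real.rpow_le_rpow_of_exponent_le hD (by linarith)

/-- the good fields of degree `e` -/
theorem good (hUU : S_UU) (hEXP : S_EXP) (hSIX : S_SIX) (hQW : S_QW)
    (hTRIV : Pool.Agent.K1H79.SX.S_TRIV) (e : ℕ) : ∃ δ C : ℝ, 0 < δ ∧ 0 < C ∧
    ∀ (E : Type) [Field E] [NumberField E], Module.finrank ℚ E = e → Good E →
      (Nat.card {c : ClassGroup (𝓞 E) // c ^ 3 = 1} : ℝ) ≤ C * |(discr E : ℝ)| ^ (1 / 2 - δ : ℝ) := by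
  by_cases h2 : e = 2
  · subst h2
    obtain ⟨δ1, C1, hδ1, hC1, h1⟩ := hUU 2 le_rfl
    obtain ⟨C2, hC2, h2⟩ := hTRIV 2
    refine ⟨min δ1 (1 / 4), max C1 (4 * C2), lt_min hδ1 (by norm_num), lt_max_of_lt_left hC1, ?_⟩
    intro E _ _ hE _
    have hD := SIXN.one_le_disc E
    by_cases hno : NoOm E
    · exact mono (h1 E hE hno (hEXP E (Or.inl ⟨1, by rw [hE, pow_one]⟩))) hC1 hD (le_max_left _ _) (min_le_left _ _)
    · unfold NoOm at hno
      push Not at hno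
      obtain ⟨z, hz⟩ := hno
      have h3 : (Nat.card {c : ClassGroup (𝓞 E) // c ^ 3 = 1} : ℝ) ≤ C2 * |(discr E : ℝ)| := h2 E hE
      have h4 := SIXN.disc_gen hz hE
      have h5 : (1 : ℝ) ≤ |(discr E : ℝ)| ^ (1 / 2 - min δ1 (1 / 4) : ℝ) :=
        Real.one_le_rpow hD (by linarith [min_le_right δ1 (1 / 4)])
      have h6 : (Nat.card {c : ClassGroup (𝓞 E) // c ^ 3 = 1} : ℝ) ≤ 4 * C2 := by
        refine h3.trans ?_
        nlinarith
      calc (Nat.card {c : ClassGroup (𝓞 E) // c ^ 3 = 1} : ℝ) ≤ 4 * C2 := h6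
        _ ≤ max C1 (4 * C2) := le_max_right _ _
        _ = max C1 (4 * C2) * 1 := (mul_one _).symm
        _ ≤ _ := mul_le_mul_of_nonneg_left h5 (le_max_of_le_left hC1.le)
  by_cases h4 : e = 4
  · subst h4
    obtain ⟨δ1, C1, hδ1, hC1, h1⟩ := hUU 4 (by norm_num)
    obtain ⟨δ2, C2, hδ2, hC2, h2⟩ := hQW
    refine ⟨min δ1 δ2, max C1 C2, lt_min hδ1 hδ2, lt_max_of_lt_left hC1, ?_⟩
    intro E _ _ hE _
    have hD := SIXN.one_le_disc E
    by_cases hno : NoOm E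
    · exact mono (h1 E hE hno (hEXP E (Or.inl ⟨2, by rw [hE]; norm_num⟩))) hC1 hD (le_max_left _ _)
        (min_le_left _ _)
    · unfold NoOm at hno
      push Not at hno
      exact mono (h2 E hE hno) hC2 hD (le_max_right _ _) (min_le_right _ _)
  by_cases h6 : e = 6
  · subst h6
    obtain ⟨δ1, C1, hδ1, hC1, h1⟩ := hSIX
    exact ⟨δ1, C1, hδ1, hC1, fun E _ _ hE _ => h1 E hE⟩
  by_cases h7 : 2 ≤ e
  · obtain ⟨δ1, C1, hδ1, hC1, h1⟩ := hUU e h7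
    refine ⟨δ1, C1, hδ1, hC1, fun E _ _ hE hG => ?_⟩
    rcases hG with h | h | h | ⟨_, h, h'⟩
    · exact absurd (hE.symm.trans h) h2
    · exact absurd (hE.symm.trans h) h4
    · exact absurd (hE.symm.trans h) h6
    · exact h1 E hE h h'
  · refine ⟨1, 1, one_pos, one_pos, fun E _ _ hE hG => ?_⟩
    exfalso
    rcases hG with h | h | h | ⟨h, _⟩ <;> omega

/-- uniformly in the degree -/
theorem good' (hUU : S_UU) (hEXP : S_EXP) (hSIX : S_SIX) (hQW : S_QW)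
    (hTRIV : Pool.Agent.K1H79.SX.S_TRIV) (n : ℕ) : ∃ δ C : ℝ, 0 < δ ∧ 0 < C ∧
    ∀ (E : Type) [Field E] [NumberField E], Module.finrank ℚ E ≤ n → Good E →
      (Nat.card {c : ClassGroup (𝓞 E) // c ^ 3 = 1} : ℝ) ≤ C * |(discr E : ℝ)| ^ (1 / 2 - δ : ℝ) := by
  induction n with
  | zero =>
    refine ⟨1, 1, one_pos, one_pos, fun E _ _ hE hG => ?_⟩
    exfalso
    rcases hG with h | h | h | ⟨h, _⟩ <;> omega
  | succ n ih =>
    obtain ⟨δ1, C1, hδ1, hC1, h1⟩ := ih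
    obtain ⟨δ2, C2, hδ2, hC2, h2⟩ := good hUU hEXP hSIX hQW hTRIV (n + 1)
    refine ⟨min δ1 δ2, max C1 C2, lt_min hδ1 hδ2, lt_max_of_lt_left hC1, ?_⟩
    intro E _ _ hE hG
    have hD := SIXN.one_le_disc E
    rcases Nat.lt_or_ge n (Module.finrank ℚ E) with h | h
    · exact mono (h2 E (by omega) hG) hC2 hD (le_max_right _ _) (min_le_right _ _)
    · exact mono (h1 E h hG) hC1 hD (le_max_left _ _) (min_le_left _ _)

end VVx

open VVx

theorem t_VVof (hUU : S_UU) (hEXP : S_EXP) (hSIX : S_SIX) (hQW : S_QW)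
    (hTRIV : Pool.Agent.K1H79.SX.S_TRIV) (hCMP : S_CMP) (hT : Pool.Agent.K1H79.TW.S_T) : S_VV := by
  intro n hn
  obtain ⟨δ, C, hδ, hC, h⟩ := good' hUU hEXP hSIX hQW hTRIV n
  obtain ⟨A, C1, hA, hC1, h1⟩ := hCMP n
  obtain ⟨C2, hC2, h2⟩ := hT n (δ / (2 * A)) (by positivity)
  refine ⟨δ / (2 * A), C2 * C * C1 ^ (δ / A), by positivity, by positivity, ?_⟩
  intro L _ _ hL hgen
  obtain ⟨E, hE, hED⟩ := h1 L hL hn _ hgen
  have hGE : Good E := hE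
  have hEn : Module.finrank ℚ E ≤ n := by
    rw [← hL, ← Module.finrank_mul_finrank ℚ E L]
    exact Nat.le_mul_of_pos_right _ Module.finrank_pos
  have h3 := h E hEn hGE
  have h4 : (Nat.card {c : ClassGroup (𝓞 L) // c ^ 3 = 1} : ℝ) ≤
      C2 * |(discr L : ℝ)| ^ (δ / (2 * A)) * √(|(discr L : ℝ)| / |(discr E : ℝ)|) *
        (Nat.card {c : ClassGroup (𝓞 E) // c ^ 3 = 1} : ℝ) := h2 E L hL
  obtain ⟨x, hx⟩ : ∃ x : ℝ, x = |(discr L : ℝ)| := ⟨_, rfl⟩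
  obtain ⟨y, hy⟩ : ∃ y : ℝ, y = |(discr E : ℝ)| := ⟨_, rfl⟩
  have hx1 : 1 ≤ x := by rw [hx]; exact SIXN.one_le_disc L
  have hy1 : 1 ≤ y := by rw [hy]; exact SIXN.one_le_disc E
  rw [← hx, ← hy] at h4
  rw [← hx] at hED ⊢
  rw [← hy] at h3 hED
  have hx0 : 0 < x := by linarith
  have hy0 : 0 < y := by linarith
  have h5 : √(x / y) = x ^ (1 / 2 : ℝ) * y ^ (-(1 / 2) : ℝ) := by
    rw [Real.sqrt_eq_rpow, Real.div_rpow hx0.le hy0.le, Real.rpow_neg hy0.le, div_eq_mul_inv]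
  have h6 : y ^ (-δ) ≤ C1 ^ (δ / A) * x ^ (-(δ / A)) := by
    have h7 : x ^ (δ / A) ≤ C1 ^ (δ / A) * y ^ δ := by
      calc x ^ (δ / A) ≤ (C1 * y ^ A) ^ (δ / A) := Real.rpow_le_rpow hx0.le hED (by positivity)
        _ = C1 ^ (δ / A) * y ^ δ := by
            rw [Real.mul_rpow hC1.le (by positivity), ← Real.rpow_mul hy0.le]
            congr 2
            field_simp
    rw [Real.rpow_neg hy0.le, Real.rpow_neg hx0.le]
    rw [inv_le_iff_one_le_mul₀ (by positivity)]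
    have h8 : 0 < x ^ (δ / A) := by positivity
    calc (1 : ℝ) = x ^ (δ / A) * (x ^ (δ / A))⁻¹ := (mul_inv_cancel₀ h8.ne').symm
      _ ≤ (C1 ^ (δ / A) * y ^ δ) * (x ^ (δ / A))⁻¹ := mul_le_mul_of_nonneg_right h7 (by positivity)
      _ = _ := by ring
  calc (Nat.card {c : ClassGroup (𝓞 L) // c ^ 3 = 1} : ℝ)
      ≤ C2 * x ^ (δ / (2 * A)) * √(x / y) * (Nat.card {c : ClassGroup (𝓞 E) // c ^ 3 = 1} : ℝ) := h4
    _ ≤ C2 * x ^ (δ / (2 * A)) * √(x / y) * (C * y ^ (1 / 2 - δ : ℝ)) :=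
        mul_le_mul_of_nonneg_left h3 (by positivity)
    _ = C2 * C * (x ^ (δ / (2 * A)) * x ^ (1 / 2 : ℝ)) * (y ^ (-(1 / 2) : ℝ) * y ^ (1 / 2 - δ : ℝ)) := by
        rw [h5]; ring
    _ = C2 * C * (x ^ (δ / (2 * A) + 1 / 2)) * y ^ (-δ) := by
        rw [← Real.rpow_add hx0, ← Real.rpow_add hy0]
        congr 2
        ring
    _ ≤ C2 * C * (x ^ (δ / (2 * A) + 1 / 2)) * (C1 ^ (δ / A) * x ^ (-(δ / A))) :=
        mul_le_mul_of_nonneg_left h6 (by positivity)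
    _ = C2 * C * C1 ^ (δ / A) * (x ^ (δ / (2 * A) + 1 / 2) * x ^ (-(δ / A))) := by ring
    _ = C2 * C * C1 ^ (δ / A) * x ^ (1 / 2 - δ / (2 * A) : ℝ) := by
        rw [← Real.rpow_add hx0]
        congr 2
        field_simp
        ring

end Pool.Agent.H514.GE

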